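import Pool.Agent.TH933.SPC.Stm

/-! # SP-3 COL: reduction of a unimodular vector at level `m` -/

set_option autoImplicit false

open Matrix

namespace Pool.Agent.TH933.SPC

open Pool.Agent.TH610.CSP

namespace COL

variable {g : ℕ}

/-! ### Number theory -/

theorem crt {n u w : ℤ} (hn : n ≠ 0) (h : ∃ a b c : ℤ, a * n + b * u + c * w = 1) :
    ∃ s : ℤ, IsCoprime n (w + s * u) := by
  classical
  set F := n.natAbs.primeFactors.filter (fun p : ℕ => ¬ (p : ℤ) ∣ w) with hF
  refine ⟨∏ p ∈ F, (p : ℤ), ?_⟩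
  rw [Int.isCoprime_iff_gcd_eq_one]
  by_contra hne
  obtain ⟨p, hp, hpd⟩ := Nat.exists_prime_and_dvd hne
  have h1 : (p : ℤ) ∣ n := (Int.natCast_dvd_natCast.2 hpd).trans (Int.gcd_dvd_left _ _)
  have h2 : (p : ℤ) ∣ w + (∏ p ∈ F, (p : ℤ)) * u :=
    (Int.natCast_dvd_natCast.2 hpd).trans (Int.gcd_dvd_right _ _)
  have hpp : Prime (p : ℤ) := Nat.prime_iff_prime_int.1 hp
  have hpn : p ∈ n.natAbs.primeFactors := by
    rw [Nat.mem_primeFactors]
    exact ⟨hp, Int.natCast_dvd.1 h1, by omega⟩
  by_cases hw : (p : ℤ) ∣ w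
  · have h3 : (p : ℤ) ∣ (∏ p ∈ F, (p : ℤ)) * u := (Int.dvd_iff_dvd_of_dvd_add h2).1 hw
    rcases hpp.dvd_or_dvd h3 with h4 | h4
    · obtain ⟨q, hq, hpq⟩ := (hpp.dvd_finsetProd_iff _).1 h4
      rw [hF, Finset.mem_filter, Nat.mem_primeFactors] at hq
      have h5 : p = q := (Nat.prime_dvd_prime_iff_eq hp hq.1.1).1 (Int.natCast_dvd_natCast.1 hpq)
      exact hq.2 (h5 ▸ hw)
    · obtain ⟨a, b, c, habc⟩ := h
      have h5 : (p : ℤ) ∣ 1 := by
        rw [← habc]
        exact dvd_add (dvd_add (h1.mul_left a) (h4.mul_left b)) (hw.mul_left c)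
      exact hpp.not_dvd_one h5
  · have h3 : (p : ℤ) ∣ ∏ p ∈ F, (p : ℤ) :=
      Finset.dvd_prod_of_mem (fun p : ℕ => (p : ℤ)) (by
        rw [hF, Finset.mem_filter]
        exact ⟨hpn, hw⟩)
    exact hw ((dvd_add_left (h3.mul_right u)).1 h2)

/-! ### Blocks -/

theorem blk_of {n : ℕ} {A : GG g} {X Y Z W : Matrix (Fin g) (Fin g) ℤ}
    (h : (A : MG g) = fromBlocks (1 + X) Y Z (1 + W))
    (hX : ∀ a b : Fin g, (n ≤ (a : ℕ) ∨ n ≤ (b : ℕ)) → X a b = 0 ∧ Y a b = 0 ∧ Z a b = 0 ∧
      W a b = 0) : BlkG n A := by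
  intro i j hij
  rw [h, ← fromBlocks_one]
  rcases i with a | a <;> rcases j with b | b <;> have h1 := hX a b hij
  · simp [h1.1]
  · simp [h1.2.1]
  · simp [h1.2.2.1]
  · simp [h1.2.2.2]

theorem blk_mul {n : ℕ} {A B : GG g} (hA : BlkG n A) (hB : BlkG n B) : BlkG n (A * B) := by
  intro i j hij
  rw [Units.val_mul, Matrix.mul_apply]
  by_cases hi : n ≤ (Sum.elim id id i : Fin g).val
  · have h1 : ∀ l, (A : MG g) i l * (B : MG g) l j = (1 : MG g) i l * (B : MG g) l j := fun l => by
      rw [hA i l (Or.inl hi)]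
    rw [Finset.sum_congr rfl fun l _ => h1 l, ← Matrix.mul_apply, Matrix.one_mul]
    exact hB i j hij
  · have hj : n ≤ (Sum.elim id id j : Fin g).val := hij.resolve_left hi
    have h1 : ∀ l, (A : MG g) i l * (B : MG g) l j = (A : MG g) i l * (1 : MG g) l j := fun l => by
      rw [hB l j (Or.inr hj)]
    rw [Finset.sum_congr rfl fun l _ => h1 l, ← Matrix.mul_apply, Matrix.mul_one]
    exact hA i j hij

/-- reachability -/
def Reach (k : Fin g) (m : ℤ) (x y x' y' : Fin g → ℤ) : Prop :=
  ∃ B ∈ ELm g m, BlkG ((k : ℕ) + 1) B ∧ (B : MG g).mulVec (Sum.elim x y) = Sum.elim x' y'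

theorem Reach.trans {k : Fin g} {m : ℤ} {x y x' y' x'' y'' : Fin g → ℤ}
    (h : Reach k m x y x' y') (h' : Reach k m x' y' x'' y'') : Reach k m x y x'' y'' := by
  obtain ⟨B, hB, hB1, hB2⟩ := h
  obtain ⟨C, hC, hC1, hC2⟩ := h'
  refine ⟨C * B, mul_mem hC hB, blk_mul hC1 hB1, ?_⟩
  rw [Units.val_mul, ← Matrix.mulVec_mulVec, hB2, hC2]

/-- `(1 0; m S 1)` -/
theorem reach_L {k : Fin g} {m : ℤ} (S : Matrix (Fin g) (Fin g) ℤ) (hS : Sᵀ = S)
    (hk : ∀ a b : Fin g, (k < a ∨ k < b) → S a b = 0) (x y : Fin g → ℤ) :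
    Reach k m x y x (y + (m • S).mulVec x) := by
  let A : GG g :=
    { val := fromBlocks 1 0 (m • S) 1
      inv := fromBlocks 1 0 (-(m • S)) 1
      val_inv := by
        rw [fromBlocks_multiply, ← fromBlocks_one]
        simp
      inv_val := by
        rw [fromBlocks_multiply, ← fromBlocks_one]
        simp }
  have hA : (A : MG g) = fromBlocks 1 0 (m • S) 1 := rfl
  refine ⟨A, Subgroup.subset_closure (Or.inr (Or.inl ⟨S, hS, hA⟩)), ?_, ?_⟩
  · refine blk_of (X := 0) (Y := 0) (Z := m • S) (W := 0) (by rw [hA, add_zero]) fun a b hab => ?_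
    refine ⟨rfl, rfl, ?_, rfl⟩
    rw [Matrix.smul_apply, hk a b (by
      rcases hab with h | h
      · exact Or.inl (Fin.lt_def.2 (by omega))
      · exact Or.inr (Fin.lt_def.2 (by omega))), smul_zero]
  · rw [hA, fromBlocks_mulVec]
    congr 1
    · simp
    · rw [Matrix.one_mulVec, add_comm]
      rfl

/-- the transvections `1 + m t e_kᵀ` -/
theorem reach_T {k : Fin g} {m : ℤ} (t : Fin g → ℤ) (ht : t k = 0)
    (hk : ∀ a : Fin g, k < a → t a = 0) (x y : Fin g → ℤ) :
    Reach k m x y (fun j => x j + m * t j * x k)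
      (fun j => y j - (Pi.single k (1 : ℤ) : Fin g → ℤ) j * (m * ∑ i, t i * y i)) := by
  classical
  set e : Fin g → ℤ := Pi.single k 1 with he
  have het : e ⬝ᵥ t = 0 := by
    rw [he, single_dotProduct, ht, mul_zero]
  have hN : vecMulVec t e * vecMulVec t e = 0 := by
    rw [vecMulVec_mul_vecMulVec, het]
    simp
  have hdet : ∀ c : ℤ, (1 + c • vecMulVec t e).det = 1 := by
    intro c
    rw [← smul_vecMulVec, vecMulVec_eq Unit, det_one_add_replicateCol_mul_replicateRow,
      dotProduct_smul, het]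
    simp
  have hmul : ∀ c : ℤ, (1 + c • vecMulVec t e) * (1 + (-c) • vecMulVec t e) = 1 := by
    intro c
    rw [add_mul, one_mul, mul_add, mul_one, smul_mul_smul_comm, hN, smul_zero, add_zero, neg_smul]
    abel
  let T : SLn g := ⟨1 + m • vecMulVec t e, hdet m⟩
  let T' : SLn g := ⟨1 + (-m) • vecMulVec t e, hdet (-m)⟩
  have hTT' : T * T' = 1 := Subtype.ext (hmul m)
  have hinv : T⁻¹ = T' := inv_eq_of_mul_eq_one_right hTT'
  have hT'T : T'.1 * T.1 = 1 := by
    have := hmul (-m)
    rw [neg_neg] at this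
    exact this
  let A : GG g :=
    { val := fromBlocks T.1 0 0 (T'.1)ᵀ
      inv := fromBlocks T'.1 0 0 (T.1)ᵀ
      val_inv := by
        rw [fromBlocks_multiply, ← fromBlocks_one, ← transpose_mul]
        have h1 : T.1 * T'.1 = 1 := hmul m
        rw [h1]
        simp
      inv_val := by
        rw [fromBlocks_multiply, ← fromBlocks_one, ← transpose_mul, hT'T]
        simp }
  have hA : (A : MG g) = fromBlocks T.1 0 0 (T'.1)ᵀ := rfl
  refine ⟨A, Subgroup.subset_closure (Or.inr (Or.inr (Or.inl ⟨T, ?_, ?_⟩))), ?_, ?_⟩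
  · intro i j
    show m ∣ (1 + m • vecMulVec t e) i j - (1 : Matrix (Fin g) (Fin g) ℤ) i j
    rw [Matrix.add_apply, Matrix.smul_apply, add_sub_cancel_left, smul_eq_mul]
    exact dvd_mul_right _ _
  · show (A : MG g) = fromBlocks T.1 0 0 ((T⁻¹).1)ᵀ
    rw [hA, hinv]
  · refine blk_of (X := m • vecMulVec t e) (Y := 0) (Z := 0) (W := ((-m) • vecMulVec t e)ᵀ)
      (by
        rw [hA]
        congr 1
        show (1 + (-m) • vecMulVec t e)ᵀ = _
        rw [transpose_add, transpose_one]) fun a b hab => ?_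
    have h1 : t a * e b = 0 ∧ t b * e a = 0 := by
      rcases hab with h | h
      · have h2 : k < a := Fin.lt_def.2 (by omega)
        rw [hk a h2, he, Pi.single_eq_of_ne h2.ne']
        simp
      · have h2 : k < b := Fin.lt_def.2 (by omega)
        rw [hk b h2, he, Pi.single_eq_of_ne h2.ne']
        simp
    refine ⟨?_, rfl, rfl, ?_⟩
    · rw [Matrix.smul_apply, vecMulVec_apply, h1.1, smul_zero]
    · rw [transpose_apply, Matrix.smul_apply, vecMulVec_apply, h1.2, smul_zero]
  · rw [hA, fromBlocks_mulVec]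
    congr 1
    · funext j
      show ((1 + m • vecMulVec t e).mulVec x + (0 : Matrix (Fin g) (Fin g) ℤ).mulVec y :
        Fin g → ℤ) j = _
      rw [zero_mulVec, add_zero, add_mulVec, one_mulVec, smul_mulVec, Pi.add_apply, Pi.smul_apply,
        vecMulVec_mulVec]
      simp [he, single_dotProduct]
      ring
    · funext j
      show ((0 : Matrix (Fin g) (Fin g) ℤ).mulVec x + ((1 + (-m) • vecMulVec t e)ᵀ).mulVec y :
        Fin g → ℤ) j = _
      rw [zero_mulVec, zero_add, transpose_add, transpose_one, transpose_smul, transpose_vecMulVec,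
        add_mulVec, one_mulVec, smul_mulVec, Pi.add_apply, Pi.smul_apply, vecMulVec_mulVec]
      simp [dotProduct]
      ring

/-- the plane `k` -/
theorem reach_Lam {k : Fin g} {m : ℤ} {a b c d : ℤ} (ha : m ∣ a - 1) (hb : m ∣ b) (hc : m ∣ c)
    (hd : m ∣ d - 1) (hdet : a * d - b * c = 1) (x y : Fin g → ℤ) :
    Reach k m x y (Function.update x k (a * x k + b * y k))
      (Function.update y k (c * x k + d * y k)) := by
  classical
  let N : ℤ → ℤ → ℤ → ℤ → MG g := fun a b c d =>
    fromBlocks (1 + Matrix.single k k (a - 1)) (Matrix.single k k b)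
      (Matrix.single k k c) (1 + Matrix.single k k (d - 1))
  have hN : ∀ a b c d : ℤ, a * d - b * c = 1 → N a b c d * N d (-b) (-c) a = 1 := by
    intro a b c d h
    show fromBlocks _ _ _ _ * fromBlocks _ _ _ _ = _
    rw [fromBlocks_multiply, ← fromBlocks_one]
    have e1 : ∀ p q : ℤ, Matrix.single k k p * Matrix.single k k q =
        (Matrix.single k k (p * q) : Matrix (Fin g) (Fin g) ℤ) := fun p q => by
      rw [Matrix.single_mul_single_same]
    congr 1
    · rw [add_mul, one_mul, mul_add, mul_one, e1, e1, add_assoc (1 : Matrix (Fin g) (Fin g) ℤ),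
        add_assoc (1 : Matrix (Fin g) (Fin g) ℤ), ← Matrix.single_add, ← Matrix.single_add,
        ← Matrix.single_add]
      have : d - 1 + (a - 1 + (a - 1) * (d - 1)) + b * -c = 0 := by linarith
      rw [this, Matrix.single_zero, add_zero]
    · rw [add_mul, mul_add, one_mul, mul_one, e1, e1, ← Matrix.single_add, ← Matrix.single_add,
        ← Matrix.single_add]
      have : -b + (a - 1) * -b + (b + b * (a - 1)) = 0 := by ring
      rw [this, Matrix.single_zero]
    · rw [add_mul, mul_add, one_mul, mul_one, e1, e1, ← Matrix.single_add, ← Matrix.single_add,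
        ← Matrix.single_add]
      have : c + c * (d - 1) + (-c + (d - 1) * -c) = 0 := by ring
      rw [this, Matrix.single_zero]
    · rw [add_mul (1 : Matrix (Fin g) (Fin g) ℤ), one_mul, mul_add, mul_one, e1, e1,
        add_assoc (1 : Matrix (Fin g) (Fin g) ℤ), add_left_comm, ← Matrix.single_add,
        ← Matrix.single_add, ← Matrix.single_add]
      have : c * -b + (a - 1 + (d - 1 + (d - 1) * (a - 1))) = 0 := by linarith
      rw [this, Matrix.single_zero, add_zero]
  let A : GG g :=
    { val := N a b c d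
      inv := N d (-b) (-c) a
      val_inv := hN a b c d hdet
      inv_val := by
        have := hN d (-b) (-c) a (by linarith)
        rwa [neg_neg, neg_neg] at this }
  have hA : (A : MG g) = fromBlocks (1 + Matrix.single k k (a - 1)) (Matrix.single k k b)
      (Matrix.single k k c) (1 + Matrix.single k k (d - 1)) := rfl
  refine ⟨A, Subgroup.subset_closure (Or.inr (Or.inr (Or.inr
    ⟨k, a, b, c, d, ha, hb, hc, hd, hdet, hA⟩))), ?_, ?_⟩
  · refine blk_of hA fun p q hpq => ?_
    have h1 : ∀ r : ℤ, (Matrix.single k k r : Matrix (Fin g) (Fin g) ℤ) p q = 0 := by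
      intro r
      apply Matrix.single_apply_of_ne
      rintro ⟨rfl, h⟩
      have := congrArg Fin.val h
      omega
    exact ⟨h1 _, h1 _, h1 _, h1 _⟩
  · rw [hA, fromBlocks_mulVec]
    congr 1
    · funext j
      by_cases hj : j = k
      · subst hj
        simp [add_mulVec, Matrix.single_mulVec]
        ring
      · simp [add_mulVec, Matrix.single_mulVec, hj]
    · funext j
      by_cases hj : j = k
      · subst hj
        simp [add_mulVec, Matrix.single_mulVec]
        ring
      · simp [add_mulVec, Matrix.single_mulVec, hj]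

/-- the last two steps -/
theorem reach_last {k : Fin g} {m : ℤ} (x y : Fin g → ℤ)
    (h0 : ∀ j, k < j → x j = 0 ∧ y j = 0) (hx : x k = 1) (hxj : ∀ j, j ≠ k → m ∣ x j)
    (hy : ∀ j, m ∣ y j) : Reach k m x y (Pi.single k 1) 0 := by
  classical
  -- kill `x`
  let t : Fin g → ℤ := fun j => if j = k then 0 else -(x j / m)
  have htk : t k = 0 := if_pos rfl
  have ht0 : ∀ a : Fin g, k < a → t a = 0 := fun a ha => by
    show (if a = k then 0 else -(x a / m)) = 0
    rw [if_neg ha.ne', (h0 a ha).1]
    simp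
  have h1 := reach_T (m := m) t htk ht0 x y
  have hx1 : (fun j => x j + m * t j * x k) = (Pi.single k 1 : Fin g → ℤ) := by
    funext j
    by_cases hj : j = k
    · subst hj
      rw [htk, Pi.single_eq_same, hx]
      ring
    · rw [Pi.single_eq_of_ne hj, hx]
      have h2 : t j = -(x j / m) := if_neg hj
      have h3 : m * (x j / m) = x j := Int.mul_ediv_cancel' (hxj j hj)
      rw [h2]
      linarith
  rw [hx1] at h1
  set y1 : Fin g → ℤ := fun j => y j - (Pi.single k (1 : ℤ) : Fin g → ℤ) j * (m * ∑ i, t i * y i)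
    with hy1
  have hy10 : ∀ j, k < j → y1 j = 0 := fun j hj => by
    show y j - (Pi.single k (1 : ℤ) : Fin g → ℤ) j * (m * ∑ i, t i * y i) = 0
    rw [(h0 j hj).2, Pi.single_eq_of_ne hj.ne']
    ring
  have hy1m : ∀ j, m ∣ y1 j := fun j => by
    show m ∣ y j - (Pi.single k (1 : ℤ) : Fin g → ℤ) j * (m * ∑ i, t i * y i)
    exact dvd_sub (hy j) ((dvd_mul_right _ _).mul_left _)
  -- kill `y`
  let e : Fin g → ℤ := Pi.single k 1
  let r : Fin g → ℤ := fun j => -(y1 j / m)
  let S : Matrix (Fin g) (Fin g) ℤ := fun i j => r i * e j + e i * r j - e i * e j * r k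
  have hr0 : ∀ j, k < j → r j = 0 := fun j hj => by
    show -(y1 j / m) = 0
    rw [hy10 j hj]
    simp
  have he0 : ∀ j, k < j → e j = 0 := fun j hj => Pi.single_eq_of_ne hj.ne' _
  have hek : e k = 1 := Pi.single_eq_same _ _
  have hST : Sᵀ = S := by
    ext i j
    show r j * e i + e j * r i - e j * e i * r k = r i * e j + e i * r j - e i * e j * r k
    ring
  have hS0 : ∀ a b : Fin g, (k < a ∨ k < b) → S a b = 0 := by
    intro a b hab
    show r a * e b + e a * r b - e a * e b * r k = 0
    rcases hab with h | h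
    · rw [hr0 a h, he0 a h]
      ring
    · rw [hr0 b h, he0 b h]
      ring
  have h2 := reach_L (m := m) S hST hS0 (Pi.single k 1) y1
  have hy2 : y1 + (m • S).mulVec (Pi.single k 1) = 0 := by
    rw [Matrix.mulVec_single_one]
    funext j
    show y1 j + m * S j k = 0
    have h3 : S j k = r j := by
      show r j * e k + e j * r k - e j * e k * r k = r j
      rw [hek]
      ring
    have h4 : m * (y1 j / m) = y1 j := Int.mul_ediv_cancel' (hy1m j)
    rw [h3]
    show y1 j + m * -(y1 j / m) = 0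
    linarith
  rw [hy2] at h2
  exact h1.trans h2

/-- the plane `k`, for coprime `x k`, `y k` -/
theorem reach_mid {k : Fin g} {m : ℤ} (x y : Fin g → ℤ)
    (h0 : ∀ j, k < j → x j = 0 ∧ y j = 0) (hx : m ∣ x k - 1) (hxj : ∀ j, j ≠ k → m ∣ x j)
    (hy : ∀ j, m ∣ y j) (hc : IsCoprime (x k) (y k)) : Reach k m x y (Pi.single k 1) 0 := by
  classical
  have hcm : IsCoprime (x k) m := by
    obtain ⟨q, hq⟩ := hx
    exact ⟨1, -q, by linarith⟩
  obtain ⟨p, q, hpq⟩ := hcm.mul_right hc
  have hp : m ∣ p - 1 := by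
    have h1 : p - 1 = -(p * (x k - 1)) - m * (q * y k) := by linarith
    rw [h1]
    exact dvd_sub ((hx.mul_left p).neg_right) (dvd_mul_right _ _)
  have h1 := reach_Lam (k := k) (m := m) (a := p) (b := q * m) (c := -y k) (d := x k) hp
    (dvd_mul_left _ _) ((hy k).neg_right) hx (by linarith) x y
  refine h1.trans (reach_last _ _ ?_ ?_ ?_ ?_)
  · intro j hj
    rw [Function.update_of_ne hj.ne', Function.update_of_ne hj.ne']
    exact h0 j hj
  · rw [Function.update_self]
    linarith
  · intro j hj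
    rw [Function.update_of_ne hj]
    exact hxj j hj
  · intro j
    by_cases hj : j = k
    · subst hj
      rw [Function.update_self]
      have : -y j * x j + x j * y j = 0 := by ring
      rw [this]
      exact dvd_zero _
    · rw [Function.update_of_ne hj]
      exact hy j

end COL

open COL in
theorem t_col : StCOL := by
  classical
  intro g k m hm x y h0 hx hxj hy huv
  obtain ⟨u, v, huv⟩ := huv
  suffices h : Reach k m x y (Pi.single k 1) 0 by
    obtain ⟨B, hB, hB1, hB2⟩ := h
    refine ⟨B, hB, hB1, fun j => ?_⟩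
    rw [hB2]
    rcases j with j | j
    · show (Pi.single k (1 : ℤ) : Fin g → ℤ) j = _
      by_cases hj : j = k
      · subst hj
        rw [Pi.single_eq_same, if_pos rfl]
      · rw [Pi.single_eq_of_ne hj, if_neg (fun h => hj (Sum.inl.inj h))]
    · show (0 : ℤ) = _
      rw [if_neg (by simp)]
  set e : Fin g → ℤ := Pi.single k 1 with he
  have he0 : ∀ j, k < j → e j = 0 := fun j hj => Pi.single_eq_of_ne hj.ne' _
  have hek : e k = 1 := Pi.single_eq_same _ _
  let u' : Fin g → ℤ := fun j => if j < k then u j else 0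
  let v' : Fin g → ℤ := fun j => if j < k then v j else 0
  have hu'k : u' k = 0 := if_neg (lt_irrefl _)
  have hv'k : v' k = 0 := if_neg (lt_irrefl _)
  have hu'0 : ∀ j, k < j → u' j = 0 := fun j hj => if_neg (not_lt.2 hj.le)
  have hv'0 : ∀ j, k < j → v' j = 0 := fun j hj => if_neg (not_lt.2 hj.le)
  set U : ℤ := ∑ j, (u' j * x j + v' j * y j) with hU
  have hsum : U + (u k * x k + v k * y k) = 1 := by
    rw [← huv, hU]
    have h1 : ∀ j, u j * x j + v j * y j = (u' j * x j + v' j * y j) +
        (if j = k then u k * x k + v k * y k else 0) := by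
      intro j
      rcases lt_trichotomy j k with h | h | h
      · have e1 : u' j = u j := if_pos h
        have e2 : v' j = v j := if_pos h
        rw [e1, e2, if_neg h.ne, add_zero]
      · subst h
        rw [hu'k, hv'k, if_pos rfl]
        ring
      · rw [(h0 j h).1, (h0 j h).2, if_neg h.ne']
        ring
    have h2 : ∑ j, (u j * x j + v j * y j) = ∑ j, (u' j * x j + v' j * y j) +
        ∑ j, (if j = k then u k * x k + v k * y k else 0) := by
      rw [← Finset.sum_add_distrib]
      exact Finset.sum_congr rfl fun j _ => h1 j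
    rw [h2, Finset.sum_ite_eq', if_pos (Finset.mem_univ _)]
  have hxk : x k ≠ 0 := by
    intro h
    rw [h] at hx
    have := Int.le_of_dvd (by norm_num) (by simpa using hx : m ∣ 1)
    omega
  obtain ⟨q, hq⟩ := hx
  obtain ⟨s, hs⟩ := crt (n := x k) (u := m * U) (w := y k) hxk
    ⟨U + u k, -q, v k, by
      have : x k = 1 + m * q := by linarith
      have h2 : U * x k = U + m * q * U := by rw [this]; ring
      linarith⟩
  have hx : m ∣ x k - 1 := ⟨q, hq⟩
  -- step 1
  let S : Matrix (Fin g) (Fin g) ℤ := fun i j => s * (u' i * e j + e i * u' j)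
  have hST : Sᵀ = S := by
    ext i j
    show s * (u' j * e i + e j * u' i) = s * (u' i * e j + e i * u' j)
    ring
  have hS0 : ∀ a b : Fin g, (k < a ∨ k < b) → S a b = 0 := by
    intro a b hab
    show s * (u' a * e b + e a * u' b) = 0
    rcases hab with h | h
    · rw [hu'0 a h, he0 a h]
      ring
    · rw [hu'0 b h, he0 b h]
      ring
  have h1 := reach_L (m := m) S hST hS0 x y
  set X : ℤ := ∑ i, u' i * x i with hX
  have hy1 : y + (m • S).mulVec x = fun j => y j + m * (s * (u' j * x k + e j * X)) := by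
    funext j
    show y j + ∑ i, m * (s * (u' j * e i + e j * u' i)) * x i = _
    congr 1
    have h2 : ∀ i, m * (s * (u' j * e i + e j * u' i)) * x i =
        m * s * u' j * (e i * x i) + m * s * e j * (u' i * x i) := fun i => by ring
    have h3 : ∑ i, e i * x i = x k := by
      have h4 : ∀ i, e i * x i = if i = k then x k else 0 := fun i => by
        by_cases hi : i = k
        · subst hi
          rw [hek, if_pos rfl, one_mul]
        · rw [he, Pi.single_eq_of_ne hi, if_neg hi, zero_mul]
      rw [Finset.sum_congr rfl fun i _ => h4 i, Finset.sum_ite_eq', if_pos (Finset.mem_univ _)]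
    rw [Finset.sum_congr rfl fun i _ => h2 i, Finset.sum_add_distrib, ← Finset.mul_sum,
      ← Finset.mul_sum, h3, ← hX]
    ring
  rw [hy1] at h1
  set y1 : Fin g → ℤ := fun j => y j + m * (s * (u' j * x k + e j * X)) with hy1d
  -- step 2
  let t : Fin g → ℤ := fun j => -(s * v' j)
  have htk : t k = 0 := by
    show -(s * v' k) = 0
    rw [hv'k]
    ring
  have ht0 : ∀ a : Fin g, k < a → t a = 0 := fun a ha => by
    show -(s * v' a) = 0
    rw [hv'0 a ha]
    ring
  have h2 := reach_T (m := m) t htk ht0 x y1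
  refine (h1.trans h2).trans (reach_mid _ _ ?_ ?_ ?_ ?_ ?_)
  · intro j hj
    refine ⟨?_, ?_⟩
    · show x j + m * t j * x k = 0
      rw [(h0 j hj).1, ht0 j hj]
      ring
    · show y j + m * (s * (u' j * x k + e j * X)) - e j * (m * ∑ i, t i * y1 i) = 0
      rw [(h0 j hj).2, hu'0 j hj, he0 j hj]
      ring
  · show m ∣ x k + m * t k * x k - 1
    rw [htk]
    simpa using hx
  · intro j hj
    show m ∣ x j + m * t j * x k
    exact dvd_add (hxj j hj) (Dvd.intro _ (by ring : m * (t j * x k) = m * t j * x k))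
  · intro j
    show m ∣ y j + m * (s * (u' j * x k + e j * X)) - e j * (m * ∑ i, t i * y1 i)
    exact dvd_sub (dvd_add (hy j) (dvd_mul_right _ _)) ((dvd_mul_right _ _).mul_left _)
  · show IsCoprime (x k + m * t k * x k)
      (y k + m * (s * (u' k * x k + e k * X)) - e k * (m * ∑ i, t i * y1 i))
    have h3 : ∑ i, t i * y1 i = -(s * ∑ i, v' i * y i) - m * s * s * (∑ i, v' i * u' i) * x k := by
      have h4 : ∀ i, t i * y1 i = -s * (v' i * y i) + -(m * s * s * x k) * (v' i * u' i) := by
        intro i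
        have h5 : v' i * e i = 0 := by
          by_cases hi : i = k
          · subst hi
            rw [hv'k, zero_mul]
          · rw [he, Pi.single_eq_of_ne hi, mul_zero]
        show -(s * v' i) * (y i + m * (s * (u' i * x k + e i * X))) = _
        linear_combination (-(s * m * s * X)) * h5
      rw [Finset.sum_congr rfl fun i _ => h4 i, Finset.sum_add_distrib, ← Finset.mul_sum,
        ← Finset.mul_sum]
      ring
    have h6 : U = X + ∑ i, v' i * y i := by
      rw [hU, hX, ← Finset.sum_add_distrib]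
    have h7 : y k + m * (s * (u' k * x k + e k * X)) - e k * (m * ∑ i, t i * y1 i) =
        (y k + s * (m * U)) + (m * m * s * s * (∑ i, v' i * u' i)) * x k := by
      rw [h3, hu'k, hek, h6]
      ring
    have h8 : x k + m * t k * x k = x k := by
      rw [htk]
      ring
    rw [h7, h8]
    exact IsCoprime.add_mul_right_right hs _

end Pool.Agent.TH933.SPC
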