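import Pool.Agent.TH933.SPC.Stm

/-! # SP-3 COL: reduction of a unimodular vector at level `m` -/

set_option autoImplicit false

open Matrix

namespace Pool.Agent.TH933.SPC

open Pool.Agent.TH610.CSP

namespace COLb

/-! ## Arithmetic -/

theorem cop (a r n : ℤ) (hn : n ≠ 0)
    (h : ∀ p : ℤ, Prime p → p ∣ n → p ∣ r → p ∣ a → False) :
    ∃ t : ℤ, IsCoprime (a + t * r) n := by
  classical
  set S : Finset ℕ := n.natAbs.primeFactors.filter (fun p => ¬ (p : ℤ) ∣ a) with hS
  refine ⟨∏ p ∈ S, (p : ℤ), ?_⟩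
  refine isCoprime_of_prime_dvd (fun h => hn h.2) ?_
  intro q hq hq1 hq2
  have hqn : q.natAbs.Prime := Int.prime_iff_natAbs_prime.1 hq
  have key : ∀ w : ℤ, q ∣ w ↔ ((q.natAbs : ℕ) : ℤ) ∣ w := by
    intro w
    rw [Int.natCast_natAbs, abs_dvd]
  have hmem : q.natAbs ∈ n.natAbs.primeFactors := by
    rw [Nat.mem_primeFactors]
    exact ⟨hqn, Int.natAbs_dvd_natAbs.2 hq2, by simpa using hn⟩
  by_cases ha : q ∣ a
  · have h1 : q ∣ (∏ p ∈ S, (p : ℤ)) * r := (dvd_add_right ha).1 hq1
    rcases hq.dvd_or_dvd h1 with h2 | h2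
    · rw [Prime.dvd_finsetProd_iff hq] at h2
      obtain ⟨p, hp, hqp⟩ := h2
      rw [hS, Finset.mem_filter] at hp
      have hpp : p.Prime := Nat.prime_of_mem_primeFactors hp.1
      have h3 : q.natAbs = p := by
        have : q.natAbs ∣ p := by
          have := Int.natAbs_dvd_natAbs.2 hqp
          simpa using this
        exact (Nat.prime_dvd_prime_iff_eq hqn hpp).1 this
      apply hp.2
      rw [← h3, ← key]
      exact ha
    · exact h q hq hq2 h2 ha
  · have h1 : q.natAbs ∈ S := by
      rw [hS, Finset.mem_filter]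
      exact ⟨hmem, fun h => ha ((key a).2 h)⟩
    have h2 : q ∣ ∏ p ∈ S, (p : ℤ) := by
      rw [key]
      exact Finset.dvd_prod_of_mem (fun p : ℕ => (p : ℤ)) h1
    exact ha ((dvd_add_left (h2.mul_right r)).1 hq1)

variable {g : ℕ}

/-- greatest common divisors of families -/
theorem bez (u : Fin g → ℤ) : ∃ (d : ℤ) (c : Fin g → ℤ), ∑ j, c j * u j = d ∧ ∀ j, d ∣ u j := by
  obtain ⟨d, hd⟩ := (IsPrincipalIdealRing.principal (Ideal.span (Set.range u))).principal
  have h1 : d ∈ Ideal.span (Set.range u) := by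
    rw [hd]
    exact Submodule.mem_span_singleton_self d
  obtain ⟨c, hc⟩ := (Submodule.mem_span_range_iff_exists_fun ℤ).1 h1
  refine ⟨d, c, ?_, fun j => ?_⟩
  · rw [← hc]
    exact Finset.sum_congr rfl fun j _ => by rw [smul_eq_mul]
  · have h2 : u j ∈ Ideal.span (Set.range u) := Ideal.subset_span ⟨j, rfl⟩
    rw [hd] at h2
    exact Ideal.mem_span_singleton.1 h2

/-! ## Reachable vectors -/

theorem blk_mul {K : ℕ} {A B : GG g} (hA : BlkG K A) (hB : BlkG K B) : BlkG K (A * B) := by
  intro i j h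
  rw [Units.val_mul, Matrix.mul_apply]
  rcases h with h | h
  · have h1 : ∀ l, (A : MG g) i l = (1 : MG g) i l := fun l => hA i l (Or.inl h)
    simp only [h1]
    rw [← Matrix.mul_apply, one_mul]
    exact hB i j (Or.inl h)
  · have h1 : ∀ l, (B : MG g) l j = (1 : MG g) l j := fun l => hB l j (Or.inr h)
    simp only [h1]
    rw [← Matrix.mul_apply, mul_one]
    exact hA i j (Or.inr h)

/-- `(x', y')` is reached from `(x, y)` -/
def Rch (k : Fin g) (m : ℤ) (x y x' y' : Fin g → ℤ) : Prop :=
  ∃ B ∈ ELm g m, BlkG ((k : ℕ) + 1) B ∧ (B : MG g).mulVec (Sum.elim x y) = Sum.elim x' y'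

theorem Rch.trans {k : Fin g} {m : ℤ} {x y x' y' x'' y'' : Fin g → ℤ} (h1 : Rch k m x y x' y')
    (h2 : Rch k m x' y' x'' y'') : Rch k m x y x'' y'' := by
  obtain ⟨B, hB, b1, b2⟩ := h1
  obtain ⟨C, hC, c1, c2⟩ := h2
  refine ⟨C * B, mul_mem hC hB, blk_mul c1 b1, ?_⟩
  rw [Units.val_mul, ← Matrix.mulVec_mulVec, b2, c2]

/-- a criterion for block matrices -/
theorem blk_of {K : ℕ} {A : GG g} (P Q R T : Matrix (Fin g) (Fin g) ℤ)
    (hA : (A : MG g) = fromBlocks P Q R T)
    (hP : ∀ i j : Fin g, (K ≤ i.val ∨ K ≤ j.val) → P i j = (1 : Matrix (Fin g) (Fin g) ℤ) i j)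
    (hQ : ∀ i j : Fin g, (K ≤ i.val ∨ K ≤ j.val) → Q i j = 0)
    (hR : ∀ i j : Fin g, (K ≤ i.val ∨ K ≤ j.val) → R i j = 0)
    (hT : ∀ i j : Fin g, (K ≤ i.val ∨ K ≤ j.val) → T i j = (1 : Matrix (Fin g) (Fin g) ℤ) i j) :
    BlkG K A := by
  intro i j h
  rw [hA, ← fromBlocks_one]
  rcases i with i | i <;> rcases j with j | j
  · exact hP i j h
  · exact hQ i j h
  · exact hR i j h
  · exact hT i j h

/-! ### lower triangular matrices -/

/-- a symmetric matrix supported on the row and the column `k` -/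
def Sm (k : Fin g) (s : Fin g → ℤ) : Matrix (Fin g) (Fin g) ℤ :=
  fun i j => if i = k then s j else if j = k then s i else 0

theorem Sm_symm (k : Fin g) (s : Fin g → ℤ) : (Sm k s)ᵀ = Sm k s := by
  ext i j
  show Sm k s j i = Sm k s i j
  unfold Sm
  by_cases h1 : i = k
  · by_cases h2 : j = k
    · rw [h1, h2]
    · rw [if_neg h2, if_pos h1, if_pos h1]
  · by_cases h2 : j = k
    · rw [if_pos h2, if_neg h1, if_pos h2]
    · rw [if_neg h2, if_neg h1, if_neg h1, if_neg h2]

/-- `(1 0; S 1)` -/
def uL (S : Matrix (Fin g) (Fin g) ℤ) : GG g where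
  val := fromBlocks 1 0 S 1
  inv := fromBlocks 1 0 (-S) 1
  val_inv := by
    rw [fromBlocks_multiply, ← fromBlocks_one]
    simp
  inv_val := by
    rw [fromBlocks_multiply, ← fromBlocks_one]
    simp

theorem opL (k : Fin g) (m : ℤ) (x y s : Fin g → ℤ) (hs : ∀ j, k < j → s j = 0) :
    Rch k m x y x
      (fun i => if i = k then y k + m * ∑ j, s j * x j else y i + m * (s i * x k)) := by
  refine ⟨uL (m • Sm k s), Subgroup.subset_closure (Or.inr (Or.inl ⟨Sm k s, Sm_symm k s, rfl⟩)),
    ?_, ?_⟩
  · refine blk_of 1 0 (m • Sm k s) 1 rfl (fun _ _ _ => rfl) (fun _ _ _ => rfl) ?_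
      (fun _ _ _ => rfl)
    intro i j h
    rw [Matrix.smul_apply]
    have h0 : Sm k s i j = 0 := by
      unfold Sm
      rcases h with h | h
      · have h1 : k < i := by
          rw [Fin.lt_def]
          omega
        rw [if_neg h1.ne']
        split_ifs
        · exact hs i h1
        · rfl
      · have h1 : k < j := by
          rw [Fin.lt_def]
          omega
        rw [if_neg h1.ne']
        split_ifs
        · exact hs j h1
        · rfl
    rw [h0, smul_zero]
  · show (fromBlocks 1 0 (m • Sm k s) 1 : MG g).mulVec (Sum.elim x y) = _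
    rw [fromBlocks_mulVec]
    congr 1
    · rw [Matrix.one_mulVec, Matrix.zero_mulVec, add_zero]
      rfl
    · rw [Matrix.one_mulVec]
      funext i
      rw [Pi.add_apply, Matrix.smul_mulVec, Pi.smul_apply, smul_eq_mul]
      show m * (∑ j, Sm k s i j * x j) + y i = _
      unfold Sm
      by_cases h1 : i = k
      · simp only [if_pos h1]
        rw [h1]
        ring
      · simp only [if_neg h1]
        have h2 : ∀ j, (if j = k then s i else 0) * x j = if j = k then s i * x j else 0 := by
          intro j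
          split_ifs
          · rfl
          · rw [zero_mul]
        simp only [h2, Finset.sum_ite_eq', Finset.mem_univ, if_true]
        ring

/-! ### diagonal blocks -/

/-- the matrix `1 + ∑ t_j E_jk` -/
def Tm (k : Fin g) (t : Fin g → ℤ) : Matrix (Fin g) (Fin g) ℤ :=
  fun i j => (1 : Matrix (Fin g) (Fin g) ℤ) i j + if j = k then t i else 0

theorem Tm_det (k : Fin g) (t : Fin g → ℤ) (ht : t k = 0) : (Tm k t).det = 1 := by
  have h : Tm k t = 1 + replicateCol Unit t * replicateRow Unit (Pi.single k (1 : ℤ)) := by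
    ext i j
    rw [Matrix.add_apply, Matrix.mul_apply]
    unfold Tm
    congr 1
    simp only [Finset.univ_unique, Finset.sum_singleton, replicateCol_apply, replicateRow_apply,
      Pi.single_apply]
    split_ifs <;> simp
  rw [h, det_one_add_replicateCol_mul_replicateRow]
  simp [ht]

theorem Tm_mul (k : Fin g) (t u : Fin g → ℤ) (ht : u k = 0) :
    Tm k t * Tm k u = Tm k (t + u) := by
  ext i j
  rw [Matrix.mul_apply]
  unfold Tm
  simp only [add_mul, mul_add, Finset.sum_add_distrib, Pi.add_apply]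
  have e1 : ∑ l, (1 : Matrix (Fin g) (Fin g) ℤ) i l * (1 : Matrix (Fin g) (Fin g) ℤ) l j =
      (1 : Matrix (Fin g) (Fin g) ℤ) i j := by
    rw [← Matrix.mul_apply, one_mul]
  have e2 : ∑ l, (1 : Matrix (Fin g) (Fin g) ℤ) i l * (if j = k then u l else 0) =
      if j = k then u i else 0 := by
    simp [Matrix.one_apply]
  have e3 : ∑ l, (if l = k then t i else 0) * (1 : Matrix (Fin g) (Fin g) ℤ) l j =
      if j = k then t i else 0 := by
    by_cases h : j = k
    · simp [Matrix.one_apply, h]
    · simp [Matrix.one_apply, h]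
  have e4 : ∑ l, (if l = k then t i else 0) * (if j = k then u l else 0) = 0 := by
    by_cases h : j = k
    · simp [h, ht]
    · simp [h]
  rw [e1, e2, e3, e4]
  split_ifs <;> ring

/-- the matrix in `SL_g(ℤ)` -/
def TS (k : Fin g) (t : Fin g → ℤ) (ht : t k = 0) : SLn g := ⟨Tm k t, Tm_det k t ht⟩

theorem Tm_zero (k : Fin g) : Tm k (0 : Fin g → ℤ) = 1 := by
  ext i j
  unfold Tm
  simp

theorem TS_inv (k : Fin g) (t : Fin g → ℤ) (ht : t k = 0) :
    (TS k t ht)⁻¹ = TS k (-t) (by simp [ht]) := by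
  apply inv_eq_of_mul_eq_one_right
  apply Subtype.ext
  show Tm k t * Tm k (-t) = 1
  rw [Tm_mul k t (-t) (by simp [ht]), add_neg_cancel, Tm_zero]

/-- `(T 0; 0 T⁻ᵀ)` -/
def uD (T : SLn g) : GG g where
  val := fromBlocks T.1 0 0 ((T⁻¹).1)ᵀ
  inv := fromBlocks (T⁻¹).1 0 0 (T.1)ᵀ
  val_inv := by
    have h1 : T.1 * (T⁻¹).1 = 1 := congrArg Subtype.val (mul_inv_cancel T)
    rw [fromBlocks_multiply, ← fromBlocks_one, ← Matrix.transpose_mul, h1]
    simp
  inv_val := by
    have h1 : (T⁻¹).1 * T.1 = 1 := congrArg Subtype.val (inv_mul_cancel T)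
    rw [fromBlocks_multiply, ← fromBlocks_one, ← Matrix.transpose_mul, h1]
    simp

theorem opD (k : Fin g) (m : ℤ) (x y t : Fin g → ℤ) (ht : t k = 0) (hs : ∀ j, k < j → t j = 0) :
    Rch k m x y (fun i => x i + m * (t i * x k))
      (fun i => if i = k then y k - m * ∑ j, t j * y j else y i) := by
  have ht' : (m • t) k = 0 := by rw [Pi.smul_apply, ht, smul_zero]
  have hblk : ∀ (u : Fin g → ℤ), (∀ j, k < j → u j = 0) → ∀ i j : Fin g,
      ((k : ℕ) + 1 ≤ i.val ∨ (k : ℕ) + 1 ≤ j.val) →
      Tm k u i j = (1 : Matrix (Fin g) (Fin g) ℤ) i j := by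
    intro u hu i j h
    unfold Tm
    have h0 : (if j = k then u i else 0) = 0 := by
      rcases h with h | h
      · have h1 : k < i := by
          rw [Fin.lt_def]
          omega
        rw [hu i h1, ite_self]
      · have h1 : k < j := by
          rw [Fin.lt_def]
          omega
        rw [if_neg h1.ne']
    rw [h0, add_zero]
  have hinv : ((TS k (m • t) ht')⁻¹).1 = Tm k (-(m • t)) := by
    rw [TS_inv]
    rfl
  refine ⟨uD (TS k (m • t) ht'), Subgroup.subset_closure (Or.inr (Or.inr (Or.inl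
    ⟨TS k (m • t) ht', ?_, rfl⟩))), ?_, ?_⟩
  · intro i j
    show m ∣ Tm k (m • t) i j - (1 : Matrix (Fin g) (Fin g) ℤ) i j
    unfold Tm
    rw [add_sub_cancel_left]
    split_ifs
    · rw [Pi.smul_apply, smul_eq_mul]
      exact dvd_mul_right _ _
    · exact dvd_zero _
  · refine blk_of (Tm k (m • t)) 0 0 ((TS k (m • t) ht')⁻¹).1ᵀ rfl ?_ (fun _ _ _ => rfl)
      (fun _ _ _ => rfl) ?_
    · exact hblk _ (fun j hj => by rw [Pi.smul_apply, hs j hj, smul_zero])
    · intro i j h
      rw [hinv, Matrix.transpose_apply, hblk _ (fun j hj => by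
        rw [Pi.neg_apply, Pi.smul_apply, hs j hj, smul_zero, neg_zero]) j i h.symm]
      rw [Matrix.one_apply, Matrix.one_apply]
      simp only [eq_comm]
  · show (fromBlocks (Tm k (m • t)) 0 0 ((TS k (m • t) ht')⁻¹).1ᵀ : MG g).mulVec
      (Sum.elim x y) = _
    rw [fromBlocks_mulVec, hinv]
    congr 1
    · rw [Matrix.zero_mulVec, add_zero]
      funext i
      show ∑ j, Tm k (m • t) i j * x j = _
      unfold Tm
      simp only [add_mul, Finset.sum_add_distrib]
      have e1 : ∑ j, (1 : Matrix (Fin g) (Fin g) ℤ) i j * x j = x i := by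
        simp [Matrix.one_apply]
      have e2 : ∑ j, (if j = k then (m • t) i else 0) * x j = m * (t i * x k) := by
        simp [mul_assoc]
      rw [e1, e2]
    · rw [Matrix.zero_mulVec, zero_add]
      funext i
      show ∑ j, Tm k (-(m • t)) j i * y j = _
      unfold Tm
      simp only [add_mul, Finset.sum_add_distrib]
      have e1 : ∑ j, (1 : Matrix (Fin g) (Fin g) ℤ) j i * y j = y i := by
        simp [Matrix.one_apply]
      rw [e1]
      by_cases h : i = k
      · rw [if_pos h]
        simp only [if_pos h]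
        rw [h, Finset.mul_sum, sub_eq_add_neg, ← Finset.sum_neg_distrib]
        congr 1
        refine Finset.sum_congr rfl fun j _ => ?_
        rw [Pi.neg_apply, Pi.smul_apply, smul_eq_mul]
        ring
      · rw [if_neg h]
        simp only [if_neg h]
        simp

/-! ### the plane `k` -/

/-- `(a b; c d)` in the plane `k` -/
def pl (k : Fin g) (a b c d : ℤ) : MG g :=
  fromBlocks (1 + Matrix.single k k (a - 1)) (Matrix.single k k b)
    (Matrix.single k k c) (1 + Matrix.single k k (d - 1))

theorem pl_mul (k : Fin g) (a b c d a' b' c' d' : ℤ) : pl k a b c d * pl k a' b' c' d' =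
    pl k (a * a' + b * c') (a * b' + b * d') (c * a' + d * c') (c * b' + d * d') := by
  unfold pl
  rw [fromBlocks_multiply]
  congr 1
  all_goals
    simp only [add_mul, mul_add, one_mul, mul_one, Matrix.single_mul_single_same]
    ext i j
    simp only [Matrix.add_apply, Matrix.single_apply]
    by_cases h : k = i ∧ k = j
    · simp only [if_pos h]
      ring
    · simp only [if_neg h]
      ring

theorem pl_one (k : Fin g) : pl k 1 0 0 1 = 1 := by
  unfold pl
  rw [← fromBlocks_one]
  simp

/-- the unit -/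
def uP (k : Fin g) (a b c d : ℤ) (h : a * d - b * c = 1) : GG g where
  val := pl k a b c d
  inv := pl k d (-b) (-c) a
  val_inv := by
    rw [pl_mul, ← pl_one k]
    congr 1
    · linear_combination h
    · ring
    · ring
    · linear_combination h
  inv_val := by
    rw [pl_mul, ← pl_one k]
    congr 1
    · linear_combination h
    · ring
    · ring
    · linear_combination h

theorem single_mv (k : Fin g) (c : ℤ) (x : Fin g → ℤ) :
    (Matrix.single k k c).mulVec x = fun i => if i = k then c * x k else 0 := by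
  funext i
  show ∑ j, Matrix.single k k c i j * x j = _
  simp only [Matrix.single_apply]
  by_cases h : i = k
  · subst h
    simp
  · rw [if_neg h]
    refine Finset.sum_eq_zero fun j _ => ?_
    rw [if_neg (fun h1 => h h1.1.symm), zero_mul]

theorem opP (k : Fin g) (m : ℤ) (x y : Fin g → ℤ) (a b c d : ℤ) (h : a * d - b * c = 1)
    (ha : m ∣ a - 1) (hb : m ∣ b) (hc : m ∣ c) (hd : m ∣ d - 1) :
    Rch k m x y (fun i => if i = k then a * x k + b * y k else x i)
      (fun i => if i = k then c * x k + d * y k else y i) := by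
  have hk0 : ∀ (e : ℤ) (i j : Fin g), ((k : ℕ) + 1 ≤ i.val ∨ (k : ℕ) + 1 ≤ j.val) →
      Matrix.single k k e i j = 0 := by
    intro e i j h
    rw [Matrix.single_apply, if_neg]
    rintro ⟨rfl, h2⟩
    rw [← h2] at h
    omega
  refine ⟨uP k a b c d h, Subgroup.subset_closure (Or.inr (Or.inr (Or.inr
    ⟨k, a, b, c, d, ha, hb, hc, hd, h, rfl⟩))), ?_, ?_⟩
  · refine blk_of (1 + Matrix.single k k (a - 1)) (Matrix.single k k b)
      (Matrix.single k k c) (1 + Matrix.single k k (d - 1)) rfl ?_ (hk0 b) (hk0 c) ?_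
    · intro i j h
      rw [Matrix.add_apply, hk0 _ i j h, add_zero]
    · intro i j h
      rw [Matrix.add_apply, hk0 _ i j h, add_zero]
  · show (pl k a b c d).mulVec (Sum.elim x y) = _
    unfold pl
    rw [fromBlocks_mulVec]
    simp only [Sum.elim_comp_inl, Sum.elim_comp_inr, Matrix.add_mulVec, Matrix.one_mulVec,
      single_mv]
    congr 1
    · funext i
      simp only [Pi.add_apply]
      by_cases h1 : i = k
      · simp only [if_pos h1]
        rw [h1]
        ring
      · simp only [if_neg h1]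
        ring
    · funext i
      simp only [Pi.add_apply]
      by_cases h1 : i = k
      · simp only [if_pos h1]
        rw [h1]
        ring
      · simp only [if_neg h1]
        ring

end COLb

open COLb in
/-- **SP-3** -/
theorem t_col : StCOL := by
  intro g k m hm x y hz hxk hx hy huv
  obtain ⟨u, v, huv⟩ := huv
  have hm0 : m ≠ 0 := by omega
  have hxk0 : x k ≠ 0 := by
    intro h
    rw [h, zero_sub, dvd_neg] at hxk
    have := Int.le_of_dvd one_pos hxk
    omega
  have hpm : ∀ p : ℤ, Prime p → p ∣ x k → ¬ p ∣ m := by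
    intro p hp h1 h2
    apply hp.not_dvd_one
    have h3 : p ∣ x k - 1 := h2.trans hxk
    have h4 := dvd_sub h1 h3
    rwa [sub_sub_cancel] at h4
  -- step 1
  obtain ⟨n, c, hn1, hn2⟩ := bez (fun j => if j < k then y j else if j = k then x k else 0)
  have hnk : n ∣ x k := by
    have h1 := hn2 k
    simp only [lt_irrefl, if_false, if_true] at h1
    exact h1
  have hn0 : n ≠ 0 := fun h => hxk0 (zero_dvd_iff.1 (h ▸ hnk))
  have hny : ∀ j, j < k → n ∣ y j := by
    intro j hj
    have h1 := hn2 j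
    simp only [if_pos hj] at h1
    exact h1
  obtain ⟨e, c1, he1, he2⟩ := bez (fun j => if j < k then x j else 0)
  have hex : ∀ j, j < k → e ∣ x j := by
    intro j hj
    have h1 := he2 j
    simp only [if_pos hj] at h1
    exact h1
  obtain ⟨s, hs⟩ := cop (y k) (m * e) n hn0 (by
    intro p hp h1 h2 h3
    have h4 : p ∣ x k := h1.trans hnk
    rcases hp.dvd_or_dvd h2 with h5 | h5
    · exact hpm p hp h4 h5
    · apply hp.not_dvd_one
      rw [← huv]
      refine Finset.dvd_sum fun j _ => ?_
      rcases lt_trichotomy j k with hj | hj | hj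
      · exact dvd_add ((h5.trans (hex j hj)).mul_left _) ((h1.trans (hny j hj)).mul_left _)
      · subst hj
        exact dvd_add (h4.mul_left _) (h3.mul_left _)
      · rw [(hz j hj).1, (hz j hj).2, mul_zero, mul_zero, add_zero]
        exact dvd_zero _)
  set s1 : Fin g → ℤ := fun j => if j < k then s * c1 j else 0 with hs1
  have r1 := opL k m x y s1 (fun j hj => if_neg hj.not_gt)
  set y1 : Fin g → ℤ := fun i => if i = k then y k + m * ∑ j, s1 j * x j else
    y i + m * (s1 i * x k) with hy1
  have hsum1 : ∑ j, s1 j * x j = s * e := by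
    rw [← he1, Finset.mul_sum]
    refine Finset.sum_congr rfl fun j _ => ?_
    rw [hs1]
    simp only
    split_ifs <;> ring
  have hy1k : y1 k = y k + s * (m * e) := by
    rw [hy1]
    simp only [if_true]
    rw [hsum1]
    ring
  have hy1j : ∀ j, j ≠ k → y1 j = y j + m * (s1 j * x k) := fun j hj => if_neg hj
  rw [← hy1k] at hs
  have key1 : ∀ p : ℤ, Prime p → p ∣ x k → (∀ j, j < k → p ∣ y1 j) → p ∣ y1 k → False := by
    intro p hp h1 h2 h3
    have h4 : p ∣ n := by
      rw [← hn1]
      refine Finset.dvd_sum fun j _ => ?_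
      apply Dvd.dvd.mul_left
      split_ifs with h5 h6
      · have h6 := h2 j h5
        rw [hy1j j h5.ne] at h6
        exact (dvd_add_left ((h1.mul_left _).mul_left _)).1 h6
      · exact h1
      · exact dvd_zero _
    exact hp.not_isUnit (hs.isUnit_of_dvd' h3 h4)
  -- step 2
  obtain ⟨f, c2, hf1, hf2⟩ := bez (fun j => if j < k then y1 j else 0)
  obtain ⟨t, ht⟩ := cop (y1 k) (m * f) (x k) hxk0 (by
    intro p hp h1 h2 h3
    rcases hp.dvd_or_dvd h2 with h5 | h5
    · exact hpm p hp h1 h5
    · refine key1 p hp h1 (fun j hj => h5.trans ?_) h3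
      have h6 := hf2 j
      simp only [if_pos hj] at h6
      exact h6)
  set t1 : Fin g → ℤ := fun j => if j < k then -(t * c2 j) else 0 with ht1
  have ht1k : t1 k = 0 := if_neg (lt_irrefl k)
  have r2 := opD k m x y1 t1 ht1k (fun j hj => if_neg hj.not_gt)
  set x2 : Fin g → ℤ := fun i => x i + m * (t1 i * x k) with hx2
  set y2 : Fin g → ℤ := fun i => if i = k then y1 k - m * ∑ j, t1 j * y1 j else y1 i with hy2
  have hsum2 : ∑ j, t1 j * y1 j = -(t * f) := by
    rw [← hf1, Finset.mul_sum, ← Finset.sum_neg_distrib]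
    refine Finset.sum_congr rfl fun j _ => ?_
    rw [ht1]
    simp only
    split_ifs <;> ring
  have hy2k : y2 k = y1 k + t * (m * f) := by
    rw [hy2]
    simp only [if_true]
    rw [hsum2]
    ring
  have hx2k : x2 k = x k := by
    show x k + m * (t1 k * x k) = x k
    rw [ht1k]
    ring
  rw [← hy2k] at ht
  have hmy1 : ∀ j, m ∣ y1 j := by
    intro j
    by_cases hj : j = k
    · rw [hj, hy1k]
      exact dvd_add (hy k) ((dvd_mul_right m e).mul_left s)
    · rw [hy1j j hj]
      exact dvd_add (hy j) (dvd_mul_right _ _)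
  have hmy2 : ∀ j, m ∣ y2 j := by
    intro j
    by_cases hj : j = k
    · rw [hj, hy2k]
      exact dvd_add (hmy1 k) ((dvd_mul_right m f).mul_left t)
    · have : y2 j = y1 j := if_neg hj
      rw [this]
      exact hmy1 j
  -- step 3
  have hcm : IsCoprime (x k) m := by
    obtain ⟨q, hq⟩ := hxk
    exact ⟨1, -q, by linear_combination hq⟩
  obtain ⟨α, β, hab⟩ := hcm.mul_right ht.symm
  have hα : m ∣ α - 1 := by
    obtain ⟨q, hq⟩ := hxk
    exact ⟨-(α * q) - β * y2 k, by linear_combination -α * hq + hab⟩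
  have r3 := opP k m x2 y2 α (m * β) (-(y2 k)) (x k) (by linear_combination hab) hα
    (dvd_mul_right _ _) ((hmy2 k).neg_right) hxk
  set x3 : Fin g → ℤ := fun i => if i = k then α * x2 k + m * β * y2 k else x2 i with hx3
  set y3 : Fin g → ℤ := fun i => if i = k then -(y2 k) * x2 k + x k * y2 k else y2 i with hy3
  have hx3k : x3 k = 1 := by
    show (if k = k then α * x2 k + m * β * y2 k else x2 k) = 1
    rw [if_pos rfl, hx2k]
    linear_combination hab
  have hmy3 : ∀ j, m ∣ y3 j := by
    intro j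
    by_cases hj : j = k
    · have : y3 j = -(y2 k) * x2 k + x k * y2 k := if_pos hj
      rw [this]
      exact dvd_add ((hmy2 k).neg_right.mul_right _) ((hmy2 k).mul_left _)
    · have : y3 j = y2 j := if_neg hj
      rw [this]
      exact hmy2 j
  have hmx3 : ∀ j, j ≠ k → m ∣ x3 j := by
    intro j hj
    have : x3 j = x j + m * (t1 j * x k) := if_neg hj
    rw [this]
    exact dvd_add (hx j hj) (dvd_mul_right _ _)
  have hx3z : ∀ j, k < j → x3 j = 0 := by
    intro j hj
    have h1 : x3 j = x j + m * (t1 j * x k) := if_neg hj.ne'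
    have h2 : t1 j = 0 := if_neg hj.not_gt
    rw [h1, h2, (hz j hj).1]
    ring
  have hy3z : ∀ j, k < j → y3 j = 0 := by
    intro j hj
    have h1 : y3 j = y2 j := if_neg hj.ne'
    have h2 : y2 j = y1 j := if_neg hj.ne'
    have h3 : s1 j = 0 := if_neg hj.not_gt
    rw [h1, h2, hy1j j hj.ne', h3, (hz j hj).2]
    ring
  -- step 4
  have hr : ∀ j, ∃ r : ℤ, j ≠ k → x3 j = m * r := by
    intro j
    by_cases hj : j = k
    · exact ⟨0, fun h => absurd hj h⟩
    · obtain ⟨r, hr⟩ := hmx3 j hj
      exact ⟨r, fun _ => hr⟩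
  choose r hr using hr
  set t4 : Fin g → ℤ := fun j => if j < k then -(r j) else 0 with ht4
  have ht4k : t4 k = 0 := if_neg (lt_irrefl k)
  have r4 := opD k m x3 y3 t4 ht4k (fun j hj => if_neg hj.not_gt)
  set x4 : Fin g → ℤ := fun i => x3 i + m * (t4 i * x3 k) with hx4
  set y4 : Fin g → ℤ := fun i => if i = k then y3 k - m * ∑ j, t4 j * y3 j else y3 i with hy4
  have hx4v : ∀ j, x4 j = if j = k then 1 else 0 := by
    intro j
    show x3 j + m * (t4 j * x3 k) = _
    rcases lt_trichotomy j k with hj | hj | hj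
    · have h2 : t4 j = -(r j) := if_pos hj
      rw [if_neg hj.ne, h2, hx3k, hr j hj.ne]
      ring
    · rw [if_pos hj, hj, ht4k, hx3k]
      ring
    · have h2 : t4 j = 0 := if_neg hj.not_gt
      rw [if_neg hj.ne', h2, hx3z j hj]
      ring
  have hmy4 : ∀ j, m ∣ y4 j := by
    intro j
    by_cases hj : j = k
    · have : y4 j = y3 k - m * ∑ j, t4 j * y3 j := if_pos hj
      rw [this]
      exact dvd_sub (hmy3 k) (dvd_mul_right _ _)
    · have : y4 j = y3 j := if_neg hj
      rw [this]
      exact hmy3 j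
  -- step 5
  choose q hq using hmy4
  have r5 := opL k m x4 y4 (fun j => -(q j)) (by
    intro j hj
    have h1 : y4 j = y3 j := if_neg hj.ne'
    have h2 : m * q j = 0 := by rw [← hq j, h1, hy3z j hj]
    rcases mul_eq_zero.1 h2 with h3 | h3
    · exact absurd h3 hm0
    · rw [h3, neg_zero])
  obtain ⟨B, hB1, hB2, hB3⟩ := r1.trans (r2.trans (r3.trans (r4.trans r5)))
  refine ⟨B, hB1, hB2, fun j => ?_⟩
  rw [hB3]
  rcases j with j | j
  · show x4 j = _
    rw [hx4v]
    simp only [Sum.inl.injEq]
  · rw [if_neg (by simp)]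
    show (if j = k then y4 k + m * ∑ i, -(q i) * x4 i else y4 j + m * (-(q j) * x4 k)) = 0
    simp only [hx4v]
    by_cases hj : j = k
    · rw [if_pos hj]
      simp only [mul_ite, mul_one, mul_zero, Finset.sum_ite_eq', Finset.mem_univ, if_true]
      rw [hq k]
      ring
    · rw [if_neg hj, if_pos trivial, hq j]
      ring

end Pool.Agent.TH933.SPC
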