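import Pool.Agent.TH933.SPC.Stm

/-! # SP-5 EXP: powers and `SL_g(ℤ)` -/

set_option autoImplicit false

open Matrix

namespace Pool.Agent.TH933.SPC

open Pool.Agent.TH610.CSP

namespace EXPx

variable {g : ℕ}

/-- `(1 S; 0 1)` as a homomorphism -/
def uU (g : ℕ) : Multiplicative (Matrix (Fin g) (Fin g) ℤ) →* GG g :=
  MonoidHom.toHomUnits
    { toFun := fun S => fromBlocks 1 (Multiplicative.toAdd S) 0 1
      map_one' := by
        rw [toAdd_one, fromBlocks_one]
      map_mul' := fun S T => by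
        rw [fromBlocks_multiply, toAdd_mul]
        simp [add_comm] }

/-- `(1 0; S 1)` as a homomorphism -/
def uL (g : ℕ) : Multiplicative (Matrix (Fin g) (Fin g) ℤ) →* GG g :=
  MonoidHom.toHomUnits
    { toFun := fun S => fromBlocks 1 0 (Multiplicative.toAdd S) 1
      map_one' := by
        rw [toAdd_one, fromBlocks_one]
      map_mul' := fun S T => by
        rw [fromBlocks_multiply, toAdd_mul]
        simp }

/-- `(T 0; 0 T⁻ᵀ)` as a homomorphism -/
def uD (g : ℕ) : SLn g →* GG g :=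
  MonoidHom.toHomUnits
    { toFun := fun T => fromBlocks T.1 0 0 ((T⁻¹).1)ᵀ
      map_one' := by
        simp
      map_mul' := fun S T => by
        rw [fromBlocks_multiply, _root_.mul_inv_rev]
        simp }

theorem uU_val (S : Matrix (Fin g) (Fin g) ℤ) :
    ((uU g (Multiplicative.ofAdd S) : GG g) : MG g) = fromBlocks 1 S 0 1 := rfl

theorem uL_val (S : Matrix (Fin g) (Fin g) ℤ) :
    ((uL g (Multiplicative.ofAdd S) : GG g) : MG g) = fromBlocks 1 0 S 1 := rfl

theorem uD_val (T : SLn g) : ((uD g T : GG g) : MG g) = fromBlocks T.1 0 0 ((T⁻¹).1)ᵀ := rfl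

theorem smul_eq (e M : ℕ) (S : Matrix (Fin g) (Fin g) ℤ) :
    Multiplicative.ofAdd (((4 * e * M : ℕ) : ℤ) • S) =
      (Multiplicative.ofAdd (((4 * M : ℕ) : ℤ) • S)) ^ e := by
  rw [← ofAdd_nsmul]
  congr 1
  rw [← Nat.cast_smul_eq_nsmul ℤ, smul_smul]
  congr 1
  push_cast; ring

end EXPx

open EXPx

theorem t_exp (h : Pool.Agent.TH610.CSP.StCSP) : StEXP := by
  intro g hg P hfin hnorm
  have hN : (P.subgroupOf (EL g)).Normal := by
    constructor
    intro n hn x
    rw [Subgroup.mem_subgroupOf] at hn ⊢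
    exact hnorm x.1 x.2 n.1 hn
  set e := (P.subgroupOf (EL g)).index with he
  have he0 : 0 < e := Nat.pos_of_ne_zero hfin.index_ne_zero
  have hpow : ∀ A ∈ EL g, A ^ e ∈ P := by
    intro A hA
    have h1 := (P.subgroupOf (EL g)).pow_index_mem ⟨A, hA⟩
    rw [Subgroup.mem_subgroupOf] at h1
    exact h1
  have hDEL : ∀ T : SLn g, uD g T ∈ EL g := fun T =>
    Subgroup.subset_closure (Or.inr (Or.inr ⟨T, rfl⟩))
  have hfin2 : (P.comap (uD g)).FiniteIndex := by
    have h1 : P.comap (uD g) = (P.subgroupOf (EL g)).comap ((uD g).codRestrict (EL g) hDEL) := by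
      ext T
      rfl
    rw [h1]
    constructor
    rw [Subgroup.index_comap]
    haveI := hfin
    exact (Subgroup.instFiniteIndex_subgroupOf (P.subgroupOf (EL g)) _).index_ne_zero
  obtain ⟨M, hM, hMP⟩ := h g hg _ hfin2
  refine ⟨4 * e * M, ?_, ?_, hnorm, ?_, ?_, ?_⟩
  · positivity
  · exact ⟨e * M, by ring⟩
  · intro S hS A hA
    have h1 : A = uU g (Multiplicative.ofAdd (((4 * e * M : ℕ) : ℤ) • S)) := Units.ext hA
    rw [h1, smul_eq, map_pow]
    apply hpow
    refine Subgroup.subset_closure (Or.inl ⟨((4 * M : ℕ) : ℤ) • S, ?_, rfl⟩)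
    rw [transpose_smul, hS]
  · intro S hS A hA
    have h1 : A = uL g (Multiplicative.ofAdd (((4 * e * M : ℕ) : ℤ) • S)) := Units.ext hA
    rw [h1, smul_eq, map_pow]
    apply hpow
    refine Subgroup.subset_closure (Or.inr (Or.inl ⟨((4 * M : ℕ) : ℤ) • S, ?_, rfl⟩))
    rw [transpose_smul, hS]
  · intro T hT A hA
    have h1 : A = uD g T := Units.ext hA
    rw [h1]
    refine hMP T fun i j => ?_
    refine dvd_trans ?_ (hT i j)
    exact_mod_cast Dvd.intro_left (4 * e) rfl

end Pool.Agent.TH933.SPC
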