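import Pool.Agent.TH933.SPC.Stm

/-! # Automorphisms of a surface group preserve the intersection form (MC-1 FORM) -/

set_option autoImplicit false

open Matrix

namespace Pool.Agent.TH933.SPC

namespace F335

variable {g : ℕ}

/-- the value of a bilinear form -/
def bf (B : MG g) (u v : Fin g ⊕ Fin g → ℤ) : ℤ := u ⬝ᵥ (B *ᵥ v)

theorem bf_add_left (B : MG g) (u u' v : Fin g ⊕ Fin g → ℤ) :
    bf B (u + u') v = bf B u v + bf B u' v := add_dotProduct _ _ _

theorem bf_add_right (B : MG g) (u v v' : Fin g ⊕ Fin g → ℤ) :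
    bf B u (v + v') = bf B u v + bf B u v' := by
  unfold bf; rw [Matrix.mulVec_add, dotProduct_add]

theorem bf_neg_left (B : MG g) (u v : Fin g ⊕ Fin g → ℤ) :
    bf B (-u) v = -bf B u v := neg_dotProduct _ _

theorem bf_neg_right (B : MG g) (u v : Fin g ⊕ Fin g → ℤ) :
    bf B u (-v) = -bf B u v := by
  unfold bf; rw [Matrix.mulVec_neg, dotProduct_neg]

theorem bf_zero_left (B : MG g) (v : Fin g ⊕ Fin g → ℤ) : bf B 0 v = 0 := zero_dotProduct _

theorem bf_zero_right (B : MG g) (v : Fin g ⊕ Fin g → ℤ) : bf B v 0 = 0 := by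
  unfold bf; rw [Matrix.mulVec_zero, dotProduct_zero]

/-- the Heisenberg group of a bilinear form -/
structure Hs (B : MG g) where
  v : Fin g ⊕ Fin g → ℤ
  s : ℤ

theorem Hs.ext' {B : MG g} {a b : Hs B} (h1 : a.v = b.v) (h2 : a.s = b.s) : a = b := by
  cases a; cases b; simp only at h1 h2; rw [h1, h2]

instance (B : MG g) : Mul (Hs B) := ⟨fun a b => ⟨a.v + b.v, a.s + b.s + bf B a.v b.v⟩⟩
instance (B : MG g) : One (Hs B) := ⟨⟨0, 0⟩⟩
instance (B : MG g) : Inv (Hs B) := ⟨fun a => ⟨-a.v, -a.s + bf B a.v a.v⟩⟩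

theorem mul_v {B : MG g} (a b : Hs B) : (a * b).v = a.v + b.v := rfl
theorem mul_s {B : MG g} (a b : Hs B) : (a * b).s = a.s + b.s + bf B a.v b.v := rfl
theorem one_v {B : MG g} : (1 : Hs B).v = 0 := rfl
theorem one_s {B : MG g} : (1 : Hs B).s = 0 := rfl
theorem inv_v {B : MG g} (a : Hs B) : (a⁻¹).v = -a.v := rfl
theorem inv_s {B : MG g} (a : Hs B) : (a⁻¹).s = -a.s + bf B a.v a.v := rfl

instance (B : MG g) : Group (Hs B) := Group.ofLeftAxioms
  (fun a b c => by
    apply Hs.ext'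
    · rw [mul_v, mul_v, mul_v, mul_v, add_assoc]
    · rw [mul_s, mul_s, mul_s, mul_s, mul_v, mul_v, bf_add_left, bf_add_right]; ring)
  (fun a => by
    apply Hs.ext'
    · rw [mul_v, one_v, zero_add]
    · rw [mul_s, one_s, one_v, bf_zero_left]; ring)
  (fun a => by
    apply Hs.ext'
    · rw [mul_v, inv_v, one_v, neg_add_cancel]
    · rw [mul_s, inv_s, inv_v, one_s, bf_neg_left]; ring)

/-- the first component -/
def toV (B : MG g) : Hs B →* Multiplicative (Fin g ⊕ Fin g → ℤ) where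
  toFun a := Multiplicative.ofAdd a.v
  map_one' := rfl
  map_mul' _ _ := rfl

/-- the centre -/
def cen (B : MG g) : Multiplicative ℤ →* Hs B where
  toFun n := ⟨0, Multiplicative.toAdd n⟩
  map_one' := rfl
  map_mul' a b := by
    apply Hs.ext'
    · rw [mul_v, add_zero]
    · rw [mul_s, bf_zero_left, add_zero]; rfl

theorem comm_eq {B : MG g} (a b : Hs B) : a * b * a⁻¹ * b⁻¹ =
    cen B (Multiplicative.ofAdd (bf B a.v b.v - bf B b.v a.v)) := by
  apply Hs.ext'
  · show _ = 0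
    rw [mul_v, mul_v, mul_v, inv_v, inv_v]
    abel
  · show _ = bf B a.v b.v - bf B b.v a.v
    simp only [mul_s, mul_v, inv_s, inv_v, bf_add_left, bf_neg_left, bf_neg_right]
    ring

theorem lift_rel {B : MG g} (w : Fin g ⊕ Fin g → Hs B) : FreeGroup.lift w (rel g) =
    cen B (Multiplicative.ofAdd (∑ i : Fin g, (bf B (w (Sum.inl i)).v (w (Sum.inr i)).v -
      bf B (w (Sum.inr i)).v (w (Sum.inl i)).v))) := by
  unfold rel
  rw [map_list_prod, List.map_ofFn]
  have h1 : (⇑(FreeGroup.lift w) ∘ fun i : Fin g =>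
      FreeGroup.of (Sum.inl i : Fin g ⊕ Fin g) *
        FreeGroup.of (Sum.inr i : Fin g ⊕ Fin g) *
        (FreeGroup.of (Sum.inl i : Fin g ⊕ Fin g))⁻¹ *
        (FreeGroup.of (Sum.inr i : Fin g ⊕ Fin g))⁻¹) =
      ⇑(cen B) ∘ fun i : Fin g => Multiplicative.ofAdd (bf B (w (Sum.inl i)).v (w (Sum.inr i)).v -
      bf B (w (Sum.inr i)).v (w (Sum.inl i)).v) := by
    funext i
    simp only [Function.comp_apply, map_mul, map_inv, FreeGroup.lift_apply_of]
    exact comm_eq _ _
  rw [h1, ← List.map_ofFn, ← map_list_prod, List.prod_ofFn, ofAdd_sum]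

theorem bf_single (B : MG g) (p q : Fin g ⊕ Fin g) :
    bf B (Pi.single p 1) (Pi.single q 1) = B p q := by
  unfold bf
  rw [Matrix.mulVec_single_one, single_one_dotProduct]
  rfl

/-- the trace of a form on the relator -/
def tr (B : MG g) : ℤ := ∑ i : Fin g, (B (Sum.inl i) (Sum.inr i) - B (Sum.inr i) (Sum.inl i))

/-- the homomorphism to the Heisenberg group -/
def hf (B : MG g) (hB : tr B = 0) : SS g →* Hs B :=
  PresentedGroup.toGroup (f := fun j => (⟨Pi.single j 1, 0⟩ : Hs B)) (by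
    intro r hr
    rw [Set.mem_singleton_iff] at hr
    rw [hr, lift_rel]
    have h1 : (∑ i : Fin g, (bf B (Pi.single (Sum.inl i) 1) (Pi.single (Sum.inr i) 1) -
      bf B (Pi.single (Sum.inr i) 1) (Pi.single (Sum.inl i) 1))) = 0 := by
      simp only [bf_single]
      exact hB
    show cen B (Multiplicative.ofAdd (∑ i : Fin g,
      (bf B (Pi.single (Sum.inl i) 1) (Pi.single (Sum.inr i) 1) -
      bf B (Pi.single (Sum.inr i) 1) (Pi.single (Sum.inl i) 1)))) = 1
    rw [h1, ofAdd_zero, map_one])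

theorem toV_hf (B : MG g) (hB : tr B = 0) (x : SS g) : toV B (hf B hB x) = ab g x := by
  have h : (toV B).comp (hf B hB) = ab g := by
    apply PresentedGroup.ext
    intro j
    show toV B (hf B hB (PresentedGroup.of j)) = ab g (PresentedGroup.of j)
    unfold hf ab
    rw [PresentedGroup.toGroup.of, PresentedGroup.toGroup.of]
    rfl
  exact DFunLike.congr_fun h x

theorem key (B : MG g) (hB : tr B = 0) (ψ : MulAut (SS g)) :
    ∑ i : Fin g, (bf B (fun a => mx ψ a (Sum.inl i)) (fun a => mx ψ a (Sum.inr i)) -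
      bf B (fun a => mx ψ a (Sum.inr i)) (fun a => mx ψ a (Sum.inl i))) = 0 := by
  let F : SS g →* Hs B := (hf B hB).comp ψ.toMonoidHom
  let w : Fin g ⊕ Fin g → Hs B := fun j => F (PresentedGroup.of j)
  have hw : ∀ j, (w j).v = fun a => mx ψ a j := by
    intro j
    have h1 := toV_hf B hB (ψ (PresentedGroup.of j))
    funext a
    exact congrFun (congrArg Multiplicative.toAdd h1) a
  have h1 : FreeGroup.lift w = F.comp (PresentedGroup.mk ({rel g} : Set (FreeGroup (Fin g ⊕ Fin g)))) := by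
    apply FreeGroup.ext_hom
    intro j
    rw [FreeGroup.lift_apply_of]
    rfl
  have h2 : PresentedGroup.mk ({rel g} : Set (FreeGroup (Fin g ⊕ Fin g))) (rel g) = 1 :=
    (QuotientGroup.eq_one_iff _).2 (Subgroup.subset_normalClosure rfl)
  have h3 : FreeGroup.lift w (rel g) = 1 := by
    rw [h1, MonoidHom.comp_apply, h2, map_one]
  rw [lift_rel] at h3
  simp only [hw] at h3
  exact congrArg Hs.s h3

theorem tr_eq (B : MG g) : tr B = (B * Matrix.J (Fin g) ℤ).trace := by
  unfold tr Matrix.trace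
  rw [Fintype.sum_sum_type, Finset.sum_sub_distrib]
  simp [Matrix.mul_apply, Matrix.J, Matrix.fromBlocks, Matrix.one_apply, Matrix.diag,
    Fintype.sum_sum_type, sub_eq_add_neg]

theorem key2 (B : MG g) (hB : (B * Matrix.J (Fin g) ℤ).trace = 0) (ψ : MulAut (SS g)) :
    (B * (mx ψ * Matrix.J (Fin g) ℤ * (mx ψ)ᵀ)).trace = 0 := by
  have h1 := key B (by rw [tr_eq]; exact hB) ψ
  have h2 : tr ((mx ψ)ᵀ * (B * mx ψ)) = 0 := h1
  rw [tr_eq] at h2
  rw [← h2]
  rw [← Matrix.mul_assoc, Matrix.trace_mul_comm]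
  simp only [Matrix.mul_assoc]

theorem trace_single (k l : Fin g ⊕ Fin g) (M : MG g) : (Matrix.single k l 1 * M).trace = M l k := by
  rw [Matrix.trace_single_mul]
  simp

theorem form (ψ : MulAut (SS g)) (k l k' l' : Fin g ⊕ Fin g) :
    Matrix.J (Fin g) ℤ l' k' * (mx ψ * Matrix.J (Fin g) ℤ * (mx ψ)ᵀ) l k =
      Matrix.J (Fin g) ℤ l k * (mx ψ * Matrix.J (Fin g) ℤ * (mx ψ)ᵀ) l' k' := by
  have h1 := key2 (Matrix.J (Fin g) ℤ l' k' • Matrix.single k l 1 -
    Matrix.J (Fin g) ℤ l k • Matrix.single k' l' 1) (by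
      rw [Matrix.sub_mul, Matrix.trace_sub, Matrix.smul_mul, Matrix.smul_mul, Matrix.trace_smul,
        Matrix.trace_smul, trace_single, trace_single, smul_eq_mul, smul_eq_mul]
      ring) ψ
  rw [Matrix.sub_mul, Matrix.trace_sub, Matrix.smul_mul, Matrix.smul_mul, Matrix.trace_smul,
        Matrix.trace_smul, trace_single, trace_single, smul_eq_mul, smul_eq_mul] at h1
  linarith

theorem J_val (i : Fin g) : Matrix.J (Fin g) ℤ (Sum.inr i) (Sum.inl i) = 1 := by
  simp [Matrix.J]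

theorem form' (ψ : MulAut (SS g)) (i : Fin g) :
    mx ψ * Matrix.J (Fin g) ℤ * (mx ψ)ᵀ =
      ((mx ψ * Matrix.J (Fin g) ℤ * (mx ψ)ᵀ) (Sum.inr i) (Sum.inl i)) • Matrix.J (Fin g) ℤ := by
  ext l k
  have h1 := form ψ k l (Sum.inl i) (Sum.inr i)
  rw [J_val, one_mul] at h1
  rw [h1, Matrix.smul_apply, smul_eq_mul, mul_comm]

theorem main (g : ℕ) (ψ : MulAut (SS g)) (h3 : CongG 3 (act g ψ)) : Symp (act g ψ) := by
  unfold Symp
  rw [act_val]
  rcases Nat.eq_zero_or_pos g with h0 | h0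
  · subst h0
    ext i
    rcases i with i | i <;> exact i.elim0
  · have i0 : Fin g := ⟨0, h0⟩
    have e1 := form' ψ i0
    have e2 := form' ψ⁻¹ i0
    generalize hc : (mx ψ * Matrix.J (Fin g) ℤ * (mx ψ)ᵀ) (Sum.inr i0) (Sum.inl i0) = c at e1
    generalize hc' : (mx ψ⁻¹ * Matrix.J (Fin g) ℤ * (mx ψ⁻¹)ᵀ) (Sum.inr i0) (Sum.inl i0) = c' at e2
    have hinv : mx ψ⁻¹ * mx ψ = 1 := by rw [← mx_mul, inv_mul_cancel, mx_one]
    -- the product of the two constants
    have e3 : Matrix.J (Fin g) ℤ = (c * c') • Matrix.J (Fin g) ℤ := by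
      have k1 : mx ψ⁻¹ * (mx ψ * Matrix.J (Fin g) ℤ * (mx ψ)ᵀ) * (mx ψ⁻¹)ᵀ =
          Matrix.J (Fin g) ℤ := by
        have k2 : mx ψ⁻¹ * (mx ψ * Matrix.J (Fin g) ℤ * (mx ψ)ᵀ) * (mx ψ⁻¹)ᵀ =
            (mx ψ⁻¹ * mx ψ) * Matrix.J (Fin g) ℤ * (mx ψ⁻¹ * mx ψ)ᵀ := by
          rw [Matrix.transpose_mul]
          simp only [Matrix.mul_assoc]
        rw [k2, hinv, Matrix.transpose_one, Matrix.mul_one, Matrix.one_mul]
      rw [e1, Matrix.mul_smul, Matrix.smul_mul, e2, smul_smul] at k1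
      exact k1.symm
    have e4 : c * c' = 1 := by
      have k1 := congrFun (congrFun e3 (Sum.inr i0)) (Sum.inl i0)
      rw [Matrix.smul_apply, J_val, smul_eq_mul, mul_one] at k1
      exact k1.symm
    -- modulo three
    have e5 : ((c : ℤ) : ZMod 3) = 1 := by
      have k1 : (mx ψ).map (Int.castRingHom (ZMod 3)) = 1 := by
        ext i j
        have k2 := h3 i j
        rw [act_val] at k2
        have k3 : ((mx ψ i j - (1 : MG g) i j : ℤ) : ZMod 3) = 0 :=
          (ZMod.intCast_zmod_eq_zero_iff_dvd _ 3).2 (by exact_mod_cast k2)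
        rw [Int.cast_sub, sub_eq_zero] at k3
        rw [Matrix.map_apply]
        show ((mx ψ i j : ℤ) : ZMod 3) = _
        rw [k3, Matrix.one_apply, Matrix.one_apply]
        split_ifs <;> simp
      have k4 := congrArg (fun M : MG g => M.map (Int.castRingHom (ZMod 3))) e1
      simp only [Matrix.map_mul, Matrix.transpose_map] at k4
      rw [k1, Matrix.one_mul, Matrix.transpose_one, Matrix.mul_one] at k4
      have k5 := congrFun (congrFun k4 (Sum.inr i0)) (Sum.inl i0)
      rw [Matrix.map_apply, Matrix.map_apply, Matrix.smul_apply, J_val, smul_eq_mul, mul_one] at k5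
      simpa using k5.symm
    have e6 : c = 1 := by
      rcases Int.eq_one_or_neg_one_of_mul_eq_one e4 with k1 | k1
      · exact k1
      · exfalso
        rw [k1] at e5
        revert e5
        decide
    rw [e1, e6, one_smul]

end F335

theorem t_form : StFORM := fun g ψ h => F335.main g ψ h

end Pool.Agent.TH933.SPC
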