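import Pool.Agent.TH933.SPC.Stm

/-! # MC-1 FORM: automorphisms of the surface group preserve the intersection form -/

set_option autoImplicit false

open Matrix

namespace Pool.Agent.TH933.SPC

namespace FORMb

variable {g : ℕ}

/-- vectors -/
abbrev VV (g : ℕ) : Type := Fin g ⊕ Fin g → ℤ

/-- the parameters of a bilinear form -/
structure Par (g : ℕ) where
  x : ℤ
  y : ℤ
  k : Fin g ⊕ Fin g
  l : Fin g ⊕ Fin g
  k' : Fin g ⊕ Fin g
  l' : Fin g ⊕ Fin g

/-- the bilinear form -/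
def bl (p : Par g) (u v : VV g) : ℤ := p.x * (u p.k * v p.l) + p.y * (u p.k' * v p.l')

/-- the Heisenberg group -/
@[ext] structure Hei (p : Par g) where
  u : VV g
  s : ℤ

variable {p : Par g}

instance : Mul (Hei p) := ⟨fun a b => ⟨a.u + b.u, a.s + b.s + bl p a.u b.u⟩⟩
instance : One (Hei p) := ⟨⟨0, 0⟩⟩
instance : Inv (Hei p) := ⟨fun a => ⟨-a.u, -a.s + bl p a.u a.u⟩⟩

theorem mul_u (a b : Hei p) : (a * b).u = a.u + b.u := rfl
theorem mul_s (a b : Hei p) : (a * b).s = a.s + b.s + bl p a.u b.u := rfl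
theorem one_u : (1 : Hei p).u = 0 := rfl
theorem one_s : (1 : Hei p).s = 0 := rfl
theorem inv_u (a : Hei p) : (a⁻¹).u = -a.u := rfl
theorem inv_s (a : Hei p) : (a⁻¹).s = -a.s + bl p a.u a.u := rfl

instance : Group (Hei p) := Group.ofLeftAxioms
  (fun a b c => by
    apply Hei.ext
    · simp only [mul_u, add_assoc]
    · simp only [mul_u, mul_s, bl, Pi.add_apply]
      ring)
  (fun a => by
    apply Hei.ext
    · simp only [mul_u, one_u, zero_add]
    · simp only [mul_s, one_s, one_u, bl, Pi.zero_apply]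
      ring)
  (fun a => by
    apply Hei.ext
    · simp only [mul_u, inv_u, one_u, neg_add_cancel]
    · simp only [mul_s, inv_s, inv_u, one_s, bl, Pi.neg_apply]
      ring)

/-- the centre -/
def cen (p : Par g) : Multiplicative ℤ →* Hei p where
  toFun t := ⟨0, Multiplicative.toAdd t⟩
  map_one' := rfl
  map_mul' a b := by
    apply Hei.ext
    · simp only [mul_u, add_zero]
    · simp only [mul_s, bl, Pi.zero_apply, toAdd_mul]
      ring

theorem comm_eq (a b : Hei p) : a * b * a⁻¹ * b⁻¹ =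
    cen p (Multiplicative.ofAdd (bl p a.u b.u - bl p b.u a.u)) := by
  apply Hei.ext
  · show (a * b * a⁻¹ * b⁻¹).u = 0
    simp only [mul_u, inv_u]
    abel
  · show (a * b * a⁻¹ * b⁻¹).s = bl p a.u b.u - bl p b.u a.u
    simp only [mul_s, mul_u, inv_u, inv_s, bl, Pi.add_apply, Pi.neg_apply]
    ring

theorem lift_rel (h : Fin g ⊕ Fin g → Hei p) : FreeGroup.lift h (rel g) =
    cen p (Multiplicative.ofAdd (∑ i : Fin g, (bl p (h (Sum.inl i)).u (h (Sum.inr i)).u -
      bl p (h (Sum.inr i)).u (h (Sum.inl i)).u))) := by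
  unfold rel
  rw [map_list_prod, List.map_ofFn]
  have e : (⇑(FreeGroup.lift h) ∘ fun i : Fin g =>
      FreeGroup.of (Sum.inl i : Fin g ⊕ Fin g) * FreeGroup.of (Sum.inr i : Fin g ⊕ Fin g) *
        (FreeGroup.of (Sum.inl i : Fin g ⊕ Fin g))⁻¹ *
        (FreeGroup.of (Sum.inr i : Fin g ⊕ Fin g))⁻¹) =
      ⇑(cen p) ∘ fun i : Fin g => Multiplicative.ofAdd
        (bl p (h (Sum.inl i)).u (h (Sum.inr i)).u - bl p (h (Sum.inr i)).u (h (Sum.inl i)).u) := by
    funext i
    simp only [Function.comp_apply, map_mul, map_inv, FreeGroup.lift_apply_of]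
    exact comm_eq _ _
  rw [e, ← List.map_ofFn, ← map_list_prod, List.prod_ofFn, ofAdd_sum]

/-- the first component -/
def pr (p : Par g) : Hei p →* Multiplicative (VV g) where
  toFun a := Multiplicative.ofAdd a.u
  map_one' := rfl
  map_mul' _ _ := rfl

/-- the form in the columns of a matrix -/
def Om (A : MG g) (k l : Fin g ⊕ Fin g) : ℤ :=
  ∑ i : Fin g, (A k (Sum.inl i) * A l (Sum.inr i) - A k (Sum.inr i) * A l (Sum.inl i))

theorem tr_eq (p : Par g) (A : MG g) :
    ∑ i : Fin g, (bl p (fun a => A a (Sum.inl i)) (fun a => A a (Sum.inr i)) -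
      bl p (fun a => A a (Sum.inr i)) (fun a => A a (Sum.inl i))) =
    p.x * Om A p.k p.l + p.y * Om A p.k' p.l' := by
  unfold Om bl
  rw [Finset.mul_sum, Finset.mul_sum, ← Finset.sum_add_distrib]
  refine Finset.sum_congr rfl fun i _ => ?_
  ring

theorem single_eq (j : Fin g ⊕ Fin g) : (Pi.single j (1 : ℤ) : VV g) = fun a => (1 : MG g) a j := by
  funext a
  rw [Matrix.one_apply, Pi.single_apply]

theorem key (ψ : MulAut (SS g)) (p : Par g)
    (h : p.x * Om 1 p.k p.l + p.y * Om 1 p.k' p.l' = 0) :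
    p.x * Om (mx ψ) p.k p.l + p.y * Om (mx ψ) p.k' p.l' = 0 := by
  let f : SS g →* Hei p := PresentedGroup.toGroup
    (f := fun j => (⟨Pi.single j (1 : ℤ), 0⟩ : Hei p)) (by
      intro r hr
      rw [Set.mem_singleton_iff] at hr
      rw [hr, lift_rel]
      simp only [single_eq]
      rw [tr_eq, h]
      rfl)
  have hf : ∀ j, f (PresentedGroup.of j) = ⟨Pi.single j (1 : ℤ), 0⟩ := fun j =>
    PresentedGroup.toGroup.of _
  have hpr : (pr p).comp f = ab g := by
    apply PresentedGroup.ext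
    intro j
    show pr p (f (PresentedGroup.of j)) = ab g (PresentedGroup.of j)
    rw [hf]
    unfold ab
    rw [PresentedGroup.toGroup.of]
    rfl
  have hu : ∀ j, (f (ψ (PresentedGroup.of j))).u = fun a => mx ψ a j := by
    intro j
    have := DFunLike.congr_fun hpr (ψ (PresentedGroup.of j))
    funext a
    exact congrFun (congrArg Multiplicative.toAdd this) a
  have hlift : FreeGroup.lift (fun j => f (ψ (PresentedGroup.of j))) =
      (f.comp ψ.toMonoidHom).comp (PresentedGroup.mk ({rel g} : Set (FreeGroup (Fin g ⊕ Fin g)))) := by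
    apply FreeGroup.ext_hom
    intro j
    rw [FreeGroup.lift_apply_of]
    rfl
  have h1 : FreeGroup.lift (fun j => f (ψ (PresentedGroup.of j))) (rel g) = 1 := by
    rw [hlift]
    have h2 : PresentedGroup.mk ({rel g} : Set (FreeGroup (Fin g ⊕ Fin g))) (rel g) = 1 :=
      PresentedGroup.one_of_mem (Set.mem_singleton _)
    rw [MonoidHom.comp_apply, h2, map_one]
  rw [lift_rel] at h1
  have h2 := congrArg Hei.s h1
  have h3 : ∑ i : Fin g, (bl p (f (ψ (PresentedGroup.of (Sum.inl i)))).u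
      (f (ψ (PresentedGroup.of (Sum.inr i)))).u -
      bl p (f (ψ (PresentedGroup.of (Sum.inr i)))).u
        (f (ψ (PresentedGroup.of (Sum.inl i)))).u) = 0 := h2
  simp only [hu] at h3
  rw [tr_eq] at h3
  exact h3

theorem AJA (A : MG g) (k l : Fin g ⊕ Fin g) :
    (A * Matrix.J (Fin g) ℤ * Aᵀ) k l = -Om A k l := by
  have h1 : ∀ j : Fin g, (A * Matrix.J (Fin g) ℤ) k (Sum.inl j) = A k (Sum.inr j) := by
    intro j
    rw [Matrix.mul_apply, Fintype.sum_sum_type]
    simp [Matrix.J, Matrix.one_apply]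
  have h2 : ∀ j : Fin g, (A * Matrix.J (Fin g) ℤ) k (Sum.inr j) = -A k (Sum.inl j) := by
    intro j
    rw [Matrix.mul_apply, Fintype.sum_sum_type]
    simp [Matrix.J, Matrix.one_apply]
  rw [Matrix.mul_apply, Fintype.sum_sum_type]
  simp only [h1, h2, Matrix.transpose_apply]
  unfold Om
  rw [← Finset.sum_add_distrib, ← Finset.sum_neg_distrib]
  refine Finset.sum_congr rfl fun i _ => ?_
  ring

theorem Om_one (k l : Fin g ⊕ Fin g) : Om 1 k l = -Matrix.J (Fin g) ℤ k l := by
  have := AJA (1 : MG g) k l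
  rw [Matrix.transpose_one, Matrix.mul_one, Matrix.one_mul] at this
  rw [this, neg_neg]

theorem scal (ψ : MulAut (SS g)) (i₀ : Fin g) :
    ∃ c : ℤ, mx ψ * Matrix.J (Fin g) ℤ * (mx ψ)ᵀ = c • Matrix.J (Fin g) ℤ := by
  have hJ : Matrix.J (Fin g) ℤ (Sum.inl i₀) (Sum.inr i₀) = -1 := by simp [Matrix.J]
  refine ⟨Om (mx ψ) (Sum.inl i₀) (Sum.inr i₀), ?_⟩
  ext k l
  rw [AJA, Matrix.smul_apply, smul_eq_mul]
  have h := key ψ ⟨1, Matrix.J (Fin g) ℤ k l, k, l, Sum.inl i₀, Sum.inr i₀⟩ (by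
    show (1 : ℤ) * Om 1 k l + Matrix.J (Fin g) ℤ k l * Om 1 (Sum.inl i₀) (Sum.inr i₀) = 0
    rw [Om_one, Om_one, hJ]
    ring)
  have h' : (1 : ℤ) * Om (mx ψ) k l +
    Matrix.J (Fin g) ℤ k l * Om (mx ψ) (Sum.inl i₀) (Sum.inr i₀) = 0 := h
  linarith

end FORMb

open FORMb in
theorem t_form : StFORM := by
  intro g ψ h3
  unfold Symp
  rw [act_val]
  rcases Nat.eq_zero_or_pos g with hg | hg
  · subst hg
    ext k l
    rcases k with k | k <;> exact k.elim0
  · set i₀ : Fin g := ⟨0, hg⟩ with hi₀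
    have hJ : Matrix.J (Fin g) ℤ (Sum.inl i₀) (Sum.inr i₀) = -1 := by simp [Matrix.J]
    obtain ⟨c, hc⟩ := scal ψ i₀
    obtain ⟨c', hc'⟩ := scal ψ⁻¹ i₀
    have hA : mx ψ * mx ψ⁻¹ = 1 := by
      rw [← mx_mul, mul_inv_cancel, mx_one]
    have hcc : c * c' = 1 := by
      have e1 : mx ψ * (mx ψ⁻¹ * Matrix.J (Fin g) ℤ * (mx ψ⁻¹)ᵀ) * (mx ψ)ᵀ =
          Matrix.J (Fin g) ℤ := by
        have e2 : mx ψ * (mx ψ⁻¹ * Matrix.J (Fin g) ℤ * (mx ψ⁻¹)ᵀ) * (mx ψ)ᵀ =
            (mx ψ * mx ψ⁻¹) * Matrix.J (Fin g) ℤ * (mx ψ * mx ψ⁻¹)ᵀ := by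
          rw [Matrix.transpose_mul]
          simp only [Matrix.mul_assoc]
        rw [e2, hA, Matrix.transpose_one, Matrix.mul_one, Matrix.one_mul]
      rw [hc', Matrix.mul_smul, Matrix.smul_mul, hc] at e1
      have e3 := congrFun (congrFun e1 (Sum.inl i₀)) (Sum.inr i₀)
      rw [Matrix.smul_apply, Matrix.smul_apply, hJ, smul_eq_mul, smul_eq_mul] at e3
      linarith
    -- modulo three
    have hc3 : (3 : ℤ) ∣ c - 1 := by
      have e1 := congrFun (congrFun hc (Sum.inl i₀)) (Sum.inr i₀)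
      rw [Matrix.smul_apply, hJ, smul_eq_mul] at e1
      have hmap : (mx ψ).map (Int.cast : ℤ → ZMod 3) = 1 := by
        ext a b
        have := h3 a b
        rw [act_val] at this
        have h4 := (ZMod.intCast_zmod_eq_zero_iff_dvd _ 3).mpr (by exact_mod_cast this)
        rw [Matrix.map_apply, Matrix.one_apply]
        rw [Matrix.one_apply] at h4
        push_cast at h4
        split_ifs at h4 ⊢ with hab
        · push_cast at h4
          linear_combination h4
        · push_cast at h4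
          linear_combination h4
      have e2 : ((mx ψ * Matrix.J (Fin g) ℤ * (mx ψ)ᵀ).map (Int.cast : ℤ → ZMod 3)) =
          (Matrix.J (Fin g) ℤ).map (Int.cast : ℤ → ZMod 3) := by
        have e3 : ((mx ψ * Matrix.J (Fin g) ℤ * (mx ψ)ᵀ).map (Int.castRingHom (ZMod 3))) =
            (mx ψ).map (Int.castRingHom (ZMod 3)) *
              (Matrix.J (Fin g) ℤ).map (Int.castRingHom (ZMod 3)) *
              ((mx ψ).map (Int.castRingHom (ZMod 3)))ᵀ := by
          rw [Matrix.map_mul, Matrix.map_mul, Matrix.transpose_map]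
        have e4 : (mx ψ).map (Int.castRingHom (ZMod 3)) = 1 := hmap
        rw [e4, Matrix.transpose_one, Matrix.mul_one, Matrix.one_mul] at e3
        exact e3
      have e5 := congrFun (congrFun e2 (Sum.inl i₀)) (Sum.inr i₀)
      rw [Matrix.map_apply, Matrix.map_apply, e1, hJ] at e5
      have e6 : ((c - 1 : ℤ) : ZMod 3) = 0 := by
        push_cast at e5 ⊢
        linear_combination -e5
      exact_mod_cast (ZMod.intCast_zmod_eq_zero_iff_dvd (c - 1) 3).mp e6
    rcases Int.eq_one_or_neg_one_of_mul_eq_one hcc with h | h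
    · rw [hc, h, one_smul]
    · rw [h] at hc3
      omega

end Pool.Agent.TH933.SPC
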