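import Pool.Agent.TH933.SPC.Stm

/-! # SP-6: the congruence subgroup property of `Sp_{2g}(ℤ)`, assembly -/

set_option autoImplicit false

open Matrix

namespace Pool.Agent.TH933.SPC

open Pool.Agent.TH610.CSP

namespace Sp6

variable {g : ℕ}

theorem dvd_of_sq {m x : ℤ} (h : m ^ 2 ∣ x) : m ∣ x := (Dvd.intro_left _ (pow_two m).symm).trans h

theorem ELm_le (hY : StSYM) (hg : 2 ≤ g) {P : Subgroup (GG g)} {m : ℕ} (hP : Good P m) :
    ELm g ((m : ℤ) ^ 2) ≤ P := by
  unfold ELm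
  rw [Subgroup.closure_le]
  rintro A (⟨S, hS, hA⟩ | ⟨S, hS, hA⟩ | ⟨T, hT, hA⟩ | ⟨i, a, b, c, d, h1, h2, h3, h4, h5, hA⟩)
  · refine hP.hU ((m : ℤ) • S) ?_ A ?_
    · rw [Matrix.transpose_smul, hS]
    · rw [smul_smul, ← pow_two]; exact hA
  · refine hP.hL ((m : ℤ) • S) ?_ A ?_
    · rw [Matrix.transpose_smul, hS]
    · rw [smul_smul, ← pow_two]; exact hA
  · exact hP.hD T (fun i j => dvd_of_sq (hT i j)) A hA
  · exact hY g P m hg hP i a b c d h1 h2 h3 h4 h5 A hA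

theorem all_blk (hR : StRED) {P : Subgroup (GG g)} {m : ℤ} (hm : 2 ≤ m) (hP : ELm g m ≤ P) :
    ∀ k : ℕ, k ≤ g → ∀ A : GG g, Symp A → CongG m A → BlkG k A → A ∈ P := by
  intro k
  induction k with
  | zero =>
    intro _ A _ _ hA
    have h1 : A = 1 := by
      apply Units.ext
      ext i j
      rw [hA i j (Or.inl (Nat.zero_le _))]
      rfl
    rw [h1]
    exact P.one_mem
  | succ k ih =>
    intro hk A hA1 hA2 hA3
    obtain ⟨B, hB, h1, h2, h3⟩ := hR g ⟨k, hk⟩ m hm A hA1 hA2 hA3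
    have h4 := ih (by omega) (B * A) h1 h2 h3
    have h5 : A = B⁻¹ * (B * A) := by group
    rw [h5]
    exact P.mul_mem (P.inv_mem (hP hB)) h4

end Sp6

open Sp6

theorem t_sp (hY : StSYM) (hR : StRED) (hE : StEXP) : StSp := by
  intro g hg P hf hn
  obtain ⟨m, hP⟩ := hE g hg P hf hn
  have hm4 : 4 ≤ m := Nat.le_of_dvd hP.pos hP.four
  refine ⟨m ^ 2, by positivity, fun A h1 h2 => ?_⟩
  have hm : (2 : ℤ) ≤ (m : ℤ) ^ 2 := by
    have : (4 : ℤ) ≤ m := by exact_mod_cast hm4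
    nlinarith
  refine all_blk hR hm (ELm_le hY (by omega) hP) g le_rfl A h1 ?_ ?_
  · intro i j
    have := h2 i j
    push_cast at this
    exact this
  · intro i j h
    exfalso
    rcases h with h | h
    · exact absurd (Sum.elim id id i : Fin g).2 (by omega)
    · exact absurd (Sum.elim id id j : Fin g).2 (by omega)

end Pool.Agent.TH933.SPC
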