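import Pool.Agent.TH933.SPC.TopS
import Pool.Agent.TH933.SPC.Sp6

/-! # Mapping class groups: all finite-index subgroups, outer form -/

set_option autoImplicit false

open Matrix

namespace Pool.Agent.TH933.SPC

open Pool.Agent.TH933.JT (Tr TT PC ga mem_TT char_core inf_char Tr_mono steps)

namespace Fin

theorem ga_char (G : Type) [Group G] (c : ℕ) : (ga G c).Characteristic := inferInstance

/-- a finite-index subgroup of the Torelli group -/
theorem torelli {G : Type} [Group G] [Group.FG G] (N : Subgroup (MulAut G))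
    (hN : N.relIndex (TT (commutator G)) ≠ 0) (c : ℕ) (hc : 1 ≤ c) (h : PC N c) : PC N 1 := by
  refine steps N (N.relIndex (TT (commutator G))).factorial (Nat.factorial_pos _) ?_ c hc h
  intro ψ hψ
  obtain ⟨n, hn, hn', h1⟩ := Subgroup.exists_pow_mem_of_relIndex_ne_zero hN (mem_TT.2 hψ)
  obtain ⟨k, hk⟩ := Nat.dvd_factorial hn hn'
  rw [hk, pow_mul]
  exact N.pow_mem h1.1 k

/-- a finite-index subgroup of the mapping class group -/
theorem main (hS : StSp) (hG : StGENM) (hF : StFORM) (hT : StTW) {g : ℕ} (hg : 3 ≤ g)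
    (H : Subgroup (MulAut (SS g))) (hf : H.FiniteIndex) (c : ℕ) (h : PC H c) :
    ∃ K : Subgroup (SS g), K.Characteristic ∧ K.FiniteIndex ∧ ∀ ψ, Tr K ψ → ψ ∈ H := by
  have hNf : H.normalCore.FiniteIndex := inferInstance
  have hN : H.normalCore.Normal := inferInstance
  have hPC : PC H.normalCore c := by
    obtain ⟨K, hK1, hK2, hK3⟩ := h
    refine ⟨K, hK1, hK2, fun ψ h1 h2 φ => ?_⟩
    apply hK3
    · exact (TopS.TT_normal K hK1).conj_mem ψ h1 φ
    · exact (TopS.TT_normal (ga (SS g) c) (ga_char _ c)).conj_mem ψ h2 φ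
  rcases Nat.eq_zero_or_pos c with rfl | hc
  · obtain ⟨K, hK1, hK2, hK3⟩ := h
    exact ⟨K, hK1, hK2, fun ψ hψ => hK3 ψ hψ (fun x => Subgroup.mem_top _)⟩
  · have h1 : PC H.normalCore 1 := by
      refine steps H.normalCore H.normalCore.index (Nat.pos_of_ne_zero hNf.index_ne_zero) ?_ c hc hPC
      intro ψ _
      exact H.normalCore.pow_index_mem ψ
    obtain ⟨K, hK1, hK2, hK3⟩ := TopS.top hS hG hF hT hg H.normalCore hN hNf h1
    exact ⟨K, hK1, hK2, fun ψ hψ => H.normalCore_le (hK3 ψ hψ)⟩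

/-- the outer form -/
theorem outer {G : Type} [Group G] (N : Subgroup (MulAut G)) (K L : Subgroup G)
    (hK : K.Characteristic) (hL : L.Characteristic) (hLc : commutator G ≤ L)
    (h : ∀ ψ : MulAut G, (∀ x, ψ x * x⁻¹ ∈ K) → (∀ x, ψ x * x⁻¹ ∈ L) → ψ ∈ N)
    (hi : ∀ x : G, MulAut.conj x ∈ N) (ψ : MulAut G)
    (hψ : ∃ y : G, ∀ x : G, ψ x * (y * x * y⁻¹)⁻¹ ∈ K) (hψL : ∀ x, ψ x * x⁻¹ ∈ L) : ψ ∈ N := by
  obtain ⟨y, hy⟩ := hψ
  have hKn : K.Normal := inferInstance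
  have hLn : L.Normal := inferInstance
  have h2 : ∀ x, ((MulAut.conj y)⁻¹ * ψ) x = y⁻¹ * ψ x * y := by
    intro x
    rw [MulAut.mul_apply, MulAut.conj_inv_apply]
  have h1 : (MulAut.conj y)⁻¹ * ψ ∈ N := by
    apply h
    · intro x
      have h3 := hKn.conj_mem _ (hy x) y⁻¹
      rw [h2]
      have h4 : y⁻¹ * ψ x * y * x⁻¹ = y⁻¹ * (ψ x * (y * x * y⁻¹)⁻¹) * y⁻¹⁻¹ := by group
      rw [h4]
      exact h3
    · intro x
      rw [h2]
      have h4 : y⁻¹ * ψ x * y * x⁻¹ = (y⁻¹ * (ψ x * x⁻¹) * y⁻¹⁻¹) * (y⁻¹ * x * y⁻¹⁻¹ * x⁻¹) := by group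
      rw [h4]
      refine L.mul_mem (hLn.conj_mem _ (hψL x) y⁻¹) (hLc ?_)
      exact Subgroup.commutator_mem_commutator (Subgroup.mem_top y⁻¹) (Subgroup.mem_top x)
  have h5 : ψ = MulAut.conj y * ((MulAut.conj y)⁻¹ * ψ) := by group
  rw [h5]
  exact N.mul_mem (hi y) h1

end Fin

end Pool.Agent.TH933.SPC
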