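import Pool.Agent.TH933.SPC.Stm

/-! # Generation of the elementary symplectic group -/

set_option autoImplicit false

open Matrix

namespace Pool.Agent.TH933.SPC

open Pool.Agent.TH610.CSP

namespace GENM

variable {g : ℕ}

/-- `(1 S; 0 1)` -/
def uU (S : Matrix (Fin g) (Fin g) ℤ) : GG g where
  val := fromBlocks 1 S 0 1
  inv := fromBlocks 1 (-S) 0 1
  val_inv := by simp [fromBlocks_multiply]
  inv_val := by simp [fromBlocks_multiply]

/-- `(1 0; S 1)` -/
def uL (S : Matrix (Fin g) (Fin g) ℤ) : GG g where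
  val := fromBlocks 1 0 S 1
  inv := fromBlocks 1 0 (-S) 1
  val_inv := by simp [fromBlocks_multiply]
  inv_val := by simp [fromBlocks_multiply]

theorem uU_add (S T : Matrix (Fin g) (Fin g) ℤ) : uU (S + T) = uU S * uU T := by
  apply Units.ext
  show fromBlocks 1 (S + T) 0 1 = fromBlocks 1 S 0 1 * fromBlocks 1 T 0 1
  simp [fromBlocks_multiply, add_comm]

theorem uL_add (S T : Matrix (Fin g) (Fin g) ℤ) : uL (S + T) = uL S * uL T := by
  apply Units.ext
  show fromBlocks 1 0 (S + T) 1 = fromBlocks 1 0 S 1 * fromBlocks 1 0 T 1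
  simp [fromBlocks_multiply]

theorem uU_zero : uU (0 : Matrix (Fin g) (Fin g) ℤ) = 1 := by
  apply Units.ext
  exact fromBlocks_one

theorem uL_zero : uL (0 : Matrix (Fin g) (Fin g) ℤ) = 1 := by
  apply Units.ext
  exact fromBlocks_one

theorem uU_neg (S : Matrix (Fin g) (Fin g) ℤ) : uU (-S) = (uU S)⁻¹ := by
  rw [eq_comm, inv_eq_iff_mul_eq_one, ← uU_add, add_neg_cancel, uU_zero]

theorem uL_neg (S : Matrix (Fin g) (Fin g) ℤ) : uL (-S) = (uL S)⁻¹ := by
  rw [eq_comm, inv_eq_iff_mul_eq_one, ← uL_add, add_neg_cancel, uL_zero]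

/-- the matrices `S` with `(1 S; 0 1) ∈ R` -/
def RU (R : Subgroup (GG g)) : AddSubgroup (Matrix (Fin g) (Fin g) ℤ) where
  carrier := {S | uU S ∈ R}
  add_mem' {a b} ha hb := by
    show uU (a + b) ∈ R
    rw [uU_add]
    exact R.mul_mem ha hb
  zero_mem' := by
    show uU 0 ∈ R
    rw [uU_zero]
    exact R.one_mem
  neg_mem' {a} ha := by
    show uU (-a) ∈ R
    rw [uU_neg]
    exact R.inv_mem ha

/-- the matrices `S` with `(1 0; S 1) ∈ R` -/
def RL (R : Subgroup (GG g)) : AddSubgroup (Matrix (Fin g) (Fin g) ℤ) where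
  carrier := {S | uL S ∈ R}
  add_mem' {a b} ha hb := by
    show uL (a + b) ∈ R
    rw [uL_add]
    exact R.mul_mem ha hb
  zero_mem' := by
    show uL 0 ∈ R
    rw [uL_zero]
    exact R.one_mem
  neg_mem' {a} ha := by
    show uL (-a) ∈ R
    rw [uL_neg]
    exact R.inv_mem ha

/-- symmetric matrices are combinations of the elementary ones -/
theorem sym_mem (H : AddSubgroup (Matrix (Fin g) (Fin g) ℤ))
    (h1 : ∀ i, Matrix.single i i 1 ∈ H)
    (h2 : ∀ i j, i ≠ j → Matrix.single i j 1 + Matrix.single j i 1 ∈ H)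
    (S : Matrix (Fin g) (Fin g) ℤ) (hS : Sᵀ = S) : S ∈ H := by
  classical
  have hs : ∀ i j, S j i = S i j := fun i j => by
    conv_rhs => rw [← hS]
    rfl
  let F : Fin g × Fin g → Matrix (Fin g) (Fin g) ℤ := fun p => Matrix.single p.1 p.2 (S p.1 p.2)
  have e1 : S = ∑ p : Fin g × Fin g, F p := by
    rw [Fintype.sum_prod_type]
    exact Matrix.matrix_eq_sum_single S
  have e2 : ∑ p : Fin g × Fin g, F p = ∑ p : Fin g × Fin g, (if p.1 = p.2 then F p else 0) +
      ∑ p : Fin g × Fin g, (if p.1 < p.2 then F p else 0) +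
      ∑ p : Fin g × Fin g, (if p.2 < p.1 then F p else 0) := by
    rw [← Finset.sum_add_distrib, ← Finset.sum_add_distrib]
    refine Finset.sum_congr rfl fun p _ => ?_
    rcases lt_trichotomy p.1 p.2 with h | h | h
    · rw [if_neg h.ne, if_pos h, if_neg h.le.not_gt]
      simp
    · rw [if_pos h, if_neg h.not_lt, if_neg h.symm.not_lt]
      simp
    · rw [if_neg h.ne', if_neg h.le.not_gt, if_pos h]
      simp
  have e3 : ∑ p : Fin g × Fin g, (if p.2 < p.1 then F p else 0) =
      ∑ p : Fin g × Fin g, (if p.1 < p.2 then F p.swap else 0) := by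
    rw [← Equiv.sum_comp (Equiv.prodComm (Fin g) (Fin g))]
    rfl
  rw [e1, e2, e3, add_assoc, ← Finset.sum_add_distrib]
  refine H.add_mem (H.sum_mem fun p _ => ?_) (H.sum_mem fun p _ => ?_)
  · split_ifs with h
    · have h3 : F p = (S p.1 p.2) • Matrix.single p.1 p.1 (1 : ℤ) := by
        show Matrix.single p.1 p.2 (S p.1 p.2) = _
        rw [← h, Matrix.smul_single, smul_eq_mul, mul_one]
      rw [h3]
      exact H.zsmul_mem (h1 _) _
    · exact H.zero_mem
  · split_ifs with h
    · have h3 : F p + F p.swap = (S p.1 p.2) • (Matrix.single p.1 p.2 (1 : ℤ) +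
          Matrix.single p.2 p.1 (1 : ℤ)) := by
        show Matrix.single p.1 p.2 (S p.1 p.2) + Matrix.single p.2 p.1 (S p.2 p.1) = _
        rw [hs p.1 p.2, smul_add, Matrix.smul_single, Matrix.smul_single, smul_eq_mul, mul_one]
      rw [h3]
      exact H.zsmul_mem (h2 _ _ h.ne) _
    · rw [add_zero]
      exact H.zero_mem

/-- `(T 0; 0 T⁻ᵀ)` -/
def uD : SLn g →* GG g where
  toFun T :=
    { val := fromBlocks T.1 0 0 ((T⁻¹).1)ᵀ
      inv := fromBlocks (T⁻¹).1 0 0 (T.1)ᵀ
      val_inv := by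
        have h1 : T.1 * (T⁻¹).1 = 1 := by
          have := congrArg Subtype.val (mul_inv_cancel T)
          exact this
        rw [fromBlocks_multiply, h1, ← Matrix.transpose_mul, h1]
        simp
      inv_val := by
        have h1 : (T⁻¹).1 * T.1 = 1 := by
          have := congrArg Subtype.val (inv_mul_cancel T)
          exact this
        rw [fromBlocks_multiply, h1, ← Matrix.transpose_mul, h1]
        simp }
  map_one' := by
    apply Units.ext
    show fromBlocks (1 : SLn g).1 0 0 (((1 : SLn g)⁻¹).1)ᵀ = 1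
    rw [inv_one]
    have h1 : (1 : SLn g).1 = 1 := rfl
    rw [h1, Matrix.transpose_one]
    exact fromBlocks_one
  map_mul' T T' := by
    apply Units.ext
    show fromBlocks (T * T').1 0 0 (((T * T')⁻¹).1)ᵀ =
      fromBlocks T.1 0 0 ((T⁻¹).1)ᵀ * fromBlocks T'.1 0 0 ((T'⁻¹).1)ᵀ
    rw [fromBlocks_multiply, _root_.mul_inv_rev]
    have h1 : (T * T').1 = T.1 * T'.1 := rfl
    have h2 : (T'⁻¹ * T⁻¹).1 = (T'⁻¹).1 * (T⁻¹).1 := rfl
    rw [h1, h2, Matrix.transpose_mul]
    simp

/-- permutation matrices -/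
def uP (σ : Equiv.Perm (Fin g)) : GG g where
  val := fromBlocks (σ.permMatrix ℤ) 0 0 (σ.permMatrix ℤ)
  inv := fromBlocks (σ⁻¹.permMatrix ℤ) 0 0 (σ⁻¹.permMatrix ℤ)
  val_inv := by
    rw [fromBlocks_multiply, ← Matrix.permMatrix_mul]
    simp
  inv_val := by
    rw [fromBlocks_multiply, ← Matrix.permMatrix_mul]
    simp

theorem uP_mul (σ τ : Equiv.Perm (Fin g)) : uP (σ * τ) = uP τ * uP σ := by
  apply Units.ext
  show fromBlocks ((σ * τ).permMatrix ℤ) 0 0 ((σ * τ).permMatrix ℤ) =
    fromBlocks (τ.permMatrix ℤ) 0 0 (τ.permMatrix ℤ) *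
      fromBlocks (σ.permMatrix ℤ) 0 0 (σ.permMatrix ℤ)
  rw [fromBlocks_multiply, Matrix.permMatrix_mul]
  simp

theorem uP_one : uP (1 : Equiv.Perm (Fin g)) = 1 := by
  apply Units.ext
  show fromBlocks ((1 : Equiv.Perm (Fin g)).permMatrix ℤ) 0 0
    ((1 : Equiv.Perm (Fin g)).permMatrix ℤ) = 1
  rw [Matrix.permMatrix_one]
  exact fromBlocks_one

theorem uP_conj (σ : Equiv.Perm (Fin g)) (S : Matrix (Fin g) (Fin g) ℤ) :
    uP σ * uL S = uL (S.submatrix σ σ) * uP σ := by
  apply Units.ext
  show fromBlocks (σ.permMatrix ℤ) 0 0 (σ.permMatrix ℤ) * fromBlocks 1 0 S 1 =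
    fromBlocks 1 0 (S.submatrix σ σ) 1 * fromBlocks (σ.permMatrix ℤ) 0 0 (σ.permMatrix ℤ)
  rw [fromBlocks_multiply, fromBlocks_multiply]
  have h1 : σ.permMatrix ℤ * S = S.submatrix σ σ * σ.permMatrix ℤ := by
    show σ.toPEquiv.toMatrix * S = S.submatrix σ σ * σ.toPEquiv.toMatrix
    rw [PEquiv.toMatrix_toPEquiv_mul, PEquiv.mul_toMatrix_toPEquiv]
    ext i j
    simp
  simp [h1]

theorem perm_mem {n : ℕ} (R : Subgroup (GG (n + 1)))
    (h4 : ∀ (i j : Fin (n + 1)) (A : GG (n + 1)), (i : ℕ) + 1 = j → (A : MG (n + 1)) =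
      fromBlocks ((Equiv.swap i j).permMatrix ℤ) 0 0 ((Equiv.swap i j).permMatrix ℤ) → A ∈ R)
    (σ : Equiv.Perm (Fin (n + 1))) : uP σ ∈ R := by
  have h : σ ∈ Submonoid.closure (Set.range fun i : Fin n ↦ Equiv.swap i.castSucc i.succ) := by
    rw [Equiv.Perm.mclosure_swap_castSucc_succ]
    exact Submonoid.mem_top σ
  induction h using Submonoid.closure_induction with
  | mem x hx =>
    obtain ⟨i, rfl⟩ := hx
    refine h4 i.castSucc i.succ _ ?_ rfl
    simp
  | one =>
    rw [uP_one]
    exact R.one_mem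
  | mul x y _ _ hx hy =>
    rw [uP_mul]
    exact R.mul_mem hy hx

theorem exists_perm {n : ℕ} {i j a b : Fin n} (hij : i ≠ j) (hab : a ≠ b) :
    ∃ σ : Equiv.Perm (Fin n), σ i = a ∧ σ j = b := by
  refine ⟨Equiv.swap (Equiv.swap i a j) b * Equiv.swap i a, ?_, ?_⟩
  · rw [Equiv.Perm.mul_apply, Equiv.swap_apply_left]
    refine Equiv.swap_apply_of_ne_of_ne ?_ hab
    intro h
    have h1 : Equiv.swap i a i = Equiv.swap i a j := by rw [Equiv.swap_apply_left]; exact h
    exact hij ((Equiv.swap i a).injective h1)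
  · rw [Equiv.Perm.mul_apply, Equiv.swap_apply_left]

theorem sub_single {n : ℕ} (σ : Equiv.Perm (Fin n)) (i j : Fin n) :
    (Matrix.single (σ i) (σ j) (1 : ℤ)).submatrix σ σ = Matrix.single i j 1 := by
  ext x y
  rw [Matrix.submatrix_apply, Matrix.single_apply, Matrix.single_apply]
  simp

theorem tr_inv {i j : Fin g} (h : i ≠ j) :
    (((SpecialLinearGroup.transvection h (1 : ℤ))⁻¹).1)ᵀ = 1 + Matrix.single j i (-1) := by
  rw [SpecialLinearGroup.transvection_inv]
  show (1 + Matrix.single i j (-1) : Matrix (Fin g) (Fin g) ℤ)ᵀ = _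
  rw [Matrix.transpose_add, Matrix.transpose_one, Matrix.transpose_single]

theorem key1 {i j : Fin g} (h : j ≠ i) :
    uU (Matrix.single j j 1) * uL (Matrix.single i j 1 + Matrix.single j i 1) *
      uU (-Matrix.single j j 1) = uD (SpecialLinearGroup.transvection h (1 : ℤ)) *
        uL (Matrix.single i j 1 + Matrix.single j i 1 + Matrix.single i i 1) := by
  apply Units.ext
  show fromBlocks 1 (Matrix.single j j 1) 0 1 *
      fromBlocks 1 0 (Matrix.single i j 1 + Matrix.single j i 1) 1 *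
      fromBlocks 1 (-Matrix.single j j 1) 0 1 =
    fromBlocks (1 + Matrix.single j i 1) 0 0
      (((SpecialLinearGroup.transvection h (1 : ℤ))⁻¹).1)ᵀ *
      fromBlocks 1 0 (Matrix.single i j 1 + Matrix.single j i 1 + Matrix.single i i 1) 1
  rw [tr_inv h, fromBlocks_multiply, fromBlocks_multiply, fromBlocks_multiply]
  have e1 : Matrix.single j j (1 : ℤ) * (Matrix.single i j 1 + Matrix.single j i 1) =
      Matrix.single j i 1 := by
    rw [mul_add, Matrix.single_mul_single_of_ne _ _ _ _ h, Matrix.single_mul_single_same, zero_add,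
      one_mul]
  have e2 : (Matrix.single i j (1 : ℤ) + Matrix.single j i 1) * Matrix.single j j 1 =
      Matrix.single i j 1 := by
    rw [add_mul, Matrix.single_mul_single_same, Matrix.single_mul_single_of_ne _ _ _ _ h.symm,
      add_zero, one_mul]
  have e3 : Matrix.single j i (1 : ℤ) * Matrix.single j j 1 = 0 :=
    Matrix.single_mul_single_of_ne _ _ _ _ h.symm _
  have e4 : Matrix.single i j (-1 : ℤ) * (Matrix.single i j 1 + Matrix.single j i 1 +
      Matrix.single i i 1) = Matrix.single i i (-1) := by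
    rw [mul_add, mul_add, Matrix.single_mul_single_of_ne _ _ _ _ h,
      Matrix.single_mul_single_same, Matrix.single_mul_single_of_ne _ _ _ _ h]
    simp
  have e5 : Matrix.single i i (-1 : ℤ) = -Matrix.single i i 1 := by
    rw [← Matrix.single_neg]
  have e6 : Matrix.single i j (-1 : ℤ) = -Matrix.single i j 1 := by
    rw [← Matrix.single_neg]
  simp only [one_mul, mul_one, zero_mul, mul_zero, add_zero, zero_add, mul_neg, e1, e2,
    add_mul, e3, e4]
  congr 1
  · simp
  · rw [e5]
    abel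
  · rw [e6]
    abel

theorem key2 {i j : Fin g} (h : i ≠ j) :
    uD (SpecialLinearGroup.transvection h (1 : ℤ)) * uU (Matrix.single j j 1) =
      uU (Matrix.single i i 1 + Matrix.single j j 1 +
        (Matrix.single i j 1 + Matrix.single j i 1)) *
      uD (SpecialLinearGroup.transvection h (1 : ℤ)) := by
  apply Units.ext
  show fromBlocks (1 + Matrix.single i j 1) 0 0
      (((SpecialLinearGroup.transvection h (1 : ℤ))⁻¹).1)ᵀ *
      fromBlocks 1 (Matrix.single j j 1) 0 1 =
    fromBlocks 1 (Matrix.single i i 1 + Matrix.single j j 1 +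
        (Matrix.single i j 1 + Matrix.single j i 1)) 0 1 *
      fromBlocks (1 + Matrix.single i j 1) 0 0
      (((SpecialLinearGroup.transvection h (1 : ℤ))⁻¹).1)ᵀ
  rw [tr_inv h, fromBlocks_multiply, fromBlocks_multiply]
  have e1 : (Matrix.single i i 1 + Matrix.single j j 1 +
      (Matrix.single i j 1 + Matrix.single j i 1)) * Matrix.single j i (-1 : ℤ) =
      -Matrix.single j i 1 - Matrix.single i i 1 := by
    rw [add_mul, add_mul, add_mul, Matrix.single_mul_single_of_ne _ _ _ _ h,
      Matrix.single_mul_single_same, Matrix.single_mul_single_same,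
      Matrix.single_mul_single_of_ne _ _ _ _ h]
    rw [one_mul, ← Matrix.single_neg, ← Matrix.single_neg]
    abel
  have e2 : Matrix.single i j (1 : ℤ) * Matrix.single j j 1 = Matrix.single i j 1 := by
    rw [Matrix.single_mul_single_same, one_mul]
  simp only [one_mul, mul_one, zero_mul, mul_zero, add_zero, zero_add, mul_add, add_mul _ _
    (Matrix.single j j (1 : ℤ)), e2]
  congr 1
  rw [e1]
  abel

end GENM

open GENM in
theorem t_genm (h : Pool.Agent.TH610.CSP.StGen) : StGENM := by
  intro g hg R h1 h2 h3 h4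
  obtain ⟨n, rfl⟩ : ∃ n, g = n + 1 := ⟨g - 1, by omega⟩
  have a1 : ∀ i, Matrix.single i i 1 ∈ RU R := fun i => h1 i _ rfl
  have a2 : ∀ i, Matrix.single i i 1 ∈ RL R := fun i => h2 i _ rfl
  have hP : ∀ σ, uP σ ∈ R := perm_mem R h4
  -- the first two planes
  obtain ⟨x, y, hxy⟩ : ∃ x y : Fin (n + 1), (x : ℕ) + 1 = y :=
    ⟨⟨0, by omega⟩, ⟨1, by omega⟩, rfl⟩
  have hne : x ≠ y := by
    intro h
    rw [h] at hxy
    omega
  have a3 : Matrix.single x y 1 + Matrix.single y x 1 ∈ RL R := by
    have b1 : Matrix.single x y 1 + Matrix.single y x 1 - Matrix.single x x 1 -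
        Matrix.single y y 1 ∈ RL R := h3 x y _ hxy rfl
    have b2 := (RL R).add_mem ((RL R).add_mem b1 (a2 x)) (a2 y)
    have e : Matrix.single x y (1 : ℤ) + Matrix.single y x 1 - Matrix.single x x 1 -
        Matrix.single y y 1 + Matrix.single x x 1 + Matrix.single y y 1 =
        Matrix.single x y 1 + Matrix.single y x 1 := by abel
    rwa [e] at b2
  have a4 : ∀ i j, i ≠ j → Matrix.single i j 1 + Matrix.single j i 1 ∈ RL R := by
    intro i j hij
    obtain ⟨σ, s1, s2⟩ := exists_perm hij hne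
    have b1 := uP_conj σ (Matrix.single x y 1 + Matrix.single y x 1)
    have b2 : (Matrix.single x y (1 : ℤ) + Matrix.single y x 1).submatrix σ σ =
        Matrix.single i j 1 + Matrix.single j i 1 := by
      rw [Matrix.submatrix_add, Pi.add_apply, Pi.add_apply, ← s1, ← s2, sub_single, sub_single]
    rw [b2] at b1
    show uL _ ∈ R
    have b3 : uL (Matrix.single i j 1 + Matrix.single j i 1) =
        uP σ * uL (Matrix.single x y 1 + Matrix.single y x 1) * (uP σ)⁻¹ := by
      rw [b1, mul_inv_cancel_right]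
    rw [b3]
    exact R.mul_mem (R.mul_mem (hP σ) a3) (R.inv_mem (hP σ))
  have a5 : ∀ (i j : Fin (n + 1)) (hij : i ≠ j),
      uD (SpecialLinearGroup.transvection hij (1 : ℤ)) ∈ R := by
    intro j i hij
    have b1 := key1 (i := i) (j := j) hij
    have b2 : uL (Matrix.single i j 1 + Matrix.single j i 1 + Matrix.single i i 1) ∈ R :=
      (RL R).add_mem (a4 i j hij.symm) (a2 i)
    have b3 : uD (SpecialLinearGroup.transvection hij (1 : ℤ)) =
        uU (Matrix.single j j 1) * uL (Matrix.single i j 1 + Matrix.single j i 1) *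
        uU (-Matrix.single j j 1) *
        (uL (Matrix.single i j 1 + Matrix.single j i 1 + Matrix.single i i 1))⁻¹ := by
      rw [b1, mul_inv_cancel_right]
    rw [b3]
    exact R.mul_mem (R.mul_mem (R.mul_mem (a1 j) (a4 i j hij.symm)) ((RU R).neg_mem (a1 j)))
      (R.inv_mem b2)
  have a6 : ∀ T : SLn (n + 1), uD T ∈ R := by
    intro T
    have b1 : EE (n + 1) 1 ≤ R.comap uD := by
      unfold EE
      rw [Subgroup.closure_le]
      rintro _ ⟨i, j, hij, t, rfl⟩
      have b2 : SpecialLinearGroup.transvection hij ((1 : ℤ) * t) =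
          SpecialLinearGroup.transvection hij (1 : ℤ) ^ t := by
        rw [one_mul]
        induction t using Int.induction_on with
        | zero => rw [SpecialLinearGroup.transvection_coeff_zero, zpow_zero]
        | succ k ih => rw [SpecialLinearGroup.transvection_add, ih, _root_.zpow_add_one]
        | pred k ih =>
          rw [sub_eq_add_neg, SpecialLinearGroup.transvection_add, ih,
            ← SpecialLinearGroup.transvection_inv, ← sub_eq_add_neg, _root_.zpow_sub_one]
      rw [b2]
      exact (R.comap uD).zpow_mem (a5 i j hij) t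
    rw [h (n + 1)] at b1
    exact b1 (Subgroup.mem_top T)
  have a7 : ∀ i j, i ≠ j → Matrix.single i j 1 + Matrix.single j i 1 ∈ RU R := by
    intro i j hij
    have b1 := key2 (i := i) (j := j) hij
    have b2 : Matrix.single i i 1 + Matrix.single j j 1 +
        (Matrix.single i j 1 + Matrix.single j i 1) ∈ RU R := by
      show uU _ ∈ R
      have b3 : uU (Matrix.single i i 1 + Matrix.single j j 1 +
          (Matrix.single i j 1 + Matrix.single j i 1)) =
          uD (SpecialLinearGroup.transvection hij (1 : ℤ)) * uU (Matrix.single j j 1) *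
            (uD (SpecialLinearGroup.transvection hij (1 : ℤ)))⁻¹ := by
        rw [b1, mul_inv_cancel_right]
      rw [b3]
      exact R.mul_mem (R.mul_mem (a6 _) (a1 j)) (R.inv_mem (a6 _))
    have b4 := (RU R).sub_mem b2 ((RU R).add_mem (a1 i) (a1 j))
    have e : Matrix.single i i (1 : ℤ) + Matrix.single j j 1 +
        (Matrix.single i j 1 + Matrix.single j i 1) - (Matrix.single i i 1 +
          Matrix.single j j 1) = Matrix.single i j 1 + Matrix.single j i 1 := by abel
    rwa [e] at b4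
  unfold EL
  rw [Subgroup.closure_le]
  rintro A (⟨S, hS, hA⟩ | ⟨S, hS, hA⟩ | ⟨T, hA⟩)
  · have e : A = uU S := Units.ext hA
    rw [e]
    exact sym_mem (RU R) a1 a7 S hS
  · have e : A = uL S := Units.ext hA
    rw [e]
    exact sym_mem (RL R) a2 a4 S hS
  · have e : A = uD T := Units.ext hA
    rw [e]
    exact a6 T

end Pool.Agent.TH933.SPC
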