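import Pool.Agent.TH933.SPC.Stm

/-! # Generation of the elementary symplectic group -/

set_option autoImplicit false

open Matrix

namespace Pool.Agent.TH933.SPC

open Pool.Agent.TH610.CSP

namespace GenMb

variable {g : ℕ}

/-- `M` is the value of an element of `R` -/
def InR (R : Subgroup (GG g)) (M : MG g) : Prop := ∃ A ∈ R, (A : MG g) = M

lemma mem_of {R : Subgroup (GG g)} {A : GG g} (h : InR R (A : MG g)) : A ∈ R := by
  obtain ⟨B, hB, hBA⟩ := h
  rw [← Units.ext hBA]
  exact hB

lemma mulR {R : Subgroup (GG g)} {M N : MG g} (h1 : InR R M) (h2 : InR R N) : InR R (M * N) := by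
  obtain ⟨A, hA, rfl⟩ := h1
  obtain ⟨B, hB, rfl⟩ := h2
  exact ⟨A * B, R.mul_mem hA hB, by simp⟩

lemma invR {R : Subgroup (GG g)} {M N : MG g} (h1 : InR R M) (h2 : M * N = 1) : InR R N := by
  obtain ⟨A, hA, rfl⟩ := h1
  refine ⟨A⁻¹, R.inv_mem hA, ?_⟩
  calc ((A⁻¹ : GG g) : MG g) = ((A⁻¹ : GG g) : MG g) * ((A : MG g) * N) := by rw [h2, mul_one]
    _ = N := by rw [← mul_assoc, Units.inv_mul, one_mul]

/-- upper -/
def U (S : Matrix (Fin g) (Fin g) ℤ) : MG g := fromBlocks 1 S 0 1

/-- lower -/
def L (S : Matrix (Fin g) (Fin g) ℤ) : MG g := fromBlocks 1 0 S 1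

lemma U_mul (S T : Matrix (Fin g) (Fin g) ℤ) : U S * U T = U (S + T) := by
  unfold U
  rw [fromBlocks_multiply]
  simp [add_comm]

lemma L_mul (S T : Matrix (Fin g) (Fin g) ℤ) : L S * L T = L (S + T) := by
  unfold L
  rw [fromBlocks_multiply]
  simp

lemma U_zero : U (0 : Matrix (Fin g) (Fin g) ℤ) = 1 := by
  unfold U
  exact fromBlocks_one

lemma L_zero : L (0 : Matrix (Fin g) (Fin g) ℤ) = 1 := by
  unfold L
  exact fromBlocks_one

/-- the unit `U S` -/
def uU (S : Matrix (Fin g) (Fin g) ℤ) : GG g :=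
  ⟨U S, U (-S), by rw [U_mul, add_neg_cancel, U_zero], by rw [U_mul, neg_add_cancel, U_zero]⟩

/-- the unit `L S` -/
def uL (S : Matrix (Fin g) (Fin g) ℤ) : GG g :=
  ⟨L S, L (-S), by rw [L_mul, add_neg_cancel, L_zero], by rw [L_mul, neg_add_cancel, L_zero]⟩

/-- the additive group of all `S` with `U S` in `R` -/
def aU (R : Subgroup (GG g)) : AddSubgroup (Matrix (Fin g) (Fin g) ℤ) where
  carrier := {S | InR R (U S)}
  add_mem' := by
    intro S T hS hT
    have := mulR hS hT
    rw [U_mul] at this
    exact this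
  zero_mem' := ⟨1, R.one_mem, by rw [U_zero]; rfl⟩
  neg_mem' := by
    intro S hS
    exact invR hS (by rw [U_mul, add_neg_cancel, U_zero])

/-- the additive group of all `S` with `L S` in `R` -/
def aL (R : Subgroup (GG g)) : AddSubgroup (Matrix (Fin g) (Fin g) ℤ) where
  carrier := {S | InR R (L S)}
  add_mem' := by
    intro S T hS hT
    have := mulR hS hT
    rw [L_mul] at this
    exact this
  zero_mem' := ⟨1, R.one_mem, by rw [L_zero]; rfl⟩
  neg_mem' := by
    intro S hS
    exact invR hS (by rw [L_mul, add_neg_cancel, L_zero])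

/-- an additive group containing `E_ii` and `E_ij + E_ji` contains all symmetric matrices -/
lemma symm_mem (Q : AddSubgroup (Matrix (Fin g) (Fin g) ℤ))
    (h1 : ∀ i, Matrix.single i i (1 : ℤ) ∈ Q)
    (h2 : ∀ i j, i ≠ j → Matrix.single i j (1 : ℤ) + Matrix.single j i 1 ∈ Q)
    (S : Matrix (Fin g) (Fin g) ℤ) (hS : Sᵀ = S) : S ∈ Q := by
  have hsy : ∀ i j, S i j = S j i := by
    intro i j
    have := congrFun (congrFun hS j) i
    rw [Matrix.transpose_apply] at this
    exact this
  have hterm : ∀ i j : Fin g, (if i = j then S i i • Matrix.single i i (1 : ℤ) else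
      if i < j then S i j • (Matrix.single i j (1 : ℤ) + Matrix.single j i 1) else 0) ∈ Q := by
    intro i j
    split_ifs with e1 e2
    · exact Q.zsmul_mem (h1 i) _
    · exact Q.zsmul_mem (h2 i j e1) _
    · exact Q.zero_mem
  have hsum : S = ∑ i : Fin g, ∑ j : Fin g, (if i = j then S i i • Matrix.single i i (1 : ℤ) else
      if i < j then S i j • (Matrix.single i j (1 : ℤ) + Matrix.single j i 1) else 0) := by
    ext a b
    simp only [Matrix.sum_apply]
    rcases lt_trichotomy a b with hab | hab | hab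
    · rw [Finset.sum_eq_single a, Finset.sum_eq_single b]
      · simp [hab, hab.ne, hab.ne', Matrix.single_apply]
      · intro j _ hj
        split_ifs with e1 e2
        · subst e1
          simp [Matrix.single_apply, hab.ne]
        · simp [Matrix.single_apply, hj, hab.ne]
        · simp
      · simp
      · intro i _ hi
        apply Finset.sum_eq_zero
        intro j _
        split_ifs with e1 e2
        · simp [Matrix.single_apply, hi]
        · simp only [Matrix.smul_apply, Matrix.add_apply, Matrix.single_apply, smul_eq_mul]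
          rw [if_neg (by rintro ⟨rfl, rfl⟩; exact hi rfl),
            if_neg (by rintro ⟨rfl, rfl⟩; exact absurd e2 (not_lt.2 hab.le))]
          simp
        · simp
      · simp
    · subst hab
      rw [Finset.sum_eq_single a, Finset.sum_eq_single a]
      · simp [Matrix.single_apply]
      · intro j _ hj
        rw [if_neg hj.symm]
        split_ifs with e2
        · simp [Matrix.single_apply, hj]
        · simp
      · simp
      · intro i _ hi
        apply Finset.sum_eq_zero
        intro j _
        split_ifs with e1 e2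
        · simp [Matrix.single_apply, hi]
        · simp only [Matrix.smul_apply, Matrix.add_apply, Matrix.single_apply, smul_eq_mul]
          rw [if_neg (by rintro ⟨rfl, rfl⟩; exact hi rfl),
            if_neg (by rintro ⟨rfl, rfl⟩; exact hi rfl)]
          simp
        · simp
      · simp
    · rw [Finset.sum_eq_single b, Finset.sum_eq_single a]
      · simp [hab, hab.ne, hab.ne', Matrix.single_apply, hsy a b]
      · intro j _ hj
        split_ifs with e1 e2
        · subst e1
          simp [Matrix.single_apply, hab.ne]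
        · simp [Matrix.single_apply, hj, hab.ne]
        · simp
      · simp
      · intro i _ hi
        apply Finset.sum_eq_zero
        intro j _
        split_ifs with e1 e2
        · simp only [Matrix.smul_apply, Matrix.single_apply, smul_eq_mul]
          rw [if_neg (by rintro ⟨rfl, rfl⟩; exact hi rfl)]
          simp
        · simp only [Matrix.smul_apply, Matrix.add_apply, Matrix.single_apply, smul_eq_mul]
          rw [if_neg (by rintro ⟨rfl, rfl⟩; exact absurd e2 (not_lt.2 hab.le)),
            if_neg (by rintro ⟨rfl, rfl⟩; exact hi rfl)]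
          simp
        · simp
      · simp
  rw [hsum]
  exact Q.sum_mem fun i _ => Q.sum_mem fun j _ => hterm i j

/-- rotation in the plane `i` -/
def W (i : Fin g) : MG g :=
  fromBlocks (1 - Matrix.single i i 1) (-Matrix.single i i 1) (Matrix.single i i 1)
    (1 - Matrix.single i i 1)

/-- its inverse -/
def W' (i : Fin g) : MG g :=
  fromBlocks (1 - Matrix.single i i 1) (Matrix.single i i 1) (-Matrix.single i i 1)
    (1 - Matrix.single i i 1)

lemma E_idem (i : Fin g) : Matrix.single i i (1 : ℤ) * Matrix.single i i 1 = Matrix.single i i 1 := by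
  rw [Matrix.single_mul_single_same, one_mul]

lemma W_eq (i : Fin g) : U (-Matrix.single i i 1) * L (Matrix.single i i 1) *
    U (-Matrix.single i i 1) = W i := by
  unfold U L W
  rw [fromBlocks_multiply, fromBlocks_multiply]
  congr 1 <;> simp only [mul_neg, mul_one, one_mul, mul_zero, add_zero, zero_add, neg_mul,
    zero_mul, add_mul, E_idem, sub_mul, neg_add_rev, neg_neg] <;> abel

lemma W_inv (i : Fin g) : W i * W' i = 1 := by
  unfold W W'
  rw [fromBlocks_multiply, ← fromBlocks_one]
  congr 1 <;> simp only [mul_neg, mul_one, one_mul, mul_zero, add_zero, zero_add, neg_mul,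
    zero_mul, add_mul, E_idem, sub_mul, mul_sub, neg_add_rev, neg_neg] <;> abel

lemma conj1 (i j : Fin g) (hij : i ≠ j) (t : ℤ) :
    W j * L (t • (Matrix.single i j 1 + Matrix.single j i 1)) * W' j =
      fromBlocks (1 - t • Matrix.single j i 1) 0 0 (1 + t • Matrix.single i j 1) := by
  have h1 := E_idem j
  have h2 : Matrix.single j j (1 : ℤ) * Matrix.single i j 1 = 0 :=
    Matrix.single_mul_single_of_ne _ _ _ _ hij.symm _
  have h3 : Matrix.single j j (1 : ℤ) * Matrix.single j i 1 = Matrix.single j i 1 := by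
    rw [Matrix.single_mul_single_same, one_mul]
  have h4 : Matrix.single i j (1 : ℤ) * Matrix.single j j 1 = Matrix.single i j 1 := by
    rw [Matrix.single_mul_single_same, one_mul]
  have h5 : Matrix.single j i (1 : ℤ) * Matrix.single j j 1 = 0 :=
    Matrix.single_mul_single_of_ne _ _ _ _ hij _
  unfold W W' L
  generalize Matrix.single j j (1 : ℤ) = E at *
  generalize Matrix.single i j (1 : ℤ) = X at *
  generalize Matrix.single j i (1 : ℤ) = Y at *
  rw [fromBlocks_multiply, fromBlocks_multiply]
  congr 1 <;> simp only [mul_neg, mul_one, one_mul, mul_zero, add_zero, zero_add, neg_mul,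
    zero_mul, add_mul, mul_add, sub_mul, mul_sub, neg_add_rev, neg_neg, mul_smul_comm,
    smul_mul_assoc, smul_add, h1, h2, h3, h4, h5, smul_zero, mul_assoc, sub_zero, neg_zero] <;>
    module

lemma conj2 (i j : Fin g) (hij : i ≠ j) :
    W i * fromBlocks (1 - Matrix.single j i 1) 0 0 (1 + Matrix.single i j 1) * W' i =
      U (-(Matrix.single i j 1 + Matrix.single j i 1)) := by
  have h1 := E_idem i
  have h2 : Matrix.single i i (1 : ℤ) * Matrix.single j i 1 = 0 :=
    Matrix.single_mul_single_of_ne _ _ _ _ hij _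
  have h3 : Matrix.single i i (1 : ℤ) * Matrix.single i j 1 = Matrix.single i j 1 := by
    rw [Matrix.single_mul_single_same, one_mul]
  have h4 : Matrix.single j i (1 : ℤ) * Matrix.single i i 1 = Matrix.single j i 1 := by
    rw [Matrix.single_mul_single_same, one_mul]
  have h5 : Matrix.single i j (1 : ℤ) * Matrix.single i i 1 = 0 :=
    Matrix.single_mul_single_of_ne _ _ _ _ hij.symm _
  unfold W W' U
  generalize Matrix.single i i (1 : ℤ) = E at *
  generalize Matrix.single i j (1 : ℤ) = X at *
  generalize Matrix.single j i (1 : ℤ) = Y at *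
  rw [fromBlocks_multiply, fromBlocks_multiply]
  congr 1 <;> simp only [mul_neg, mul_one, one_mul, mul_zero, add_zero, zero_add, neg_mul,
    zero_mul, add_mul, mul_add, sub_mul, mul_sub, neg_add_rev, neg_neg,
    h1, h2, h3, h4, h5, mul_assoc, sub_zero, neg_zero] <;>
    abel

/-- block permutation matrices -/
def P (σ : Equiv.Perm (Fin g)) : MG g := fromBlocks (σ.permMatrix ℤ) 0 0 (σ.permMatrix ℤ)

lemma perm_mul (σ τ : Equiv.Perm (Fin g)) :
    (σ * τ).permMatrix ℤ = τ.permMatrix ℤ * σ.permMatrix ℤ := by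
  unfold Equiv.Perm.permMatrix
  rw [← PEquiv.toMatrix_trans, ← Equiv.toPEquiv_trans]
  rfl

lemma P_mul (σ τ : Equiv.Perm (Fin g)) : P (σ * τ) = P τ * P σ := by
  unfold P
  rw [fromBlocks_multiply, perm_mul]
  simp

lemma P_one : P (1 : Equiv.Perm (Fin g)) = 1 := by
  unfold P
  rw [Matrix.permMatrix_one, fromBlocks_one]

/-- the unit `P σ` -/
def uP (σ : Equiv.Perm (Fin g)) : GG g :=
  ⟨P σ, P σ⁻¹, by rw [← P_mul, inv_mul_cancel, P_one], by rw [← P_mul, mul_inv_cancel, P_one]⟩

lemma P_conj (σ : Equiv.Perm (Fin g)) (S : Matrix (Fin g) (Fin g) ℤ) :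
    P σ * L S * P σ⁻¹ = L (S.submatrix σ σ) := by
  unfold P L
  rw [fromBlocks_multiply, fromBlocks_multiply]
  have h1 : σ.permMatrix ℤ * S * (σ⁻¹).permMatrix ℤ = S.submatrix σ σ := by
    unfold Equiv.Perm.permMatrix
    rw [PEquiv.toMatrix_toPEquiv_mul, PEquiv.mul_toMatrix_toPEquiv]
    rfl
  have h2 : σ.permMatrix ℤ * (σ⁻¹).permMatrix ℤ = 1 := by
    rw [← perm_mul, inv_mul_cancel, Matrix.permMatrix_one]
  simp only [mul_one, mul_zero, add_zero, zero_add, zero_mul, h1, h2]

lemma exists_perm (i j a b : Fin g) (hij : i ≠ j) (hab : a ≠ b) :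
    ∃ σ : Equiv.Perm (Fin g), σ i = a ∧ σ j = b := by
  refine ⟨Equiv.swap (Equiv.swap i a j) b * Equiv.swap i a, ?_, ?_⟩
  · rw [Equiv.Perm.mul_apply, Equiv.swap_apply_left]
    apply Equiv.swap_apply_of_ne_of_ne
    · intro h
      have h2 : Equiv.swap i a i = Equiv.swap i a j := by rw [Equiv.swap_apply_left]; exact h
      exact hij ((Equiv.swap i a).injective h2)
    · exact hab
  · rw [Equiv.Perm.mul_apply, Equiv.swap_apply_left]

theorem main (hgen : StGen) (hg : 3 ≤ g) (R : Subgroup (GG g))
    (hU : ∀ (i : Fin g) (A : GG g), IsU (Matrix.single i i 1) A → A ∈ R)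
    (hL : ∀ (i : Fin g) (A : GG g), IsL (Matrix.single i i 1) A → A ∈ R)
    (hLL : ∀ (i j : Fin g) (A : GG g), (i : ℕ) + 1 = j → IsL (Matrix.single i j 1 +
      Matrix.single j i 1 - Matrix.single i i 1 - Matrix.single j j 1) A → A ∈ R)
    (hP : ∀ (i j : Fin g) (A : GG g), (i : ℕ) + 1 = j → (A : MG g) =
      fromBlocks ((Equiv.swap i j).permMatrix ℤ) 0 0 ((Equiv.swap i j).permMatrix ℤ) → A ∈ R) :
    EL g ≤ R := by
  have uE : ∀ i : Fin g, Matrix.single i i (1 : ℤ) ∈ aU R := fun i =>
    ⟨uU (Matrix.single i i 1), hU i _ rfl, rfl⟩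
  have lE : ∀ i : Fin g, Matrix.single i i (1 : ℤ) ∈ aL R := fun i =>
    ⟨uL (Matrix.single i i 1), hL i _ rfl, rfl⟩
  -- permutations
  have hperm : ∀ σ : Equiv.Perm (Fin g), InR R (P σ) := by
    let Q : Submonoid (Equiv.Perm (Fin g)) :=
      { carrier := {σ | InR R (P σ)}
        mul_mem' := by
          intro σ τ hσ hτ
          show InR R (P (σ * τ))
          rw [P_mul]
          exact mulR hτ hσ
        one_mem' := ⟨1, R.one_mem, by rw [P_one]; rfl⟩ }
    intro σ
    obtain ⟨n, rfl⟩ : ∃ n, g = n + 1 := ⟨g - 1, by omega⟩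
    have h1 : Submonoid.closure (Set.range fun i : Fin n => Equiv.swap i.castSucc i.succ) ≤ Q := by
      rw [Submonoid.closure_le]
      rintro _ ⟨i, rfl⟩
      exact ⟨uP (Equiv.swap i.castSucc i.succ), hP i.castSucc i.succ _ (by simp) rfl, rfl⟩
    rw [Equiv.Perm.mclosure_swap_castSucc_succ] at h1
    exact h1 (Submonoid.mem_top σ)
  -- lower
  have h01 : ∃ a b : Fin g, a ≠ b ∧ Matrix.single a b (1 : ℤ) + Matrix.single b a 1 ∈ aL R := by
    refine ⟨⟨0, by omega⟩, ⟨1, by omega⟩, ?_, ?_⟩
    · intro h
      have := congrArg Fin.val h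
      simp at this
    · set a : Fin g := ⟨0, by omega⟩
      set b : Fin g := ⟨1, by omega⟩
      have h1 : Matrix.single a b (1 : ℤ) + Matrix.single b a 1 - Matrix.single a a 1 -
          Matrix.single b b 1 ∈ aL R := ⟨uL _, hLL a b _ rfl rfl, rfl⟩
      have h2 := (aL R).add_mem ((aL R).add_mem h1 (lE b)) (lE a)
      have h3 : Matrix.single a b (1 : ℤ) + Matrix.single b a 1 - Matrix.single a a 1 -
          Matrix.single b b 1 + Matrix.single b b 1 + Matrix.single a a 1 =
          Matrix.single a b (1 : ℤ) + Matrix.single b a 1 := by abel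
      rw [h3] at h2
      exact h2
  have lF : ∀ i j : Fin g, i ≠ j → Matrix.single i j (1 : ℤ) + Matrix.single j i 1 ∈ aL R := by
    intro i j hij
    obtain ⟨a, b, hab, h⟩ := h01
    obtain ⟨σ, h1, h2⟩ := exists_perm i j a b hij hab
    have h3 : InR R (P σ * L (Matrix.single a b (1 : ℤ) + Matrix.single b a 1) * P σ⁻¹) :=
      mulR (mulR (hperm σ) h) (hperm σ⁻¹)
    rw [P_conj] at h3
    have h4 : (Matrix.single a b (1 : ℤ) + Matrix.single b a 1).submatrix σ σ =
        Matrix.single i j (1 : ℤ) + Matrix.single j i 1 := by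
      ext x y
      simp only [Matrix.submatrix_apply, Matrix.add_apply, Matrix.single_apply, ← h1, ← h2,
        σ.injective.eq_iff]
    rw [h4] at h3
    exact h3
  -- rotations
  have hW : ∀ i : Fin g, InR R (W i) := by
    intro i
    rw [← W_eq]
    exact mulR (mulR ((aU R).neg_mem (uE i)) (lE i)) ((aU R).neg_mem (uE i))
  have hW' : ∀ i : Fin g, InR R (W' i) := fun i => invR (hW i) (W_inv i)
  have hD : ∀ (i j : Fin g), i ≠ j → ∀ t : ℤ,
      InR R (fromBlocks (1 - t • Matrix.single j i 1) 0 0 (1 + t • Matrix.single i j 1)) := by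
    intro i j hij t
    rw [← conj1 i j hij t]
    exact mulR (mulR (hW j) ((aL R).zsmul_mem (lF i j hij) t)) (hW' j)
  have uF : ∀ i j : Fin g, i ≠ j → Matrix.single i j (1 : ℤ) + Matrix.single j i 1 ∈ aU R := by
    intro i j hij
    have h1 := hD i j hij 1
    rw [one_smul, one_smul] at h1
    have h2 := mulR (mulR (hW i) h1) (hW' i)
    rw [conj2 i j hij] at h2
    have h3 := (aU R).neg_mem h2
    rw [neg_neg] at h3
    exact h3
  -- the diagonal part
  have hDT : ∀ T : SLn g, InR R (fromBlocks T.1 0 0 ((T⁻¹).1)ᵀ) := by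
    intro T
    have hT : T ∈ EE g 1 := by
      rw [hgen g]
      exact Subgroup.mem_top T
    have hone : InR R (fromBlocks (1 : SLn g).1 0 0 (((1 : SLn g)⁻¹).1)ᵀ) := by
      rw [inv_one]
      refine ⟨1, R.one_mem, ?_⟩
      rw [Matrix.SpecialLinearGroup.coe_one, Matrix.transpose_one, fromBlocks_one]
      rfl
    have hmul : ∀ T T' : SLn g, (fromBlocks (T * T').1 0 0 (((T * T')⁻¹).1)ᵀ : MG g) =
        fromBlocks T.1 0 0 ((T⁻¹).1)ᵀ * fromBlocks T'.1 0 0 ((T'⁻¹).1)ᵀ := by
      intro T T'
      rw [fromBlocks_multiply, _root_.mul_inv_rev, Matrix.SpecialLinearGroup.coe_mul,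
        Matrix.SpecialLinearGroup.coe_mul, Matrix.transpose_mul]
      simp
    refine Subgroup.closure_induction (p := fun T _ => InR R (fromBlocks T.1 0 0 ((T⁻¹).1)ᵀ))
      ?_ hone ?_ ?_ hT
    · rintro A ⟨i, j, hij, t, rfl⟩
      have h1 := hD j i hij.symm (-t)
      have h2 : (fromBlocks (SpecialLinearGroup.transvection hij (1 * t)).1 0 0
          (((SpecialLinearGroup.transvection hij (1 * t))⁻¹).1)ᵀ : MG g) =
          fromBlocks (1 - (-t) • Matrix.single i j 1) 0 0 (1 + (-t) • Matrix.single j i 1) := by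
        rw [one_mul, SpecialLinearGroup.transvection_inv]
        have e1 : ∀ b : ℤ, (SpecialLinearGroup.transvection hij b).1 =
            (1 : Matrix (Fin g) (Fin g) ℤ) + Matrix.single i j b := fun b => rfl
        rw [e1, e1, Matrix.transpose_add, Matrix.transpose_one, Matrix.transpose_single,
          Matrix.smul_single, Matrix.smul_single]
        congr 1
        · ext x y
          simp only [Matrix.add_apply, Matrix.sub_apply, Matrix.single_apply, smul_eq_mul]
          split_ifs <;> ring
        · simp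
      rw [h2]
      exact h1
    · intro T T' _ _ h1 h2
      rw [hmul]
      exact mulR h1 h2
    · intro T _ h1
      refine invR h1 ?_
      rw [← hmul, mul_inv_cancel, inv_one, Matrix.SpecialLinearGroup.coe_one,
        Matrix.transpose_one, fromBlocks_one]
  unfold EL
  rw [Subgroup.closure_le]
  rintro A (⟨S, hS, hA⟩ | ⟨S, hS, hA⟩ | ⟨T, hA⟩)
  · apply mem_of
    rw [hA]
    exact symm_mem (aU R) uE uF S hS
  · apply mem_of
    rw [hA]
    exact symm_mem (aL R) lE lF S hS
  · apply mem_of
    rw [hA]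
    exact hDT T

end GenMb

theorem t_genm (h : Pool.Agent.TH610.CSP.StGen) : StGENM := by
  intro g hg R h1 h2 h3 h4
  exact GenMb.main h hg R h1 h2 h3 h4

end Pool.Agent.TH933.SPC
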