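import Pool.Agent.TH933.SPC.Stm

/-! # SP-4 RED: one plane less -/

set_option autoImplicit false

open Matrix

namespace Pool.Agent.TH933.SPC

open Pool.Agent.TH610.CSP

namespace RED

variable {g : ℕ}

theorem symp_mul {A B : GG g} (hA : Symp A) (hB : Symp B) : Symp (A * B) := by
  unfold Symp at *
  rw [Units.val_mul, Matrix.transpose_mul]
  calc (A : MG g) * B * J (Fin g) ℤ * ((B : MG g)ᵀ * (A : MG g)ᵀ)
      = (A : MG g) * ((B : MG g) * J (Fin g) ℤ * (B : MG g)ᵀ) * (A : MG g)ᵀ := by
        simp only [Matrix.mul_assoc]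
    _ = J (Fin g) ℤ := by rw [hB, hA]

theorem symp_inv {A : GG g} (hA : Symp A) : Symp A⁻¹ := by
  unfold Symp at *
  have h1 : ((A⁻¹ : GG g) : MG g) * (A : MG g) = 1 := by
    rw [← Units.val_mul]; simp
  calc ((A⁻¹ : GG g) : MG g) * J (Fin g) ℤ * ((A⁻¹ : GG g) : MG g)ᵀ
      = ((A⁻¹ : GG g) : MG g) * ((A : MG g) * J (Fin g) ℤ * (A : MG g)ᵀ) *
          ((A⁻¹ : GG g) : MG g)ᵀ := by rw [hA]
    _ = (((A⁻¹ : GG g) : MG g) * (A : MG g)) * J (Fin g) ℤ *
          (((A⁻¹ : GG g) : MG g) * (A : MG g))ᵀ := by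
        rw [Matrix.transpose_mul]; simp only [Matrix.mul_assoc]
    _ = J (Fin g) ℤ := by rw [h1]; simp

theorem cong_iff {m : ℤ} {A : GG g} : CongG m A ↔ ∃ C : MG g, (A : MG g) = 1 + m • C := by
  constructor
  · intro h
    choose C hC using h
    refine ⟨Matrix.of C, ?_⟩
    ext i j
    rw [Matrix.add_apply, Matrix.smul_apply, Matrix.of_apply, smul_eq_mul, ← hC i j]
    ring
  · rintro ⟨C, hC⟩ i j
    rw [hC, Matrix.add_apply, Matrix.smul_apply, smul_eq_mul, add_sub_cancel_left]
    exact Dvd.intro _ rfl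

theorem cong_mul {m : ℤ} {A B : GG g} (hA : CongG m A) (hB : CongG m B) : CongG m (A * B) := by
  rw [cong_iff] at *
  obtain ⟨C, hC⟩ := hA
  obtain ⟨D, hD⟩ := hB
  refine ⟨C + D + C * (m • D), ?_⟩
  rw [Units.val_mul, hC, hD, Matrix.add_mul, Matrix.one_mul, Matrix.mul_add, Matrix.mul_one,
    smul_add, smul_add, Matrix.smul_mul]
  abel

theorem cong_inv {m : ℤ} {A : GG g} (hA : CongG m A) : CongG m A⁻¹ := by
  rw [cong_iff] at *
  obtain ⟨C, hC⟩ := hA
  refine ⟨-(((A⁻¹ : GG g) : MG g) * C), ?_⟩
  have h1 : ((A⁻¹ : GG g) : MG g) * (A : MG g) = 1 := by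
    rw [← Units.val_mul]; simp
  rw [hC, Matrix.mul_add, Matrix.mul_one, Matrix.mul_smul] at h1
  rw [smul_neg, ← h1]
  abel

theorem blk_mul {k : ℕ} {A B : GG g} (hA : BlkG k A) (hB : BlkG k B) : BlkG k (A * B) := by
  intro i j h
  rw [Units.val_mul, Matrix.mul_apply]
  rcases h with h | h
  · have : ∀ p, (A : MG g) i p * (B : MG g) p j = (1 : MG g) i p * (B : MG g) p j := fun p => by
      rw [hA i p (Or.inl h)]
    rw [Finset.sum_congr rfl fun p _ => this p, ← Matrix.mul_apply, Matrix.one_mul]
    exact hB i j (Or.inl h)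
  · have : ∀ p, (A : MG g) i p * (B : MG g) p j = (A : MG g) i p * (1 : MG g) p j := fun p => by
      rw [hB p j (Or.inr h)]
    rw [Finset.sum_congr rfl fun p _ => this p, ← Matrix.mul_apply, Matrix.mul_one]
    exact hA i j (Or.inr h)

theorem inv_cong {m : ℤ} {T : SLn g} (hT : Cong m T) : Cong m T⁻¹ := by
  intro i j
  have h1 : (T⁻¹).1 * T.1 = 1 := by
    have := congrArg Subtype.val (inv_mul_cancel T)
    exact this
  have h2 : (T⁻¹).1 - 1 = (T⁻¹).1 * (1 - T.1) := by
    rw [Matrix.mul_sub, Matrix.mul_one, h1]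
  have h3 : (T⁻¹).1 i j - (1 : Matrix (Fin g) (Fin g) ℤ) i j = ((T⁻¹).1 - 1) i j := rfl
  rw [h3, h2, Matrix.mul_apply]
  apply Finset.dvd_sum
  intro p _
  apply Dvd.dvd.mul_left
  have h4 : (1 - T.1) p j = -(T.1 p j - (1 : Matrix (Fin g) (Fin g) ℤ) p j) := by
    rw [Matrix.sub_apply]; ring
  rw [h4]
  exact (hT p j).neg_right

theorem cong_of_blocks {m : ℤ} {A : GG g} {P Q R S : Matrix (Fin g) (Fin g) ℤ}
    (hA : (A : MG g) = fromBlocks P Q R S) (hP : ∀ i j, m ∣ (P - 1) i j) (hQ : ∀ i j, m ∣ Q i j)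
    (hR : ∀ i j, m ∣ R i j) (hS : ∀ i j, m ∣ (S - 1) i j) : CongG m A := by
  intro i j
  rw [hA, ← fromBlocks_one]
  rcases i with i | i <;> rcases j with j | j
  · simpa using hP i j
  · simpa using hQ i j
  · simpa using hR i j
  · simpa using hS i j

theorem elm {m : ℤ} {A : GG g} (h : A ∈ ELm g m) : Symp A ∧ CongG m A := by
  induction h using Subgroup.closure_induction with
  | mem A hA =>
    rcases hA with ⟨S, hS, hA⟩ | ⟨S, hS, hA⟩ | ⟨T, hT, hA⟩ |
      ⟨i, a, b, c, d, ha, hb, hc, hd, hdet, hA⟩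
    · refine ⟨?_, cong_of_blocks hA (by simp) (fun i j => ?_) (by simp) (by simp)⟩
      · unfold Symp
        unfold IsU at hA
        have hS' : (m • S)ᵀ = m • S := by rw [Matrix.transpose_smul, hS]
        rw [hA, J]
        generalize m • S = S' at hS'
        rw [fromBlocks_transpose, fromBlocks_multiply, fromBlocks_multiply]
        simp [hS']
      · rw [Matrix.smul_apply, smul_eq_mul]; exact Dvd.intro _ rfl
    · refine ⟨?_, cong_of_blocks hA (by simp) (by simp) (fun i j => ?_) (by simp)⟩
      · unfold Symp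
        unfold IsL at hA
        have hS' : (m • S)ᵀ = m • S := by rw [Matrix.transpose_smul, hS]
        rw [hA, J]
        generalize m • S = S' at hS'
        rw [fromBlocks_transpose, fromBlocks_multiply, fromBlocks_multiply]
        simp [hS']
      · rw [Matrix.smul_apply, smul_eq_mul]; exact Dvd.intro _ rfl
    · refine ⟨?_, cong_of_blocks hA (fun i j => hT i j) (by simp) (by simp) (fun i j => ?_)⟩
      · unfold Symp
        unfold IsD at hA
        have h1 : T.1 * (T⁻¹).1 = 1 := congrArg Subtype.val (mul_inv_cancel T)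
        have h2 : ((T⁻¹).1)ᵀ * (T.1)ᵀ = 1 := by
          rw [← Matrix.transpose_mul, h1, Matrix.transpose_one]
        rw [hA, J, fromBlocks_transpose, fromBlocks_multiply, fromBlocks_multiply]
        simp only [Matrix.mul_zero, Matrix.zero_mul, add_zero, zero_add, Matrix.mul_neg,
          Matrix.mul_one, Matrix.transpose_transpose, Matrix.transpose_zero, Matrix.neg_mul, h1, h2,
          neg_zero]
      · have h1 := inv_cong hT j i
        rw [Matrix.sub_apply, Matrix.transpose_apply]
        have h2 : (1 : Matrix (Fin g) (Fin g) ℤ) j i = (1 : Matrix (Fin g) (Fin g) ℤ) i j := by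
          rw [Matrix.one_apply, Matrix.one_apply]
          simp only [eq_comm]
        rwa [h2] at h1
    · refine ⟨?_, cong_of_blocks hA (fun p q => ?_) (fun p q => ?_) (fun p q => ?_)
        (fun p q => ?_)⟩
      · unfold Symp
        unfold IsLam at hA
        have hs : ∀ x : ℤ, (Matrix.single i i x : Matrix (Fin g) (Fin g) ℤ) =
            x • Matrix.single i i 1 := fun x => by
          rw [Matrix.smul_single, smul_eq_mul, mul_one]
        have hE : (Matrix.single i i 1 : Matrix (Fin g) (Fin g) ℤ) * Matrix.single i i 1 =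
            Matrix.single i i 1 := by
          rw [Matrix.single_mul_single_same, mul_one]
        have hEt : (Matrix.single i i 1 : Matrix (Fin g) (Fin g) ℤ)ᵀ = Matrix.single i i 1 := by
          rw [Matrix.transpose_single]
        rw [hA, J, hs (a - 1), hs b, hs c, hs (d - 1)]
        generalize (Matrix.single i i 1 : Matrix (Fin g) (Fin g) ℤ) = E at hE hEt
        rw [fromBlocks_transpose, fromBlocks_multiply, fromBlocks_multiply]
        have hdet' : a * d = 1 + b * c := by linarith
        congr 1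
        · simp only [Matrix.mul_zero, Matrix.mul_one, zero_add, Matrix.transpose_add,
            Matrix.transpose_one, Matrix.transpose_smul, hEt, Matrix.mul_neg, add_zero,
            Matrix.neg_mul, Matrix.mul_add, Matrix.add_mul, Matrix.one_mul, Matrix.smul_mul,
            Matrix.mul_smul, hE, smul_smul]
          module
        · simp only [Matrix.mul_zero, Matrix.mul_one, zero_add, Matrix.transpose_add,
            Matrix.transpose_one, Matrix.transpose_smul, hEt, Matrix.mul_neg, add_zero,
            Matrix.neg_mul, Matrix.mul_add, Matrix.add_mul, Matrix.one_mul, Matrix.smul_mul,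
            Matrix.mul_smul, hE, smul_smul]
          have e : b * c = a * d - 1 := by linarith
          match_scalars <;> linarith
        · simp only [Matrix.mul_zero, Matrix.mul_one, zero_add, Matrix.transpose_add,
            Matrix.transpose_one, Matrix.transpose_smul, hEt, Matrix.mul_neg, add_zero,
            Matrix.neg_mul, Matrix.mul_add, Matrix.add_mul, Matrix.one_mul, Matrix.smul_mul,
            Matrix.mul_smul, hE, smul_smul]
          match_scalars <;> linarith
        · simp only [Matrix.mul_zero, Matrix.mul_one, zero_add, Matrix.transpose_add,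
            Matrix.transpose_one, Matrix.transpose_smul, hEt, Matrix.mul_neg, add_zero,
            Matrix.neg_mul, Matrix.mul_add, Matrix.add_mul, Matrix.one_mul, Matrix.smul_mul,
            Matrix.mul_smul, hE, smul_smul]
          module
      · rw [add_sub_cancel_left, Matrix.single_apply]
        split_ifs
        · exact ha
        · exact dvd_zero _
      · rw [Matrix.single_apply]
        split_ifs
        · exact hb
        · exact dvd_zero _
      · rw [Matrix.single_apply]
        split_ifs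
        · exact hc
        · exact dvd_zero _
      · rw [add_sub_cancel_left, Matrix.single_apply]
        split_ifs
        · exact hd
        · exact dvd_zero _
  | one => exact ⟨by unfold Symp; simp, fun i j => by simp⟩
  | mul A B _ _ hA hB => exact ⟨symp_mul hA.1 hB.1, cong_mul hA.2 hB.2⟩
  | inv A _ hA => exact ⟨symp_inv hA.1, cong_inv hA.2⟩

theorem symp' {A : GG g} (hA : Symp A) : (A : MG g)ᵀ * J (Fin g) ℤ * (A : MG g) = J (Fin g) ℤ :=
  SymplecticGroup.mem_iff'.1 (SymplecticGroup.mem_iff.2 hA)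

/-- if the column `inl k` is `e_k` then the row `inr k` is the row of the identity matrix -/
theorem row_inr {A : GG g} (hA : Symp A) (k : Fin g)
    (h : ∀ p, (A : MG g) p (Sum.inl k) = (1 : MG g) p (Sum.inl k)) (q : Fin g ⊕ Fin g) :
    (A : MG g) (Sum.inr k) q = (1 : MG g) (Sum.inr k) q := by
  have h1 := congrFun (congrFun (symp' hA) (Sum.inl k)) q
  rw [Matrix.mul_assoc, Matrix.mul_apply] at h1
  have h2 : ∀ p, (A : MG g)ᵀ (Sum.inl k) p * (J (Fin g) ℤ * (A : MG g)) p q =
      (if p = Sum.inl k then (J (Fin g) ℤ * (A : MG g)) p q else 0) := fun p => by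
    rw [Matrix.transpose_apply, h p, Matrix.one_apply]
    split_ifs <;> simp
  rw [Finset.sum_congr rfl fun p _ => h2 p, Finset.sum_ite_eq' Finset.univ (Sum.inl k),
    if_pos (Finset.mem_univ _), Matrix.mul_apply, Fintype.sum_sum_type] at h1
  unfold J at h1
  simp only [fromBlocks_apply₁₁, fromBlocks_apply₁₂, Matrix.zero_apply, zero_mul,
    Finset.sum_const_zero, zero_add, Matrix.neg_apply, Matrix.one_apply, neg_mul, ite_mul, one_mul,
    Finset.sum_neg_distrib, Finset.sum_ite_eq, Finset.mem_univ, if_true] at h1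
  rcases q with q | q
  · rw [fromBlocks_apply₁₁, Matrix.zero_apply] at h1
    rw [Matrix.one_apply, if_neg (by simp)]
    linarith
  · rw [fromBlocks_apply₁₂, Matrix.neg_apply, Matrix.one_apply] at h1
    rw [Matrix.one_apply]
    simp only [Sum.inr.injEq]
    linarith

/-- if the column `inr k` is `f_k` then the row `inl k` is the row of the identity matrix -/
theorem row_inl {A : GG g} (hA : Symp A) (k : Fin g)
    (h : ∀ p, (A : MG g) p (Sum.inr k) = (1 : MG g) p (Sum.inr k)) (q : Fin g ⊕ Fin g) :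
    (A : MG g) (Sum.inl k) q = (1 : MG g) (Sum.inl k) q := by
  have h1 := congrFun (congrFun (symp' hA) (Sum.inr k)) q
  rw [Matrix.mul_assoc, Matrix.mul_apply] at h1
  have h2 : ∀ p, (A : MG g)ᵀ (Sum.inr k) p * (J (Fin g) ℤ * (A : MG g)) p q =
      (if p = Sum.inr k then (J (Fin g) ℤ * (A : MG g)) p q else 0) := fun p => by
    rw [Matrix.transpose_apply, h p, Matrix.one_apply]
    split_ifs <;> simp
  rw [Finset.sum_congr rfl fun p _ => h2 p, Finset.sum_ite_eq' Finset.univ (Sum.inr k),
    if_pos (Finset.mem_univ _), Matrix.mul_apply, Fintype.sum_sum_type] at h1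
  unfold J at h1
  simp only [fromBlocks_apply₂₁, fromBlocks_apply₂₂, Matrix.zero_apply, zero_mul,
    Finset.sum_const_zero, add_zero, Matrix.one_apply, ite_mul, one_mul,
    Finset.sum_ite_eq, Finset.mem_univ, if_true] at h1
  rcases q with q | q
  · rw [fromBlocks_apply₂₁, Matrix.one_apply] at h1
    rw [Matrix.one_apply]
    simp only [Sum.inl.injEq]
    exact h1
  · rw [fromBlocks_apply₂₂, Matrix.zero_apply] at h1
    rw [Matrix.one_apply, if_neg (by simp)]
    exact h1

/-- the unit `(1 S; 0 1)` -/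
def uu (S : Matrix (Fin g) (Fin g) ℤ) : GG g where
  val := fromBlocks 1 S 0 1
  inv := fromBlocks 1 (-S) 0 1
  val_inv := by rw [fromBlocks_multiply]; simp
  inv_val := by rw [fromBlocks_multiply]; simp

/-- the unit `(T 0; 0 T⁻ᵀ)` -/
def dd (T : SLn g) : GG g where
  val := fromBlocks T.1 0 0 ((T⁻¹).1)ᵀ
  inv := fromBlocks (T⁻¹).1 0 0 (T.1)ᵀ
  val_inv := by
    have h1 : T.1 * (T⁻¹).1 = 1 := congrArg Subtype.val (mul_inv_cancel T)
    rw [fromBlocks_multiply, ← Matrix.transpose_mul, h1]; simp
  inv_val := by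
    have h1 : (T⁻¹).1 * T.1 = 1 := congrArg Subtype.val (inv_mul_cancel T)
    rw [fromBlocks_multiply, ← Matrix.transpose_mul, h1]; simp

/-- the matrix with the row `t` added to row `k` of the identity matrix -/
def tr (k : Fin g) (t : Fin g → ℤ) (ht : t k = 0) : SLn g :=
  ⟨1 + Matrix.vecMulVec (Pi.single k 1) t, by
    rw [Matrix.vecMulVec_eq Unit, Matrix.det_one_add_replicateCol_mul_replicateRow]
    simp [ht]⟩

theorem tr_apply (k : Fin g) (t : Fin g → ℤ) (ht : t k = 0) (i j : Fin g) :
    (tr k t ht).1 i j = (1 : Matrix (Fin g) (Fin g) ℤ) i j + if i = k then t j else 0 := by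
  show (1 + Matrix.vecMulVec (Pi.single k 1) t : Matrix (Fin g) (Fin g) ℤ) i j = _
  rw [Matrix.add_apply, Matrix.vecMulVec_apply, Pi.single_apply]
  split_ifs <;> simp

theorem tr_inv (k : Fin g) (t : Fin g → ℤ) (ht : t k = 0) (i j : Fin g) :
    ((tr k t ht)⁻¹).1 i j = (1 : Matrix (Fin g) (Fin g) ℤ) i j - if i = k then t j else 0 := by
  have ht' : (-t) k = 0 := by simp [ht]
  have h1 : tr k t ht * tr k (-t) ht' = 1 := by
    apply Subtype.ext
    show (1 + Matrix.vecMulVec (Pi.single k 1) t) * (1 + Matrix.vecMulVec (Pi.single k 1) (-t)) = 1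
    rw [Matrix.add_mul, Matrix.mul_add, Matrix.mul_add, Matrix.vecMulVec_mul_vecMulVec]
    simp [ht, Matrix.vecMulVec_neg]
  have h2 : (tr k t ht)⁻¹ = tr k (-t) ht' := inv_eq_of_mul_eq_one_right h1
  rw [h2, tr_apply]
  split_ifs <;> simp [sub_eq_add_neg]

end RED

open RED

/-- **SP-4 RED**: one plane less. -/
theorem t_red2 (h : StCOL) : StRED := by
  intro g k m hm A hA hC hB
  have e1 : ∀ i j : Fin g, (1 : MG g) (Sum.inl i) (Sum.inr j) = 0 := fun i j => by
    rw [Matrix.one_apply, if_neg (by simp)]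
  have e2 : ∀ i j : Fin g, (1 : MG g) (Sum.inr i) (Sum.inl j) = 0 := fun i j => by
    rw [Matrix.one_apply, if_neg (by simp)]
  have e3 : ∀ i j : Fin g, (1 : MG g) (Sum.inl i) (Sum.inl j) = if i = j then 1 else 0 :=
    fun i j => by
      rw [Matrix.one_apply]; simp only [Sum.inl.injEq]
  have e4 : ∀ i j : Fin g, (1 : MG g) (Sum.inr i) (Sum.inr j) = if i = j then 1 else 0 :=
    fun i j => by
      rw [Matrix.one_apply]; simp only [Sum.inr.injEq]
  -- step 1
  obtain ⟨B1, hB1, hB1b, hB1c⟩ := h g k m hm (fun j => (A : MG g) (Sum.inl j) (Sum.inl k))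
    (fun j => (A : MG g) (Sum.inr j) (Sum.inl k))
    (by
      intro j hj
      have h1 : (k : ℕ) + 1 ≤ (j : ℕ) := hj
      refine ⟨?_, ?_⟩
      · show (A : MG g) (Sum.inl j) (Sum.inl k) = 0
        rw [hB (Sum.inl j) (Sum.inl k) (Or.inl h1), e3, if_neg hj.ne']
      · show (A : MG g) (Sum.inr j) (Sum.inl k) = 0
        rw [hB (Sum.inr j) (Sum.inl k) (Or.inl h1), e2])
    (by
      have h1 := hC (Sum.inl k) (Sum.inl k)
      rwa [e3, if_pos rfl] at h1)
    (by
      intro j hj
      have h1 := hC (Sum.inl j) (Sum.inl k)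
      rwa [e3, if_neg hj, sub_zero] at h1)
    (by
      intro j
      have h1 := hC (Sum.inr j) (Sum.inl k)
      rwa [e2, sub_zero] at h1)
    (by
      refine ⟨fun j => ((A⁻¹ : GG g) : MG g) (Sum.inl k) (Sum.inl j),
        fun j => ((A⁻¹ : GG g) : MG g) (Sum.inl k) (Sum.inr j), ?_⟩
      have h1 : ((A⁻¹ : GG g) : MG g) * (A : MG g) = 1 := by
        rw [← Units.val_mul]; simp
      have h2 := congrFun (congrFun h1 (Sum.inl k)) (Sum.inl k)
      rw [Matrix.mul_apply, Fintype.sum_sum_type, e3, if_pos rfl] at h2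
      rw [Finset.sum_add_distrib]
      exact h2)
  obtain ⟨hS1, hC1⟩ := elm hB1
  set A1 : GG g := B1 * A with hA1def
  have hA1 : Symp A1 := symp_mul hS1 hA
  have hA1c : CongG m A1 := cong_mul hC1 hC
  have hA1b : BlkG ((k : ℕ) + 1) A1 := blk_mul hB1b hB
  have hcol1 : ∀ p, (A1 : MG g) p (Sum.inl k) = (1 : MG g) p (Sum.inl k) := by
    intro p
    have h1 := hB1c p
    rw [hA1def, Units.val_mul, Matrix.mul_apply, Matrix.one_apply, ← h1, Matrix.mulVec, dotProduct]
    refine Finset.sum_congr rfl fun q _ => ?_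
    rcases q with q | q <;> rfl
  have hrow1 := row_inr hA1 k hcol1
  -- step 2
  set t : Fin g → ℤ := fun j => if j = k then 0 else (A1 : MG g) (Sum.inr j) (Sum.inr k) with ht
  have htk : t k = 0 := by simp [ht]
  have htm : ∀ j, m ∣ t j := by
    intro j
    rw [ht]
    dsimp only
    split_ifs with hj
    · exact dvd_zero _
    · have h1 := hA1c (Sum.inr j) (Sum.inr k)
      rwa [e4, if_neg hj, sub_zero] at h1
  have htb : ∀ j : Fin g, (k : ℕ) + 1 ≤ (j : ℕ) → t j = 0 := by
    intro j hj
    have hne : j ≠ k := fun e => by rw [e] at hj; omega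
    rw [ht]
    dsimp only
    rw [if_neg hne, hA1b (Sum.inr j) (Sum.inr k) (Or.inl hj), e4, if_neg hne]
  set T : SLn g := tr k t htk with hT
  have hB2 : dd T ∈ ELm g m := by
    apply Subgroup.subset_closure
    refine Or.inr (Or.inr (Or.inl ⟨T, ?_, rfl⟩))
    intro i j
    rw [hT, tr_apply, add_sub_cancel_left]
    split_ifs
    · exact htm j
    · exact dvd_zero _
  obtain ⟨hS2, hC2⟩ := elm hB2
  have hv2 : ((dd T : GG g) : MG g) = fromBlocks T.1 0 0 ((T⁻¹).1)ᵀ := rfl
  have hB2b : BlkG ((k : ℕ) + 1) (dd T) := by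
    intro i j hij
    rw [hv2]
    rcases i with i | i <;> rcases j with j | j
    · rw [fromBlocks_apply₁₁, hT, tr_apply, e3, Matrix.one_apply]
      have : (if i = k then t j else 0) = 0 := by
        split_ifs with hi
        · rcases hij with h1 | h1
          · have h2 : (k : ℕ) + 1 ≤ (i : ℕ) := h1
            rw [hi] at h2; omega
          · exact htb j h1
        · rfl
      rw [this, add_zero]
    · rw [fromBlocks_apply₁₂, e1]; rfl
    · rw [fromBlocks_apply₂₁, e2]; rfl
    · rw [fromBlocks_apply₂₂, Matrix.transpose_apply, hT, tr_inv, e4, Matrix.one_apply]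
      have : (if j = k then t i else 0) = 0 := by
        split_ifs with hj
        · rcases hij with h1 | h1
          · exact htb i h1
          · have h2 : (k : ℕ) + 1 ≤ (j : ℕ) := h1
            rw [hj] at h2; omega
        · rfl
      rw [this, sub_zero]
      simp only [eq_comm]
  set A2 : GG g := dd T * A1 with hA2def
  have hA2 : Symp A2 := symp_mul hS2 hA1
  have hA2c : CongG m A2 := cong_mul hC2 hA1c
  have hA2b : BlkG ((k : ℕ) + 1) A2 := blk_mul hB2b hA1b
  have hcol2 : ∀ p, (A2 : MG g) p (Sum.inl k) = (1 : MG g) p (Sum.inl k) := by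
    intro p
    rw [hA2def, Units.val_mul, Matrix.mul_apply]
    have h1 : ∀ q, ((dd T : GG g) : MG g) p q * (A1 : MG g) q (Sum.inl k) =
        if q = Sum.inl k then ((dd T : GG g) : MG g) p q else 0 := fun q => by
      rw [hcol1 q, Matrix.one_apply]
      split_ifs <;> simp
    rw [Finset.sum_congr rfl fun q _ => h1 q, Finset.sum_ite_eq' Finset.univ (Sum.inl k),
      if_pos (Finset.mem_univ _), hv2]
    rcases p with p | p
    · rw [fromBlocks_apply₁₁, hT, tr_apply, htk, e3, Matrix.one_apply]
      simp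
    · rw [fromBlocks_apply₂₁, e2]; rfl
  have hy2 : ∀ i, (A2 : MG g) (Sum.inr i) (Sum.inr k) = if i = k then 1 else 0 := by
    intro i
    rw [hA2def, Units.val_mul, Matrix.mul_apply, Fintype.sum_sum_type, hv2]
    simp only [fromBlocks_apply₂₁, fromBlocks_apply₂₂, Matrix.zero_apply, zero_mul,
      Finset.sum_const_zero, zero_add, Matrix.transpose_apply, hT, tr_inv, sub_mul,
      Finset.sum_sub_distrib, Matrix.one_apply, ite_mul, one_mul, Finset.sum_ite_eq',
      Finset.mem_univ, if_true]
    rw [hrow1 (Sum.inr k), e4, if_pos rfl, mul_one]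
    by_cases hi : i = k
    · rw [hi, htk, if_pos rfl, sub_zero, hrow1 (Sum.inr k), e4, if_pos rfl]
    · rw [if_neg hi, ht]
      dsimp only
      rw [if_neg hi, sub_self]
  -- step 3
  have hxm : ∀ i, m ∣ (A2 : MG g) (Sum.inl i) (Sum.inr k) := by
    intro i
    have h1 := hA2c (Sum.inl i) (Sum.inr k)
    rwa [e1, sub_zero] at h1
  choose x hx using hxm
  have hm0 : m ≠ 0 := by omega
  have hxb : ∀ i : Fin g, (k : ℕ) + 1 ≤ (i : ℕ) → x i = 0 := by
    intro i hi
    have h1 := hA2b (Sum.inl i) (Sum.inr k) (Or.inl hi)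
    rw [e1, hx] at h1
    exact (mul_eq_zero.1 h1).resolve_left hm0
  set S : Matrix (Fin g) (Fin g) ℤ :=
    Matrix.of (fun i j => if j = k then -x i else if i = k then -x j else 0) with hS
  have hSap : ∀ i j, S i j = if j = k then -x i else if i = k then -x j else 0 := fun i j => rfl
  have hSt : Sᵀ = S := by
    ext i j
    rw [Matrix.transpose_apply, hSap, hSap]
    by_cases hi : i = k <;> by_cases hj : j = k
    · rw [if_pos hi, if_pos hj, hi, hj]
    · rw [if_pos hi, if_neg hj, if_pos hi]
    · rw [if_neg hi, if_pos hj, if_pos hj]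
    · rw [if_neg hi, if_neg hj, if_neg hj, if_neg hi]
  have hB3 : uu (m • S) ∈ ELm g m := by
    apply Subgroup.subset_closure
    exact Or.inl ⟨S, hSt, rfl⟩
  obtain ⟨hS3, hC3⟩ := elm hB3
  have hv3 : ((uu (m • S) : GG g) : MG g) = fromBlocks 1 (m • S) 0 1 := rfl
  have hB3b : BlkG ((k : ℕ) + 1) (uu (m • S)) := by
    intro i j hij
    rw [hv3]
    rcases i with i | i <;> rcases j with j | j
    · rw [fromBlocks_apply₁₁, e3, Matrix.one_apply]
    · rw [fromBlocks_apply₁₂, e1, Matrix.smul_apply, smul_eq_mul, hSap]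
      have : (if j = k then -x i else if i = k then -x j else 0) = 0 := by
        rcases hij with h1 | h1
        · have h2 : (k : ℕ) + 1 ≤ (i : ℕ) := h1
          have hne : i ≠ k := fun e => by rw [e] at h2; omega
          rw [if_neg hne, hxb i h2]
          split_ifs <;> simp
        · have h2 : (k : ℕ) + 1 ≤ (j : ℕ) := h1
          have hne : j ≠ k := fun e => by rw [e] at h2; omega
          rw [if_neg hne, hxb j h2]
          split_ifs <;> simp
      rw [this, mul_zero]
    · rw [fromBlocks_apply₂₁, e2]; rfl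
    · rw [fromBlocks_apply₂₂, e4, Matrix.one_apply]
  set A3 : GG g := uu (m • S) * A2 with hA3def
  have hA3 : Symp A3 := symp_mul hS3 hA2
  have hA3c : CongG m A3 := cong_mul hC3 hA2c
  have hA3b : BlkG ((k : ℕ) + 1) A3 := blk_mul hB3b hA2b
  have hcol3 : ∀ p, (A3 : MG g) p (Sum.inl k) = (1 : MG g) p (Sum.inl k) := by
    intro p
    rw [hA3def, Units.val_mul, Matrix.mul_apply]
    have h1 : ∀ q, ((uu (m • S) : GG g) : MG g) p q * (A2 : MG g) q (Sum.inl k) =
        if q = Sum.inl k then ((uu (m • S) : GG g) : MG g) p q else 0 := fun q => by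
      rw [hcol2 q, Matrix.one_apply]
      split_ifs <;> simp
    rw [Finset.sum_congr rfl fun q _ => h1 q, Finset.sum_ite_eq' Finset.univ (Sum.inl k),
      if_pos (Finset.mem_univ _), hv3]
    rcases p with p | p
    · rw [fromBlocks_apply₁₁, e3, Matrix.one_apply]
    · rw [fromBlocks_apply₂₁, e2]; rfl
  have hcol3' : ∀ p, (A3 : MG g) p (Sum.inr k) = (1 : MG g) p (Sum.inr k) := by
    intro p
    rw [hA3def, Units.val_mul, Matrix.mul_apply, Fintype.sum_sum_type, hv3]
    rcases p with p | p
    · simp only [fromBlocks_apply₁₁, fromBlocks_apply₁₂, Matrix.one_apply, ite_mul, one_mul,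
        zero_mul, Finset.sum_ite_eq, Finset.mem_univ, if_true, hy2, mul_ite, mul_one, mul_zero,
        Finset.sum_ite_eq', Matrix.smul_apply, smul_eq_mul, hSap, hx]
      rw [if_neg (by simp)]
      ring
    · simp only [fromBlocks_apply₂₁, fromBlocks_apply₂₂, Matrix.zero_apply, zero_mul,
        Finset.sum_const_zero, zero_add, Matrix.one_apply, ite_mul, one_mul,
        Finset.sum_ite_eq, Finset.mem_univ, if_true, hy2, Sum.inr.injEq]
  have hrow3 := row_inr hA3 k hcol3
  have hrow3' := row_inl hA3 k hcol3'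
  -- conclusion
  have hfin : uu (m • S) * dd T * B1 * A = A3 := by
    rw [hA3def, hA2def, hA1def]
    simp only [mul_assoc]
  refine ⟨uu (m • S) * dd T * B1, mul_mem (mul_mem hB3 hB2) hB1, ?_, ?_, ?_⟩
  · rw [hfin]; exact hA3
  · rw [hfin]; exact hA3c
  · rw [hfin]
    intro i j hij
    by_cases h1 : (k : ℕ) + 1 ≤ (Sum.elim id id i : Fin g).val ∨
        (k : ℕ) + 1 ≤ (Sum.elim id id j : Fin g).val
    · exact hA3b i j h1
    · push Not at h1
      rcases hij with h2 | h2
      · have h3 : (Sum.elim id id i : Fin g) = k := Fin.ext (by omega)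
        rcases i with i | i
        · have h4 : i = k := h3
          rw [h4]; exact hrow3' j
        · have h4 : i = k := h3
          rw [h4]; exact hrow3 j
      · have h3 : (Sum.elim id id j : Fin g) = k := Fin.ext (by omega)
        rcases j with j | j
        · have h4 : j = k := h3
          rw [h4]; exact hcol3 i
        · have h4 : j = k := h3
          rw [h4]; exact hcol3' i

end Pool.Agent.TH933.SPC
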