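import Pool.Agent.TH933.SPC.Stm

/-! # SP-1 SQ (job 5704, helper900): the square relation in the symplectic group -/

set_option autoImplicit false
set_option maxHeartbeats 400000

open Matrix

namespace Pool.Agent.TH933.SPC

open Pool.Agent.TH610.CSP

namespace SQ900

abbrev M2 : Type := Matrix (Fin 2) (Fin 2) ℤ
abbrev M4 : Type := Matrix (Fin 2 ⊕ Fin 2) (Fin 2 ⊕ Fin 2) ℤ

variable {g : ℕ}

/-- the inclusion of the plane spanned by the basis vectors `i`, `k` -/
def V (i k : Fin g) : Matrix (Fin g) (Fin 2) ℤ := fun r s => if r = ![i, k] s then 1 else 0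

theorem V_mul {i k : Fin g} (h : i ≠ k) : (V i k)ᵀ * V i k = 1 := by
  ext s s'
  rw [Matrix.mul_apply]
  have h' : k ≠ i := h.symm
  fin_cases s <;> fin_cases s' <;> simp [V, Matrix.transpose_apply, h, h']

/-- the inclusion of the four-dimensional space -/
def W (i k : Fin g) : Matrix (Fin g ⊕ Fin g) (Fin 2 ⊕ Fin 2) ℤ := fromBlocks (V i k) 0 0 (V i k)

theorem W_mul {i k : Fin g} (h : i ≠ k) : (W i k)ᵀ * W i k = 1 := by
  unfold W
  rw [fromBlocks_transpose, fromBlocks_multiply]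
  simp [V_mul h, ← fromBlocks_one]

/-- extension by the identity -/
def ph (i k : Fin g) (M : M2) : Matrix (Fin g) (Fin g) ℤ := 1 + V i k * (M - 1) * (V i k)ᵀ

theorem ph_mul {i k : Fin g} (h : i ≠ k) (M N : M2) : ph i k M * ph i k N = ph i k (M * N) := by
  unfold ph
  have e : V i k * (M - 1) * (V i k)ᵀ * (V i k * (N - 1) * (V i k)ᵀ) =
      V i k * ((M - 1) * (N - 1)) * (V i k)ᵀ := by
    calc V i k * (M - 1) * (V i k)ᵀ * (V i k * (N - 1) * (V i k)ᵀ) =
        V i k * (M - 1) * ((V i k)ᵀ * V i k) * (N - 1) * (V i k)ᵀ := by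
          simp only [Matrix.mul_assoc]
      _ = _ := by rw [V_mul h]; simp only [Matrix.mul_one, Matrix.mul_assoc]
  rw [add_mul, mul_add, mul_add, e, one_mul, one_mul, mul_one]
  have e2 : M * N - 1 = (M - 1) + (N - 1) + (M - 1) * (N - 1) := by noncomm_ring
  rw [e2, Matrix.mul_add, Matrix.mul_add, Matrix.add_mul, Matrix.add_mul]
  abel

theorem ph_one (i k : Fin g) : ph i k 1 = 1 := by
  unfold ph
  simp

theorem ph_det {i k : Fin g} (h : i ≠ k) (M : M2) : (ph i k M).det = M.det := by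
  unfold ph
  rw [Matrix.mul_assoc, Matrix.det_one_add_mul_comm, Matrix.mul_assoc, V_mul h, Matrix.mul_one]
  congr 1
  abel

theorem ph_trans (i k : Fin g) (M : M2) : (ph i k M)ᵀ = ph i k Mᵀ := by
  unfold ph
  rw [Matrix.transpose_add, Matrix.transpose_one, Matrix.transpose_mul, Matrix.transpose_mul,
    Matrix.transpose_transpose, Matrix.transpose_sub, Matrix.transpose_one, Matrix.mul_assoc]

/-- extension by the identity -/
def Ph {i k : Fin g} (h : i ≠ k) : M4 →* MG g where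
  toFun M := 1 + W i k * (M - 1) * (W i k)ᵀ
  map_one' := by simp
  map_mul' M N := by
    have e : W i k * (M - 1) * (W i k)ᵀ * (W i k * (N - 1) * (W i k)ᵀ) =
        W i k * ((M - 1) * (N - 1)) * (W i k)ᵀ := by
      calc W i k * (M - 1) * (W i k)ᵀ * (W i k * (N - 1) * (W i k)ᵀ) =
          W i k * (M - 1) * ((W i k)ᵀ * W i k) * (N - 1) * (W i k)ᵀ := by
            simp only [Matrix.mul_assoc]
        _ = _ := by rw [W_mul h]; simp only [Matrix.mul_one, Matrix.mul_assoc]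
    rw [add_mul, mul_add, mul_add, e, one_mul, one_mul, mul_one]
    have e2 : M * N - 1 = (M - 1) + (N - 1) + (M - 1) * (N - 1) := by noncomm_ring
    rw [e2, Matrix.mul_add, Matrix.mul_add, Matrix.add_mul, Matrix.add_mul]
    abel

theorem Ph_blocks {i k : Fin g} (h : i ≠ k) (A B C D : M2) :
    Ph h (fromBlocks A B C D) =
      fromBlocks (ph i k A) (V i k * B * (V i k)ᵀ) (V i k * C * (V i k)ᵀ) (ph i k D) := by
  show 1 + W i k * (fromBlocks A B C D - 1) * (W i k)ᵀ = _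
  have e1 : fromBlocks A B C D - 1 = fromBlocks (A - 1) B C (D - 1) := by
    rw [← fromBlocks_one, sub_eq_add_neg, fromBlocks_neg, fromBlocks_add]
    simp [sub_eq_add_neg]
  rw [e1]
  unfold W ph
  rw [fromBlocks_transpose, fromBlocks_multiply, fromBlocks_multiply, ← fromBlocks_one,
    fromBlocks_add]
  simp

def u4 (S : M2) : M4ˣ where
  val := fromBlocks 1 S 0 1
  inv := fromBlocks 1 (-S) 0 1
  val_inv := by rw [fromBlocks_multiply]; simp
  inv_val := by rw [fromBlocks_multiply]; simp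

def l4 (S : M2) : M4ˣ where
  val := fromBlocks 1 0 S 1
  inv := fromBlocks 1 0 (-S) 1
  val_inv := by rw [fromBlocks_multiply]; simp
  inv_val := by rw [fromBlocks_multiply]; simp

def d4 (N N' : M2) (h : N * N' = 1) : M4ˣ where
  val := fromBlocks N 0 0 N'ᵀ
  inv := fromBlocks N' 0 0 Nᵀ
  val_inv := by
    have h' : N' * N = 1 := _root_.mul_eq_one_comm.1 h
    rw [fromBlocks_multiply]
    simp [← Matrix.transpose_mul, h]
  inv_val := by
    have h' : N' * N = 1 := _root_.mul_eq_one_comm.1 h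
    rw [fromBlocks_multiply]
    simp [← Matrix.transpose_mul, h']

theorem isU {i k : Fin g} (h : i ≠ k) (S : M2) :
    IsU (V i k * S * (V i k)ᵀ) (Units.map (Ph h) (u4 S)) := by
  show Ph h (fromBlocks 1 S 0 1) = _
  rw [Ph_blocks, ph_one]
  simp

theorem isL {i k : Fin g} (h : i ≠ k) (S : M2) :
    IsL (V i k * S * (V i k)ᵀ) (Units.map (Ph h) (l4 S)) := by
  show Ph h (fromBlocks 1 0 S 1) = _
  rw [Ph_blocks, ph_one]
  simp

/-- the element of the special linear group -/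
def tt {i k : Fin g} (h : i ≠ k) (N : M2) (hN : N.det = 1) : SLn g := ⟨ph i k N, by rw [ph_det h, hN]⟩

theorem isD {i k : Fin g} (h : i ≠ k) (N N' : M2) (hN : N.det = 1) (hNN : N * N' = 1) :
    IsD (tt h N hN) (Units.map (Ph h) (d4 N N' hNN)) := by
  show Ph h (fromBlocks N 0 0 N'ᵀ) = _
  have hN' : N'.det = 1 := by
    have := congrArg Matrix.det hNN
    rw [Matrix.det_mul, hN, one_mul, Matrix.det_one] at this
    exact this
  have e : (tt h N hN)⁻¹ = tt h N' hN' := by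
    apply inv_eq_of_mul_eq_one_right
    apply Subtype.ext
    show ph i k N * ph i k N' = 1
    rw [ph_mul h, hNN, ph_one]
  rw [Ph_blocks, e]
  show _ = fromBlocks (ph i k N) 0 0 (ph i k N')ᵀ
  rw [ph_trans]
  simp

theorem symm2 (i k : Fin g) {S : M2} (hS : Sᵀ = S) :
    (V i k * S * (V i k)ᵀ)ᵀ = V i k * S * (V i k)ᵀ := by
  rw [Matrix.transpose_mul, Matrix.transpose_mul, Matrix.transpose_transpose, hS, Matrix.mul_assoc]

theorem single_i {i k : Fin g} (h : i ≠ k) (x : ℤ) :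
    V i k * !![x, 0; 0, 0] * (V i k)ᵀ = Matrix.single i i x := by
  ext r s
  rw [Matrix.mul_apply, Fin.sum_univ_two, Matrix.mul_apply, Matrix.mul_apply, Fin.sum_univ_two,
    Fin.sum_univ_two, Matrix.single_apply]
  by_cases h1 : r = i
  · by_cases h2 : s = i
    · subst h1; simp [V, h2]
    · subst h1; simp [V, h2, Ne.symm h2]
  · simp [V, h1, Ne.symm h1]

theorem single_k {i k : Fin g} (h : i ≠ k) (x : ℤ) :
    V i k * !![0, 0; 0, x] * (V i k)ᵀ = Matrix.single k k x := by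
  ext r s
  rw [Matrix.mul_apply, Fin.sum_univ_two, Matrix.mul_apply, Matrix.mul_apply, Fin.sum_univ_two,
    Fin.sum_univ_two, Matrix.single_apply]
  by_cases h1 : r = k
  · by_cases h2 : s = k
    · subst h1; simp [V, h2]
    · subst h1; simp [V, h2, Ne.symm h2]
  · simp [V, h1, Ne.symm h1]

theorem lam_i {i k : Fin g} (h : i ≠ k) (a b c d : ℤ) :
    Ph h (fromBlocks !![a, 0; 0, 1] !![b, 0; 0, 0] !![c, 0; 0, 0] !![d, 0; 0, 1]) =
      fromBlocks (1 + Matrix.single i i (a - 1)) (Matrix.single i i b)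
        (Matrix.single i i c) (1 + Matrix.single i i (d - 1)) := by
  rw [Ph_blocks, single_i h, single_i h]
  unfold ph
  have e : ∀ x : ℤ, (!![x, 0; 0, 1] : M2) - 1 = !![x - 1, 0; 0, 0] := by
    intro x
    ext r s
    fin_cases r <;> fin_cases s <;> simp
  rw [e, e, single_i h, single_i h]

theorem lam_k {i k : Fin g} (h : i ≠ k) (a b c d : ℤ) :
    Ph h (fromBlocks !![1, 0; 0, a] !![0, 0; 0, b] !![0, 0; 0, c] !![1, 0; 0, d]) =
      fromBlocks (1 + Matrix.single k k (a - 1)) (Matrix.single k k b)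
        (Matrix.single k k c) (1 + Matrix.single k k (d - 1)) := by
  rw [Ph_blocks, single_k h, single_k h]
  unfold ph
  have e : ∀ x : ℤ, (!![1, 0; 0, x] : M2) - 1 = !![0, 0; 0, x - 1] := by
    intro x
    ext r s
    fin_cases r <;> fin_cases s <;> simp
  rw [e, e, single_k h, single_k h]

theorem el_U {i k : Fin g} (h : i ≠ k) {S : M2} (hS : Sᵀ = S) :
    Units.map (Ph h) (u4 S) ∈ EL g :=
  Subgroup.subset_closure (Or.inl ⟨_, symm2 i k hS, isU h S⟩)

theorem el_L {i k : Fin g} (h : i ≠ k) {S : M2} (hS : Sᵀ = S) :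
    Units.map (Ph h) (l4 S) ∈ EL g :=
  Subgroup.subset_closure (Or.inr (Or.inl ⟨_, symm2 i k hS, isL h S⟩))

theorem el_D {i k : Fin g} (h : i ≠ k) (N N' : M2) (hN : N.det = 1) (hNN : N * N' = 1) :
    Units.map (Ph h) (d4 N N' hNN) ∈ EL g :=
  Subgroup.subset_closure (Or.inr (Or.inr ⟨_, isD h N N' hN hNN⟩))

/-- `2 × 2` matrices divisible by `m` -/
theorem dvd2 {m : ℤ} {S : M2} (hS : ∀ r s, m ∣ S r s) : ∃ S' : M2, S = m • S' := by
  choose f hf using hS
  refine ⟨fun r s => f r s, ?_⟩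
  ext r s
  rw [hf r s]
  rfl

theorem p_U {P : Subgroup (GG g)} {m : ℕ} (hP : Good P m) {i k : Fin g} (h : i ≠ k) {S : M2}
    (hS : Sᵀ = S) (hm : ∀ r s, (m : ℤ) ∣ S r s) : Units.map (Ph h) (u4 S) ∈ P := by
  obtain ⟨S', rfl⟩ := dvd2 hm
  have hm0 : (m : ℤ) ≠ 0 := by exact_mod_cast hP.pos.ne'
  have hS' : S'ᵀ = S' := by
    ext r s
    have h1 := congrFun (congrFun hS r) s
    simp only [Matrix.transpose_apply, Matrix.smul_apply, smul_eq_mul] at h1
    exact mul_left_cancel₀ hm0 h1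
  refine hP.hU _ (symm2 i k hS') _ ?_
  have := isU h ((m : ℤ) • S')
  rwa [Matrix.mul_smul, Matrix.smul_mul] at this

theorem p_D {P : Subgroup (GG g)} {m : ℕ} (hP : Good P m) {i k : Fin g} (h : i ≠ k) (N N' : M2)
    (hN : N.det = 1) (hNN : N * N' = 1) (hm : ∀ r s, (m : ℤ) ∣ (N - 1) r s) :
    Units.map (Ph h) (d4 N N' hNN) ∈ P := by
  refine hP.hD (tt h N hN) ?_ _ (isD h N N' hN hNN)
  obtain ⟨N1, hN1⟩ := dvd2 hm
  intro r s
  show (m : ℤ) ∣ (ph i k N) r s - (1 : Matrix (Fin g) (Fin g) ℤ) r s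
  unfold ph
  rw [hN1, Matrix.mul_smul, Matrix.smul_mul, Matrix.add_apply, add_sub_cancel_left,
    Matrix.smul_apply, smul_eq_mul]
  exact dvd_mul_right _ _

theorem eq2 {a b c d a' b' c' d' : ℤ} (h1 : a = a') (h2 : b = b') (h3 : c = c') (h4 : d = d') :
    (!![a, b; c, d] : M2) = !![a', b'; c', d'] := by rw [h1, h2, h3, h4]

theorem z2 : (0 : M2) = !![0, 0; 0, 0] := by
  ext r s
  fin_cases r <;> fin_cases s <;> rfl

theorem tr2 (a b c d : ℤ) : (!![a, b; c, d] : M2)ᵀ = !![a, c; b, d] := by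
  ext r s
  fin_cases r <;> fin_cases s <;> rfl

theorem add2 (a b c d a' b' c' d' : ℤ) : (!![a, b; c, d] : M2) + !![a', b'; c', d'] =
    !![a + a', b + b'; c + c', d + d'] := by
  ext r s
  fin_cases r <;> fin_cases s <;> rfl

end SQ900

open SQ900 in
theorem t_sq : StSQ := by
  intro g P m hP i k hik q a b c d hq ha hb hc hd hdet A B hA hB
  -- the elements
  have h1 : (!![1, q; 0, 1] : M2) * !![1, -q; 0, 1] = 1 := by
    ext r s
    fin_cases r <;> fin_cases s <;> simp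
  have h2 : (!![0, -1; 1, 0] : M2) * !![0, 1; -1, 0] = 1 := by
    ext r s
    fin_cases r <;> fin_cases s <;> simp
  have h3 : (!![a, q * b; q * c, d] : M2) * !![d, -(q * b); -(q * c), a] = 1 := by
    ext r s
    fin_cases r <;> fin_cases s <;> simp
    · linear_combination hdet
    · ring
    · ring
    · linear_combination hdet
  obtain ⟨γ, hγ⟩ : ∃ γ : M4ˣ, γ = d4 !![1, q; 0, 1] !![1, -q; 0, 1] h1 *
    (u4 !![1, 0; 0, 0] * l4 !![-1, 0; 0, 0] * u4 !![1, 0; 0, 0]) *
    d4 !![0, -1; 1, 0] !![0, 1; -1, 0] h2 := ⟨_, rfl⟩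
  obtain ⟨X, hX⟩ : ∃ X : M4ˣ, X = d4 !![a, q * b; q * c, d] !![d, -(q * b); -(q * c), a] h3 :=
    ⟨_, rfl⟩
  obtain ⟨Y, hY⟩ : ∃ Y : M4ˣ, Y = u4 !![-(b * d), q * b * c; q * b * c, -(a * c)] := ⟨_, rfl⟩
  have hsym : ∀ x : ℤ, (!![x, 0; 0, 0] : M2)ᵀ = !![x, 0; 0, 0] := by
    intro x
    ext r s
    fin_cases r <;> fin_cases s <;> simp
  have hγE : Units.map (Ph hik) γ ∈ EL g := by
    rw [hγ]
    simp only [map_mul]
    refine mul_mem (mul_mem (el_D hik _ _ ?_ h1) (mul_mem (mul_mem (el_U hik (hsym _))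
      (el_L hik (hsym _))) (el_U hik (hsym _)))) (el_D hik _ _ ?_ h2)
    · simp [Matrix.det_fin_two]
    · simp [Matrix.det_fin_two]
  have hXP : Units.map (Ph hik) X ∈ P := by
    rw [hX]
    refine p_D hP hik _ _ ?_ h3 ?_
    · rw [Matrix.det_fin_two]
      simp
      linear_combination hdet
    · intro r s
      fin_cases r <;> fin_cases s
      · simpa using ha
      · simpa using hb.mul_left q
      · simpa using hc.mul_left q
      · simpa using hd
  have hYP : Units.map (Ph hik) Y ∈ P := by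
    rw [hY]
    refine p_U hP hik ?_ ?_
    · ext r s
      fin_cases r <;> fin_cases s <;> simp
    · intro r s
      fin_cases r <;> fin_cases s
      · simpa using hb.mul_right d
      · simpa using (hb.mul_left q).mul_right c
      · simpa using (hb.mul_left q).mul_right c
      · simpa using hc.mul_left a
  -- the matrix of `γ`
  have hγv : (γ : M4) = fromBlocks !![q, 0; 1, 0] !![0, -1; 0, 0] !![0, 1; 0, -q] !![0, 0; 1, 0] := by
    rw [hγ]
    show fromBlocks !![1, q; 0, 1] 0 0 (!![1, -q; 0, 1])ᵀ * (fromBlocks 1 !![1, 0; 0, 0] 0 1 *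
      fromBlocks 1 0 !![-1, 0; 0, 0] 1 * fromBlocks 1 !![1, 0; 0, 0] 0 1) *
      fromBlocks !![0, -1; 1, 0] 0 0 (!![0, 1; -1, 0])ᵀ = _
    simp only [fromBlocks_multiply, Matrix.one_fin_two, z2, tr2, Matrix.mul_fin_two, add2]
    rw [Matrix.fromBlocks_inj]
    refine ⟨eq2 ?_ ?_ ?_ ?_, eq2 ?_ ?_ ?_ ?_, eq2 ?_ ?_ ?_ ?_, eq2 ?_ ?_ ?_ ?_⟩ <;> ring1
  have hXv : (X : M4) = fromBlocks !![a, q * b; q * c, d] 0 0 !![d, -(q * c); -(q * b), a] := by
    rw [hX]
    show fromBlocks _ 0 0 (!![d, -(q * b); -(q * c), a])ᵀ = _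
    rw [tr2]
  have hYv : (Y : M4) = fromBlocks 1 !![-(b * d), q * b * c; q * b * c, -(a * c)] 0 1 := by
    rw [hY]; rfl
  have hmat : (fromBlocks !![a, 0; 0, 1] !![q ^ 2 * b, 0; 0, 0] !![c, 0; 0, 0] !![d, 0; 0, 1] : M4) *
      fromBlocks !![1, 0; 0, a] !![0, 0; 0, -b] !![0, 0; 0, -(q ^ 2 * c)] !![1, 0; 0, d] *
      (γ : M4) = (γ : M4) * ((X : M4) * (Y : M4)) := by
    rw [hγv, hXv, hYv]
    simp only [fromBlocks_multiply, Matrix.one_fin_two, z2, Matrix.mul_fin_two, add2]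
    rw [Matrix.fromBlocks_inj]
    refine ⟨eq2 ?_ ?_ ?_ ?_, eq2 ?_ ?_ ?_ ?_, eq2 ?_ ?_ ?_ ?_, eq2 ?_ ?_ ?_ ?_⟩ <;>
      first
      | ring1
      | linear_combination b * hdet
      | linear_combination (q * b) * hdet
      | linear_combination c * hdet
      | linear_combination (-(q * c)) * hdet
      | linear_combination (q * c) * hdet
      | linear_combination (-b) * hdet
      | linear_combination (-c) * hdet
      | linear_combination (-(q * b)) * hdet
  have hkey : (A * B) * Units.map (Ph hik) γ =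
      Units.map (Ph hik) γ * (Units.map (Ph hik) X * Units.map (Ph hik) Y) := by
    apply Units.ext
    show (A : MG g) * (B : MG g) * Ph hik (γ : M4) =
      Ph hik (γ : M4) * (Ph hik (X : M4) * Ph hik (Y : M4))
    have hA' : (A : MG g) = _ := hA
    have hB' : (B : MG g) = _ := hB
    rw [hA', hB', ← lam_i hik, ← lam_k hik, ← map_mul, ← map_mul, ← map_mul, ← map_mul, hmat]
  have hfin : A * B = Units.map (Ph hik) γ * (Units.map (Ph hik) X * Units.map (Ph hik) Y) *
      (Units.map (Ph hik) γ)⁻¹ := by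
    rw [← hkey, mul_assoc, mul_inv_cancel, mul_one]
  rw [hfin]
  exact hP.norm _ hγE _ (mul_mem hXP hYP)

end Pool.Agent.TH933.SPC
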