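import Pool.Agent.TH933.SPC.Stm

/-! # SP-2: the planes -/

set_option autoImplicit false

open Matrix

namespace Pool.Agent.TH933.SPC

open Pool.Agent.TH610.CSP

namespace SYMf

variable {g : ℕ}

/-- the plane matrix -/
def lamM (i : Fin g) (a b c d : ℤ) : MG g :=
  fromBlocks (1 + Matrix.single i i (a - 1)) (Matrix.single i i b)
    (Matrix.single i i c) (1 + Matrix.single i i (d - 1))

theorem lamM_one (i : Fin g) : lamM i 1 0 0 1 = 1 := by
  unfold lamM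
  rw [sub_self, Matrix.single_zero, add_zero, fromBlocks_one]

theorem blkA (i : Fin g) (x y z w : ℤ) :
    (1 + Matrix.single i i x) * (1 + Matrix.single i i y) +
      Matrix.single i i z * Matrix.single i i w =
      1 + Matrix.single i i (x + y + x * y + z * w) := by
  rw [add_mul, one_mul, mul_add, mul_one, single_mul_single_same, single_mul_single_same,
    Matrix.single_add, Matrix.single_add, Matrix.single_add]
  abel

theorem blkB (i : Fin g) (x y z w : ℤ) :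
    (1 + Matrix.single i i x) * Matrix.single i i y +
      Matrix.single i i z * (1 + Matrix.single i i w) =
      Matrix.single i i (y + x * y + z + z * w) := by
  rw [add_mul, one_mul, mul_add, mul_one, single_mul_single_same, single_mul_single_same,
    Matrix.single_add, Matrix.single_add, Matrix.single_add]
  abel

theorem lamM_mul (i : Fin g) (a b c d a' b' c' d' : ℤ) :
    lamM i a b c d * lamM i a' b' c' d' =
      lamM i (a * a' + b * c') (a * b' + b * d') (c * a' + d * c') (c * b' + d * d') := by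
  unfold lamM
  rw [fromBlocks_multiply]
  congr 1
  · rw [blkA]
    congr 2
    ring
  · rw [blkB]
    congr 1
    ring
  · rw [add_comm, blkB]
    congr 1
    ring
  · rw [add_comm, blkA]
    congr 2
    ring

/-- the group of the plane -/
abbrev SL2 : Type := Matrix.SpecialLinearGroup (Fin 2) ℤ

/-- the embedding of the plane -/
def plM (i : Fin g) : SL2 →* MG g where
  toFun M := lamM i (M.1 0 0) (M.1 0 1) (M.1 1 0) (M.1 1 1)
  map_one' := lamM_one i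
  map_mul' M N := by
    have h : (M * N).1 = M.1 * N.1 := rfl
    rw [lamM_mul, h]
    simp only [Matrix.mul_apply, Fin.sum_univ_two]

/-- the embedding of the plane -/
def pl (i : Fin g) : SL2 →* GG g := (plM i).toHomUnits

/-- a matrix -/
def s2 (a b c d : ℤ) (h : a * d - b * c = 1) : SL2 :=
  ⟨!![a, b; c, d], by rw [Matrix.det_fin_two_of]; exact h⟩

theorem s2_mul {a b c d a' b' c' d' A B C D : ℤ} (h : a * d - b * c = 1)
    (h' : a' * d' - b' * c' = 1) (H : A * D - B * C = 1) (e1 : a * a' + b * c' = A)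
    (e2 : a * b' + b * d' = B) (e3 : c * a' + d * c' = C) (e4 : c * b' + d * d' = D) :
    s2 a b c d h * s2 a' b' c' d' h' = s2 A B C D H := by
  subst e1 e2 e3 e4
  apply Subtype.ext
  show !![a, b; c, d] * !![a', b'; c', d'] = _
  rw [Matrix.mul_fin_two]
  rfl

theorem isLam_pl (i : Fin g) (a b c d : ℤ) (h : a * d - b * c = 1) :
    IsLam i a b c d (pl i (s2 a b c d h)) := rfl

theorem eq_pl {i : Fin g} {a b c d : ℤ} (h : a * d - b * c = 1) {A : GG g}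
    (hA : IsLam i a b c d A) : A = pl i (s2 a b c d h) :=
  Units.ext (Eq.trans hA (isLam_pl i a b c d h).symm)

theorem memU {P : Subgroup (GG g)} {m : ℕ} (hP : Good P m) (i : Fin g) (t : ℤ)
    (h : 1 * 1 - (m : ℤ) * t * 0 = 1) : pl i (s2 1 (m * t) 0 1 h) ∈ P := by
  refine hP.hU (Matrix.single i i t) (Matrix.transpose_single _ _ _) _ ?_
  unfold IsU
  rw [show ((pl i (s2 1 (m * t) 0 1 h) : GG g) : MG g) = lamM i 1 (m * t) 0 1 from rfl]
  unfold lamM
  rw [sub_self, Matrix.single_zero, add_zero, Matrix.smul_single, smul_eq_mul]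

theorem memL {P : Subgroup (GG g)} {m : ℕ} (hP : Good P m) (i : Fin g) (t : ℤ)
    (h : 1 * 1 - 0 * ((m : ℤ) * t) = 1) : pl i (s2 1 0 (m * t) 1 h) ∈ P := by
  refine hP.hL (Matrix.single i i t) (Matrix.transpose_single _ _ _) _ ?_
  unfold IsL
  rw [show ((pl i (s2 1 0 (m * t) 1 h) : GG g) : MG g) = lamM i 1 0 (m * t) 1 from rfl]
  unfold lamM
  rw [sub_self, Matrix.single_zero, add_zero, Matrix.smul_single, smul_eq_mul]

theorem dirich (m : ℕ) (hm : 4 ∣ m) (hm0 : 0 < m) (a b : ℤ) (hb : b ≠ 0) (hcop : IsCoprime a b)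
    (ha : (m : ℤ) ^ 2 ∣ a - 1) : ∃ p : ℕ, p.Prime ∧ p % 4 = 3 ∧
      (∃ t : ℤ, -(p : ℤ) = a + t * (m * b)) ∧ ¬ (p : ℤ) ∣ m ∧ ¬ (p : ℤ) ∣ b := by
  have hm0' : (m : ℤ) ≠ 0 := by exact_mod_cast hm0.ne'
  have hne : (m : ℤ) * b ≠ 0 := mul_ne_zero hm0' hb
  have hcm : IsCoprime a (m : ℤ) := by
    obtain ⟨w, hw⟩ := ha
    refine ⟨1, -(m * w), ?_⟩
    linear_combination hw
  have hc2 : IsCoprime (-a) (((m * b : ℤ).natAbs : ℕ) : ℤ) := by
    rw [IsCoprime.neg_left_iff]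
    have h1 : IsCoprime a (m * b) := hcm.mul_right hcop
    rcases Int.natAbs_eq (m * b) with h | h
    · rw [← h]; exact h1
    · rw [h, IsCoprime.neg_right_iff] at h1
      exact h1
  obtain ⟨p, hpn, hpp, hpm⟩ := Nat.forall_exists_prime_gt_and_zmodEq (m * b : ℤ).natAbs
    (Int.natAbs_ne_zero.2 hne) hc2
  have hdvd : (m * b : ℤ) ∣ (-a - p) := by
    have h1 := hpm.dvd
    rwa [Int.natAbs_dvd] at h1
  obtain ⟨t, ht⟩ := hdvd
  have hnd : ¬ (p : ℤ) ∣ m * b := by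
    intro h1
    have h2 := Int.natAbs_dvd_natAbs.2 h1
    rw [Int.natAbs_natCast] at h2
    have h3 := Nat.le_of_dvd (Nat.pos_of_ne_zero (Int.natAbs_ne_zero.2 hne)) h2
    omega
  refine ⟨p, hpp, ?_, ⟨t, by linear_combination ht⟩, fun h => hnd (h.mul_right _),
    fun h => hnd (h.mul_left _)⟩
  obtain ⟨m4, rfl⟩ := hm
  obtain ⟨w, hw⟩ := ha
  have h4 : (4 : ℤ) ∣ (p : ℤ) + 1 := by
    refine ⟨-(4 * m4 ^ 2 * w) - m4 * b * t, ?_⟩
    push_cast at ht hw
    linear_combination -ht - hw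
  omega

theorem sq_rep (p : ℕ) [Fact p.Prime] (hp : p % 4 = 3) (m b : ℤ) (hm : ¬ (p : ℤ) ∣ m)
    (hb : ¬ (p : ℤ) ∣ b) :
    ∃ e q : ℤ, (e = 1 ∨ e = -1) ∧ q ≠ 0 ∧ (p : ℤ) ∣ e * m * q ^ 2 - b := by
  have hm' : (m : ZMod p) ≠ 0 := fun h => hm ((ZMod.intCast_zmod_eq_zero_iff_dvd m p).1 h)
  have hb' : (b : ZMod p) ≠ 0 := fun h => hb ((ZMod.intCast_zmod_eq_zero_iff_dvd b p).1 h)
  have hx0 : (b : ZMod p) * (m : ZMod p)⁻¹ ≠ 0 := mul_ne_zero hb' (inv_ne_zero hm')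
  have hne : ¬ IsSquare (-1 : ZMod p) := by
    rw [ZMod.exists_sq_eq_neg_one_iff]
    exact fun h => h hp
  have hor : IsSquare ((b : ZMod p) * (m : ZMod p)⁻¹) ∨
      IsSquare (-((b : ZMod p) * (m : ZMod p)⁻¹)) := by
    by_cases h1 : IsSquare ((b : ZMod p) * (m : ZMod p)⁻¹)
    · exact Or.inl h1
    · right
      rw [← quadraticChar_one_iff_isSquare (neg_ne_zero.2 hx0), ← neg_one_mul, map_mul,
        quadraticChar_neg_one_iff_not_isSquare.2 hne, quadraticChar_neg_one_iff_not_isSquare.2 h1]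
      norm_num
  have key : ∀ e : ℤ, ((e : ZMod p) * e = 1) → IsSquare ((e : ZMod p) *
      ((b : ZMod p) * (m : ZMod p)⁻¹)) → ∃ q : ℤ, q ≠ 0 ∧ (p : ℤ) ∣ e * m * q ^ 2 - b := by
    intro e he ⟨r, hr⟩
    obtain ⟨q, hq⟩ := ZMod.intCast_surjective r
    have h1 : (((e * m * q ^ 2 - b : ℤ)) : ZMod p) = 0 := by
      push_cast
      rw [hq, show (e : ZMod p) * m * r ^ 2 - b = e * m * (r * r) - b by ring, ← hr]
      have h2 : (e : ZMod p) * m * (e * (b * (m : ZMod p)⁻¹)) =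
        (e * e) * b * (m * (m : ZMod p)⁻¹) := by ring
      rw [h2, he, mul_inv_cancel₀ hm']
      ring
    have h3 := (ZMod.intCast_zmod_eq_zero_iff_dvd _ p).1 h1
    refine ⟨q, ?_, h3⟩
    rintro rfl
    apply hb
    have h4 : (p : ℤ) ∣ -b := by simpa using h3
    exact (dvd_neg.1 h4)
  rcases hor with h | h
  · obtain ⟨q, h1, h2⟩ := key 1 (by norm_num) (by simpa using h)
    exact ⟨1, q, Or.inl rfl, h1, h2⟩
  · obtain ⟨q, h1, h2⟩ := key (-1) (by norm_num) (by simpa using h)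
    exact ⟨-1, q, Or.inr rfl, h1, h2⟩

end SYMf

open SYMf

theorem t_sym (h : StSQ) : StSYM := by
  intro g P m hg hP i a b c d ha hb hc hd hdet A hA
  obtain ⟨k, hk⟩ : ∃ k : Fin g, i ≠ k := by
    have : Nontrivial (Fin g) := Fin.nontrivial_iff_two_le.2 hg
    obtain ⟨k, hk⟩ := exists_ne i
    exact ⟨k, hk.symm⟩
  rw [eq_pl hdet hA]
  have hm0 : 0 < m := hP.pos
  have hm0' : (0 : ℤ) < m := by exact_mod_cast hm0
  have hm4 : (4 : ℤ) ≤ m := by
    have := Nat.le_of_dvd hm0 hP.four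
    exact_mod_cast this
  have key : ∀ (q a b c d : ℤ), q ≠ 0 → (m : ℤ) ∣ a - 1 → (m : ℤ) ∣ b → (m : ℤ) ∣ c →
      (m : ℤ) ∣ d - 1 → a * d - q ^ 2 * b * c = 1 → ∀ (h2 : a * d - q ^ 2 * b * c = 1)
      (h3 : a * d - -b * -(q ^ 2 * c) = 1),
      pl i (s2 a (q ^ 2 * b) c d h2) * pl k (s2 a (-b) (-(q ^ 2 * c)) d h3) ∈ P :=
    fun q a b c d hq h1 h2 h3 h4 h5 h6 h7 =>
      h g P m hP i k hk q a b c d hq h1 h2 h3 h4 h5 _ _ (isLam_pl _ _ _ _ _ _)
        (isLam_pl _ _ _ _ _ _)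
  obtain ⟨wa, hwa⟩ := ha
  obtain ⟨wb, hwb⟩ := hb
  obtain ⟨wc, hwc⟩ := hc
  obtain ⟨wd, hwd⟩ := hd
  by_cases hb0 : b = 0
  · -- the case `b = 0`
    subst hb0
    have had : a * d = 1 := by linear_combination hdet
    have ha1 : a = 1 := by
      rcases Int.eq_one_or_neg_one_of_mul_eq_one had with h1 | h1
      · exact h1
      · exfalso
        rw [h1] at hwa
        have h2 : (m : ℤ) ^ 2 * (-wa) = 2 := by linear_combination hwa
        have h3 : (0 : ℤ) < -wa := by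
          by_contra hcon
          have : (m : ℤ) ^ 2 * (-wa) ≤ 0 :=
            mul_nonpos_of_nonneg_of_nonpos (by positivity) (not_lt.1 hcon)
          omega
        nlinarith
    subst ha1
    have hd1 : d = 1 := by linear_combination had
    subst hd1
    have h1 := memL hP i (m * wc) (by ring)
    have h2 : c = (m : ℤ) * (m * wc) := by rw [hwc]; ring
    subst h2
    exact h1
  -- the case `b ≠ 0`
  have hcop : IsCoprime a b := ⟨d, -c, by linear_combination hdet⟩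
  obtain ⟨p, hp, hp3, ⟨t, ht⟩, hpm, hpb⟩ := dirich m hP.four hm0 a b hb0 hcop ⟨wa, hwa⟩
  have : Fact p.Prime := ⟨hp⟩
  obtain ⟨e, q, he, hq0, hq⟩ := sq_rep p hp3 m b hpm hpb
  have hee : e * e = 1 := by rcases he with rfl | rfl <;> norm_num
  obtain ⟨s, hs⟩ := hq
  -- `m ∣ s`
  have hcpm : IsCoprime (m : ℤ) (p : ℤ) :=
    ((Int.prime_iff_natAbs_prime.2 (by simpa using hp)).coprime_iff_not_dvd.2 hpm).symm
  have hms : (m : ℤ) ∣ s := by
    refine hcpm.dvd_of_dvd_mul_left ?_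
    rw [← hs, hwb]
    refine dvd_sub ?_ ?_
    · exact Dvd.intro _ (show (m : ℤ) * (e * q ^ 2) = e * m * q ^ 2 by ring)
    · exact Dvd.intro _ (show (m : ℤ) * (m * wb) = (m : ℤ) ^ 2 * wb by ring)
  obtain ⟨s', hs'⟩ := hms
  -- the matrices
  have e1 : (1 : ℤ) * 1 - 0 * ((m : ℤ) * t) = 1 := by ring
  have e2 : (1 : ℤ) * 1 - (m : ℤ) * (-s') * 0 = 1 := by ring
  set c1 : ℤ := c + d * (m * t) with hc1
  set d2 : ℤ := c1 * (m * -s') + d with hd2
  have f1 : (-(p : ℤ)) * d - b * c1 = 1 := by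
    rw [hc1, ht]; linear_combination hdet
  have f2 : (-(p : ℤ)) * d2 - q ^ 2 * (e * m) * c1 = 1 := by
    rw [hd2]
    have hs2 : e * m * q ^ 2 = b + p * (m * s') := by rw [← hs']; linear_combination hs
    linear_combination f1 - c1 * hs2
  have g1 : s2 a b c d hdet * s2 1 0 (m * t) 1 e1 = s2 (-(p : ℤ)) b c1 d f1 := by
    refine s2_mul _ _ _ ?_ ?_ ?_ ?_
    · rw [ht]; ring
    · ring
    · rw [hc1]; ring
    · ring
  have g2 : s2 (-(p : ℤ)) b c1 d f1 * s2 1 (m * (-s')) 0 1 e2 =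
      s2 (-(p : ℤ)) (q ^ 2 * (e * m)) c1 d2 f2 := by
    refine s2_mul _ _ _ ?_ ?_ ?_ ?_
    · ring
    · rw [hs'] at hs; linear_combination -hs
    · ring
    · rw [hd2]; ring
  -- congruences
  have q1 : (m : ℤ) ∣ -(p : ℤ) - 1 :=
    ⟨m * wa + t * b, by rw [ht]; linear_combination hwa⟩
  have q2 : (m : ℤ) ∣ e * m := Dvd.intro_left _ rfl
  have q3 : (m : ℤ) ∣ c1 := ⟨m * wc + d * t, by rw [hc1, hwc]; ring⟩
  have q4 : (m : ℤ) ∣ d2 - 1 := by
    refine ⟨c1 * (-s') + m * wd, ?_⟩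
    rw [hd2]; linear_combination hwd
  -- the square relation
  have f3 : (-(p : ℤ)) * d2 - -(e * m) * -(q ^ 2 * c1) = 1 := by linear_combination f2
  have f4 : (-(p : ℤ)) * d2 - 1 ^ 2 * (e * m) * (q ^ 2 * c1) = 1 := by linear_combination f2
  have f5 : (-(p : ℤ)) * d2 - -(e * m) * -(1 ^ 2 * (q ^ 2 * c1)) = 1 := by linear_combination f2
  have r1 := key q (-(p : ℤ)) (e * m) c1 d2 hq0 q1 q2 q3 q4 f2 f2 f3
  have r2 := key 1 (-(p : ℤ)) (e * m) (q ^ 2 * c1) d2 one_ne_zero q1 q2 (q3.mul_left _) q4 f4 f4 f5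
  have g3 : s2 (-(p : ℤ)) (-(e * m)) (-(1 ^ 2 * (q ^ 2 * c1))) d2 f5 =
      s2 (-(p : ℤ)) (-(e * m)) (-(q ^ 2 * c1)) d2 f3 := by
    apply Subtype.ext
    show !![_, _; _, _] = !![_, _; _, _]
    rw [one_pow, one_mul]
  rw [g3] at r2
  -- the third matrix
  obtain ⟨w, hw⟩ : ∃ w : ℤ, 1 + (p : ℤ) = m ^ 2 * w := by
    refine ⟨-(wa + t * wb * m), ?_⟩
    linear_combination -ht - hwa - t * m * hwb
  have e3 : (1 : ℤ) * 1 - 0 * ((m : ℤ) * (e * w)) = 1 := by ring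
  obtain ⟨c1', hc1'⟩ := q3
  set c4' : ℤ := q ^ 2 * c1' + d2 * (e * w) with hc4
  have e4 : (1 : ℤ) * 1 - 0 * ((m : ℤ) * c4') = 1 := by ring
  have e5 : (1 : ℤ) * 1 - (m : ℤ) * e * 0 = 1 := by ring
  have f6 : (1 : ℤ) * d2 - e * m * (m * c4') = 1 := by
    rw [hc4]
    rw [hc1'] at f2
    linear_combination f2 + d2 * hw - d2 * m ^ 2 * w * hee
  have g4 : s2 (-(p : ℤ)) (1 ^ 2 * (e * m)) (q ^ 2 * c1) d2 f4 * s2 1 0 (m * (e * w)) 1 e3 =
      s2 1 (e * m) (m * c4') d2 f6 := by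
    refine s2_mul _ _ _ ?_ ?_ ?_ ?_
    · linear_combination m ^ 2 * w * hee - hw
    · ring
    · rw [hc4, hc1']; ring
    · ring
  have g5 : s2 1 0 (m * c4') 1 e4 * s2 1 (m * e) 0 1 e5 = s2 1 (e * m) (m * c4') d2 f6 := by
    refine s2_mul _ _ _ ?_ ?_ ?_ ?_
    · ring
    · ring
    · ring
    · linear_combination -f6
  have u1 : pl i (s2 1 (e * m) (m * c4') d2 f6) ∈ P := by
    rw [← g5, map_mul]
    exact P.mul_mem (memL hP i c4' e4) (memU hP i e e5)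
  have u2 : pl i (s2 (-(p : ℤ)) (1 ^ 2 * (e * m)) (q ^ 2 * c1) d2 f4) ∈ P := by
    rw [← g4, map_mul] at u1
    exact (P.mul_mem_cancel_right (memL hP i (e * w) e3)).1 u1
  have u3 : pl k (s2 (-(p : ℤ)) (-(e * m)) (-(q ^ 2 * c1)) d2 f3) ∈ P :=
    (P.mul_mem_cancel_left u2).1 r2
  have u4 : pl i (s2 (-(p : ℤ)) (q ^ 2 * (e * m)) c1 d2 f2) ∈ P :=
    (P.mul_mem_cancel_right u3).1 r1
  have u5 : pl i (s2 (-(p : ℤ)) b c1 d f1) ∈ P := by
    rw [← g2, map_mul] at u4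
    exact (P.mul_mem_cancel_right (memU hP i (-s') e2)).1 u4
  rw [← g1, map_mul] at u5
  exact (P.mul_mem_cancel_right (memL hP i t e1)).1 u5

end Pool.Agent.TH933.SPC
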