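import Pool.Agent.TH610.CSP.Arith
import Pool.Agent.TH610.CSP.Three2
import Pool.Agent.TH610.CSP.Two
import Pool.Agent.TH610.CSP.Red
import Pool.Agent.TH610.CSP.Gen
import Pool.Agent.TH610.CSP.Csp
import Pool.Agent.TH933.SPC.Fin
import Pool.Agent.TH933.SPC.SQ
import Pool.Agent.TH933.SPC.SYM
import Pool.Agent.TH933.SPC.COLb
import Pool.Agent.TH933.SPC.RED
import Pool.Agent.TH933.SPC.EXP
import Pool.Agent.TH933.SPC.GENM
import Pool.Agent.TH933.SPC.FORM
import Pool.Agent.TH933.SPC.TW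

/-! # Assembly: the congruence subgroup property of `Sp_{2g}(ℤ)`, `g ≥ 3`, and mapping class groups -/

set_option autoImplicit false

open Matrix

namespace Pool.Agent.TH933.SPC

open Pool.Agent.TH610.CSP Pool.Agent.TH933.JT

/-- the congruence subgroup property of `SL_n(ℤ)`, `n ≥ 3` -/
theorem sl : StCSP := Pool.Agent.TH610.CSP.t_csp (t_two (t_three' t_arith)) t_red

/-- the congruence subgroup property of `Sp_{2g}(ℤ)`, `g ≥ 3` -/
theorem sp : StSp := t_sp (t_sym t_sq) (t_red2 t_col) (t_exp sl)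

theorem genm : StGENM := t_genm (t_gen t_red)

/-- finite-index subgroups of mapping class groups -/
theorem mcg {g : ℕ} (hg : 3 ≤ g) (H : Subgroup (MulAut (SS g))) (hf : H.FiniteIndex) (c : ℕ)
    (h : Pool.Agent.TH933.JT.PC H c) :
    ∃ K : Subgroup (SS g), K.Characteristic ∧ K.FiniteIndex ∧ ∀ ψ, Tr K ψ → ψ ∈ H :=
  Fin.main sp genm t_form t_tw hg H hf c h

end Pool.Agent.TH933.SPC
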