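import Pool.Agent.TH933.SPC.Stm

/-! # SP-1 SQ: the square relation (job 5705, helper329) -/

set_option autoImplicit false

open Matrix

namespace Pool.Agent.TH933.SPC

open Pool.Agent.TH610.CSP

namespace SQb

variable {g : ℕ}

/-- a matrix supported on the indices `i`, `k` -/
def Nm (i k : Fin g) (α β γ δ : ℤ) : Matrix (Fin g) (Fin g) ℤ :=
  Matrix.single i i α + Matrix.single i k β + Matrix.single k i γ + Matrix.single k k δ

theorem Nm_apply (i k : Fin g) (α β γ δ : ℤ) (r s : Fin g) :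
    Nm i k α β γ δ r s = (if i = r ∧ i = s then α else 0) + (if i = r ∧ k = s then β else 0) +
      (if k = r ∧ i = s then γ else 0) + (if k = r ∧ k = s then δ else 0) := by
  unfold Nm
  simp only [Matrix.add_apply, Matrix.single_apply]

theorem Nm_zero (i k : Fin g) : Nm i k 0 0 0 0 = 0 := by
  unfold Nm
  simp

theorem Nm_T (i k : Fin g) (α β γ δ : ℤ) : (Nm i k α β γ δ)ᵀ = Nm i k α γ β δ := by
  unfold Nm
  simp only [Matrix.transpose_add, Matrix.transpose_single]
  abel

theorem Nm_smul (i k : Fin g) (m α β γ δ : ℤ) :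
    m • Nm i k α β γ δ = Nm i k (m * α) (m * β) (m * γ) (m * δ) := by
  unfold Nm
  simp only [smul_add, Matrix.smul_single, smul_eq_mul]

theorem Nm_mulVec (i k : Fin g) (α β γ δ : ℤ) (u : Fin g → ℤ) (r : Fin g) :
    (Nm i k α β γ δ *ᵥ u) r = (if r = i then α * u i + β * u k else 0) +
      (if r = k then γ * u i + δ * u k else 0) := by
  unfold Nm
  simp only [Matrix.add_mulVec, Matrix.single_mulVec, Pi.add_apply]
  by_cases h1 : r = i
  · by_cases h2 : r = k
    · subst h1; subst h2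
      simp
      ring
    · subst h1
      simp [h2]
  · by_cases h2 : r = k
    · subst h2
      simp [h1]
    · simp [h1, h2]

/-- the vector with the coordinates `p`, `q` (`r`, `s`) at `i`, `k` -/
def V (i k : Fin g) (x y : Fin g → ℤ) (p q r s : ℤ) : Fin g ⊕ Fin g → ℤ :=
  Sum.elim (fun j => if j = i then p else if j = k then q else x j)
    (fun j => if j = i then r else if j = k then s else y j)

theorem eq_V (i k : Fin g) (v : Fin g ⊕ Fin g → ℤ) :
    v = V i k (v ∘ Sum.inl) (v ∘ Sum.inr) (v (Sum.inl i)) (v (Sum.inl k)) (v (Sum.inr i))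
      (v (Sum.inr k)) := by
  funext j
  rcases j with j | j
  · show v (Sum.inl j) = if j = i then v (Sum.inl i) else if j = k then v (Sum.inl k) else
      v (Sum.inl j)
    split_ifs with h1 h2
    · rw [h1]
    · rw [h2]
    · rfl
  · show v (Sum.inr j) = if j = i then v (Sum.inr i) else if j = k then v (Sum.inr k) else
      v (Sum.inr j)
    split_ifs with h1 h2
    · rw [h1]
    · rw [h2]
    · rfl

theorem blk_V (i k : Fin g) (hik : i ≠ k) (x y : Fin g → ℤ)
    (a1 a2 a3 a4 b1 b2 b3 b4 c1 c2 c3 c4 d1 d2 d3 d4 p q r s : ℤ) :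
    (fromBlocks (1 + Nm i k a1 a2 a3 a4) (Nm i k b1 b2 b3 b4) (Nm i k c1 c2 c3 c4)
      (1 + Nm i k d1 d2 d3 d4)) *ᵥ V i k x y p q r s =
    V i k x y (p + (a1 * p + a2 * q) + (b1 * r + b2 * s)) (q + (a3 * p + a4 * q) + (b3 * r + b4 * s))
      (r + (c1 * p + c2 * q) + (d1 * r + d2 * s)) (s + (c3 * p + c4 * q) + (d3 * r + d4 * s)) := by
  rw [fromBlocks_mulVec, Matrix.add_mulVec, Matrix.add_mulVec, Matrix.one_mulVec,
    Matrix.one_mulVec]
  have hki : k ≠ i := hik.symm
  funext j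
  rcases j with j | j
  · simp only [Sum.elim_inl, Pi.add_apply, Nm_mulVec, Function.comp, V, Sum.elim_inr]
    by_cases h1 : j = i
    · subst h1
      simp only [if_true, if_neg hik, if_neg hki]
      ring
    · by_cases h2 : j = k
      · subst h2
        simp only [if_true, if_neg hik, if_neg hki]
        ring
      · simp only [if_neg h1, if_neg h2]
        ring
  · simp only [Sum.elim_inl, Pi.add_apply, Nm_mulVec, Function.comp, V, Sum.elim_inr]
    by_cases h1 : j = i
    · subst h1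
      simp only [if_true, if_neg hik, if_neg hki]
      ring
    · by_cases h2 : j = k
      · subst h2
        simp only [if_true, if_neg hik, if_neg hki]
        ring
      · simp only [if_neg h1, if_neg h2]
        ring

theorem det_blk (i k : Fin g) (hik : i ≠ k) (a b c d : ℤ) :
    (1 + Nm i k (a - 1) b c (d - 1)).det = a * d - b * c := by
  let P : Matrix (Fin g) (Fin 2) ℤ := Matrix.of fun r u => if u = 0 then (if r = i then 1 else 0)
    else (if r = k then 1 else 0)
  let Q : Matrix (Fin 2) (Fin g) ℤ := Matrix.of fun u s =>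
    if u = 0 then ((a - 1) * (if s = i then 1 else 0) + b * (if s = k then 1 else 0))
    else (c * (if s = i then 1 else 0) + (d - 1) * (if s = k then 1 else 0))
  have h1 : Nm i k (a - 1) b c (d - 1) = P * Q := by
    ext r s
    have hki : k ≠ i := hik.symm
    rw [Nm_apply, Matrix.mul_apply, Fin.sum_univ_two]
    simp only [P, Q, Matrix.of_apply, if_true, one_ne_zero, if_false]
    have fr : ∀ (x y : Fin g), (if x = y then (1 : ℤ) else 0) = if y = x then 1 else 0 := by
      intro x y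
      by_cases h : x = y
      · rw [if_pos h, if_pos h.symm]
      · rw [if_neg h, if_neg (fun h' => h h'.symm)]
    have g2 : ∀ (x y : Prop) [Decidable x] [Decidable y] (t : ℤ), (if x ∧ y then t else 0) =
        (if x then 1 else 0) * (if y then 1 else 0) * t := by
      intro x y _ _ t
      by_cases h : x <;> by_cases h' : y <;> simp [h, h']
    rw [g2, g2, g2, g2, fr r i, fr r k, fr s i, fr s k]
    ring
  rw [h1, det_one_add_mul_comm, Matrix.det_fin_two]
  have e : ∀ u v : Fin 2, (Q * P) u v = ∑ j, Q u j * P j v := fun u v => Matrix.mul_apply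
  have f : ∀ (α β : ℤ) (t : Fin g), ∑ j : Fin g, (α * (if j = i then 1 else 0) +
      β * (if j = k then 1 else 0)) * (if j = t then (1 : ℤ) else 0) =
      α * (if t = i then 1 else 0) + β * (if t = k then 1 else 0) := by
    intro α β t
    rw [Finset.sum_eq_single t]
    · simp
    · intro j _ hj
      simp [hj]
    · intro h
      exact absurd (Finset.mem_univ t) h
  simp only [Matrix.add_apply, e, P, Q, Matrix.of_apply, if_true, one_ne_zero, if_false, f,
    Matrix.one_apply_eq, hik, hik.symm, Matrix.one_apply, zero_ne_one]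
  ring

/-- the block `(a b; c d)` -/
def TT (i k : Fin g) (hik : i ≠ k) (a b c d : ℤ) (h : a * d - b * c = 1) : SLn g :=
  ⟨1 + Nm i k (a - 1) b c (d - 1), by rw [det_blk i k hik, h]⟩

theorem ext_V (i k : Fin g) {A B : Matrix (Fin g ⊕ Fin g) (Fin g ⊕ Fin g) ℤ}
    (h : ∀ x y p q r s, A *ᵥ V i k x y p q r s = B *ᵥ V i k x y p q r s) : A = B := by
  apply Matrix.mulVec_injective
  funext v
  rw [eq_V i k v]
  exact h _ _ _ _ _ _

theorem Nm_mul (i k : Fin g) (hik : i ≠ k) (a b c d a' b' c' d' : ℤ) :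
    (1 + Nm i k (a - 1) b c (d - 1)) * (1 + Nm i k (a' - 1) b' c' (d' - 1)) =
      1 + Nm i k (a * a' + b * c' - 1) (a * b' + b * d') (c * a' + d * c')
        (c * b' + d * d' - 1) := by
  apply Matrix.mulVec_injective
  funext u
  rw [← Matrix.mulVec_mulVec]
  simp only [Matrix.add_mulVec, Matrix.one_mulVec, Matrix.mulVec_add]
  funext r
  simp only [Pi.add_apply, Nm_mulVec]
  have hki : k ≠ i := hik.symm
  by_cases h1 : r = i
  · subst h1
    simp only [if_true, if_neg hik, if_neg hki]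
    ring
  · by_cases h2 : r = k
    · subst h2
      simp only [if_true, if_neg hik, if_neg hki]
      ring
    · simp only [if_neg h1, if_neg h2]
      ring

theorem TT_inv (i k : Fin g) (hik : i ≠ k) (a b c d : ℤ) (h : a * d - b * c = 1) :
    ((TT i k hik a b c d h)⁻¹).1 = 1 + Nm i k (d - 1) (-b) (-c) (a - 1) := by
  have h2 : d * a - (-b) * (-c) = 1 := by linarith
  have h1 : TT i k hik a b c d h * TT i k hik d (-b) (-c) a h2 = 1 := by
    apply Subtype.ext
    show (1 + Nm i k (a - 1) b c (d - 1)) * (1 + Nm i k (d - 1) (-b) (-c) (a - 1)) = 1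
    rw [Nm_mul i k hik]
    have e1 : a * d + b * -c - 1 = 0 := by linarith
    have e2 : a * -b + b * a = 0 := by ring
    have e3 : c * d + d * -c = 0 := by ring
    have e4 : c * -b + d * a - 1 = 0 := by linarith
    rw [e1, e2, e3, e4, Nm_zero, add_zero]
  rw [inv_eq_of_mul_eq_one_right h1]
  rfl

theorem ex_D (T : SLn g) : ∃ A : GG g, IsD T A := by
  have h1 : T.1 * (T⁻¹).1 = 1 := by
    have := congrArg Subtype.val (mul_inv_cancel T)
    exact this
  have h2 : (T⁻¹).1 * T.1 = 1 := by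
    have := congrArg Subtype.val (inv_mul_cancel T)
    exact this
  have h3 : ((T⁻¹).1)ᵀ * (T.1)ᵀ = 1 := by rw [← Matrix.transpose_mul, h1, Matrix.transpose_one]
  have h4 : (T.1)ᵀ * ((T⁻¹).1)ᵀ = 1 := by rw [← Matrix.transpose_mul, h2, Matrix.transpose_one]
  refine ⟨⟨fromBlocks T.1 0 0 ((T⁻¹).1)ᵀ, fromBlocks (T⁻¹).1 0 0 (T.1)ᵀ, ?_, ?_⟩, rfl⟩
  · rw [fromBlocks_multiply, h1, h3]
    simp
  · rw [fromBlocks_multiply, h2, h4]
    simp

theorem ex_U (S : Matrix (Fin g) (Fin g) ℤ) : ∃ A : GG g, IsU S A := by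
  refine ⟨⟨fromBlocks 1 S 0 1, fromBlocks 1 (-S) 0 1, ?_, ?_⟩, rfl⟩
  · rw [fromBlocks_multiply]
    simp
  · rw [fromBlocks_multiply]
    simp

theorem ex_L (S : Matrix (Fin g) (Fin g) ℤ) : ∃ A : GG g, IsL S A := by
  refine ⟨⟨fromBlocks 1 0 S 1, fromBlocks 1 0 (-S) 1, ?_, ?_⟩, rfl⟩
  · rw [fromBlocks_multiply]
    simp
  · rw [fromBlocks_multiply]
    simp

variable {i k : Fin g} (hik : i ≠ k)

include hik in
theorem U_V {α β γ δ : ℤ} {A : GG g} (h : IsU (Nm i k α β γ δ) A) (x y : Fin g → ℤ)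
    (p q r s : ℤ) : (A : MG g) *ᵥ V i k x y p q r s =
      V i k x y (p + (α * r + β * s)) (q + (γ * r + δ * s)) r s := by
  have e : (A : MG g) = fromBlocks (1 + Nm i k 0 0 0 0) (Nm i k α β γ δ) (Nm i k 0 0 0 0)
      (1 + Nm i k 0 0 0 0) := by
    rw [Nm_zero, add_zero]
    exact h
  rw [e, blk_V i k hik]
  congr 1 <;> ring

include hik in
theorem L_V {α β γ δ : ℤ} {A : GG g} (h : IsL (Nm i k α β γ δ) A) (x y : Fin g → ℤ)
    (p q r s : ℤ) : (A : MG g) *ᵥ V i k x y p q r s =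
      V i k x y p q (r + (α * p + β * q)) (s + (γ * p + δ * q)) := by
  have e : (A : MG g) = fromBlocks (1 + Nm i k 0 0 0 0) (Nm i k 0 0 0 0) (Nm i k α β γ δ)
      (1 + Nm i k 0 0 0 0) := by
    rw [Nm_zero, add_zero]
    exact h
  rw [e, blk_V i k hik]
  congr 1 <;> ring

theorem D_V {a b c d : ℤ} (h : a * d - b * c = 1) {A : GG g} (hA : IsD (TT i k hik a b c d h) A)
    (x y : Fin g → ℤ) (p q r s : ℤ) : (A : MG g) *ᵥ V i k x y p q r s =
      V i k x y (a * p + b * q) (c * p + d * q) (d * r - c * s) (a * s - b * r) := by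
  have e : (A : MG g) = fromBlocks (1 + Nm i k (a - 1) b c (d - 1)) (Nm i k 0 0 0 0)
      (Nm i k 0 0 0 0) (1 + Nm i k (d - 1) (-c) (-b) (a - 1)) := by
    have h1 : (A : MG g) = fromBlocks (TT i k hik a b c d h).1 0 0
      (((TT i k hik a b c d h)⁻¹).1)ᵀ := hA
    rw [h1, TT_inv, Nm_zero, Matrix.transpose_add, Matrix.transpose_one, Nm_T]
    rfl
  rw [e, blk_V i k hik]
  congr 1 <;> ring

include hik in
theorem Lami_V {a b c d : ℤ} {A : GG g} (hA : IsLam i a b c d A)
    (x y : Fin g → ℤ) (p q r s : ℤ) : (A : MG g) *ᵥ V i k x y p q r s =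
      V i k x y (a * p + b * r) q (c * p + d * r) s := by
  have e0 : ∀ t : ℤ, Nm i k t 0 0 0 = Matrix.single i i t := fun t => by
    unfold Nm
    simp
  have e : (A : MG g) = fromBlocks (1 + Nm i k (a - 1) 0 0 0) (Nm i k b 0 0 0)
      (Nm i k c 0 0 0) (1 + Nm i k (d - 1) 0 0 0) := by
    rw [e0, e0, e0, e0]
    exact hA
  rw [e, blk_V i k hik]
  congr 1 <;> ring

include hik in
theorem Lamk_V {a b c d : ℤ} {A : GG g} (hA : IsLam k a b c d A)
    (x y : Fin g → ℤ) (p q r s : ℤ) : (A : MG g) *ᵥ V i k x y p q r s =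
      V i k x y p (a * q + b * s) r (c * q + d * s) := by
  have e0 : ∀ t : ℤ, Nm i k 0 0 0 t = Matrix.single k k t := fun t => by
    unfold Nm
    simp
  have e : (A : MG g) = fromBlocks (1 + Nm i k 0 0 0 (a - 1)) (Nm i k 0 0 0 b)
      (Nm i k 0 0 0 c) (1 + Nm i k 0 0 0 (d - 1)) := by
    rw [e0, e0, e0, e0]
    exact hA
  rw [e, blk_V i k hik]
  congr 1 <;> ring

end SQb

open SQb in
theorem t_sq : StSQ := by
  intro g P m hP i k hik q a b c d _ ha hb hc hd hdet A B hA hB
  -- the elements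
  have hdT : a * d - (q * b) * (q * c) = 1 := by rw [← hdet]; ring
  obtain ⟨D1, hD1⟩ := ex_D (TT i k hik 1 q 0 1 (by ring))
  obtain ⟨D2, hD2⟩ := ex_D (TT i k hik 0 (-1) 1 0 (by ring))
  obtain ⟨D3, hD3⟩ := ex_D (TT i k hik a (q * b) (q * c) d hdT)
  obtain ⟨U1, hU1⟩ := ex_U (Nm i k 1 0 0 0)
  obtain ⟨L1, hL1⟩ := ex_L (Nm i k (-1) 0 0 0)
  obtain ⟨b', hb'⟩ := hb
  obtain ⟨c', hc'⟩ := hc
  obtain ⟨U3, hU3⟩ := ex_U ((m : ℤ) • Nm i k (-(b' * d)) (q * b' * c) (q * b' * c) (-(a * c')))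
  -- membership
  have mD : ∀ (T : SLn g) (X : GG g), IsD T X → X ∈ EL g := fun T X hX =>
    Subgroup.subset_closure (Or.inr (Or.inr ⟨T, hX⟩))
  have mU : U1 ∈ EL g := Subgroup.subset_closure (Or.inl ⟨_, Nm_T _ _ _ _ _ _, hU1⟩)
  have mL : L1 ∈ EL g := Subgroup.subset_closure (Or.inr (Or.inl ⟨_, Nm_T _ _ _ _ _ _, hL1⟩))
  have mG : D1 * (U1 * L1 * U1) * D2 ∈ EL g :=
    mul_mem (mul_mem (mD _ _ hD1) (mul_mem (mul_mem mU mL) mU)) (mD _ _ hD2)
  have mD3 : D3 ∈ P := by
    refine hP.hD _ (fun r s => ?_) _ hD3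
    show (m : ℤ) ∣ (1 + Nm i k (a - 1) (q * b) (q * c) (d - 1)) r s -
      (1 : Matrix (Fin g) (Fin g) ℤ) r s
    rw [Matrix.add_apply, add_sub_cancel_left, Nm_apply]
    have h1 : (m : ℤ) ∣ q * b := ⟨q * b', by rw [hb']; ring⟩
    have h2 : (m : ℤ) ∣ q * c := ⟨q * c', by rw [hc']; ring⟩
    refine dvd_add (dvd_add (dvd_add ?_ ?_) ?_) ?_
    · split_ifs
      · exact ha
      · exact dvd_zero _
    · split_ifs
      · exact h1
      · exact dvd_zero _
    · split_ifs
      · exact h2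
      · exact dvd_zero _
    · split_ifs
      · exact hd
      · exact dvd_zero _
  have mU3 : U3 ∈ P := hP.hU _ (Nm_T _ _ _ _ _ _) _ hU3
  rw [Nm_smul] at hU3
  -- the relation
  have key : (A * B) * (D1 * (U1 * L1 * U1) * D2) =
      (D1 * (U1 * L1 * U1) * D2) * (D3 * U3) := by
    apply Units.ext
    show ((A : MG g) * (B : MG g)) * ((D1 : MG g) * ((U1 : MG g) * (L1 : MG g) * (U1 : MG g)) *
      (D2 : MG g)) = ((D1 : MG g) * ((U1 : MG g) * (L1 : MG g) * (U1 : MG g)) * (D2 : MG g)) *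
      ((D3 : MG g) * (U3 : MG g))
    refine ext_V i k fun x y p t r s => ?_
    simp only [← Matrix.mulVec_mulVec, U_V hik hU1, L_V hik hL1, U_V hik hU3, D_V hik _ hD1,
      D_V hik _ hD2, D_V hik _ hD3, Lami_V hik hA, Lamk_V hik hB]
    subst hb'
    subst hc'
    have hdet' : a * d = 1 + q ^ 2 * (↑m * b') * (↑m * c') := by linarith
    congr 1
    · linear_combination (r * q * ↑m * b') * hdet'
    · linear_combination (r * ↑m * b') * hdet'
    · linear_combination (↑m * c' * s) * hdet'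
    · linear_combination (-(q * ↑m * c' * s)) * hdet'
  have h2 : A * B = (D1 * (U1 * L1 * U1) * D2) * (D3 * U3) * (D1 * (U1 * L1 * U1) * D2)⁻¹ :=
    eq_mul_inv_of_mul_eq key
  rw [h2]
  exact hP.norm _ mG _ (mul_mem mD3 mU3)

end Pool.Agent.TH933.SPC
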