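import Pool.Agent.TH610.CSP.Stm

/-! # The congruence subgroup property of `Sp_{2g}(ℤ)` and mapping class groups: the statements -/

set_option autoImplicit false

open Matrix

namespace Pool.Agent.TH933.SPC

open Pool.Agent.TH610.CSP

/-- integer matrices of size `2g`, in blocks of size `g` -/
abbrev MG (g : ℕ) : Type := Matrix (Fin g ⊕ Fin g) (Fin g ⊕ Fin g) ℤ

/-- invertible integer matrices of size `2g` -/
abbrev GG (g : ℕ) : Type := (MG g)ˣ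

variable {g : ℕ}

/-- `A = (1 S; 0 1)` -/
def IsU (S : Matrix (Fin g) (Fin g) ℤ) (A : GG g) : Prop := (A : MG g) = fromBlocks 1 S 0 1

/-- `A = (1 0; S 1)` -/
def IsL (S : Matrix (Fin g) (Fin g) ℤ) (A : GG g) : Prop := (A : MG g) = fromBlocks 1 0 S 1

/-- `A = (T 0; 0 T⁻ᵀ)` -/
def IsD (T : SLn g) (A : GG g) : Prop := (A : MG g) = fromBlocks T.1 0 0 ((T⁻¹).1)ᵀ

/-- `A` is `(a b; c d)` in the `i`-th plane -/
def IsLam (i : Fin g) (a b c d : ℤ) (A : GG g) : Prop :=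
  (A : MG g) = fromBlocks (1 + Matrix.single i i (a - 1)) (Matrix.single i i b)
    (Matrix.single i i c) (1 + Matrix.single i i (d - 1))

/-- the elementary symplectic group -/
def EL (g : ℕ) : Subgroup (GG g) :=
  Subgroup.closure {A | (∃ S : Matrix (Fin g) (Fin g) ℤ, Sᵀ = S ∧ IsU S A) ∨
    (∃ S : Matrix (Fin g) (Fin g) ℤ, Sᵀ = S ∧ IsL S A) ∨ ∃ T : SLn g, IsD T A}

/-- symplectic matrices -/
def Symp (A : GG g) : Prop := (A : MG g) * Matrix.J (Fin g) ℤ * (A : MG g)ᵀ = Matrix.J (Fin g) ℤ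

/-- `A ≡ 1` modulo `m` -/
def CongG (m : ℤ) (A : GG g) : Prop := ∀ i j, m ∣ (A : MG g) i j - (1 : MG g) i j

/-- elementary matrices of level `m` and matrices of level `m` in the planes -/
def ELm (g : ℕ) (m : ℤ) : Subgroup (GG g) :=
  Subgroup.closure {A | (∃ S : Matrix (Fin g) (Fin g) ℤ, Sᵀ = S ∧ IsU (m • S) A) ∨
    (∃ S : Matrix (Fin g) (Fin g) ℤ, Sᵀ = S ∧ IsL (m • S) A) ∨
    (∃ T : SLn g, Cong m T ∧ IsD T A) ∨
    ∃ (i : Fin g) (a b c d : ℤ), m ∣ a - 1 ∧ m ∣ b ∧ m ∣ c ∧ m ∣ d - 1 ∧ a * d - b * c = 1 ∧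
      IsLam i a b c d A}

/-- `A` agrees with the identity outside the planes `0, …, k-1` -/
def BlkG (k : ℕ) (A : GG g) : Prop :=
  ∀ i j : Fin g ⊕ Fin g, (k ≤ (Sum.elim id id i : Fin g).val ∨ k ≤ (Sum.elim id id j : Fin g).val) →
    (A : MG g) i j = (1 : MG g) i j

/-- the hypotheses on `P` -/
structure Good (P : Subgroup (GG g)) (m : ℕ) : Prop where
  pos : 0 < m
  four : 4 ∣ m
  norm : ∀ A ∈ EL g, ∀ B ∈ P, A * B * A⁻¹ ∈ P
  hU : ∀ S : Matrix (Fin g) (Fin g) ℤ, Sᵀ = S → ∀ A : GG g, IsU ((m : ℤ) • S) A → A ∈ P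
  hL : ∀ S : Matrix (Fin g) (Fin g) ℤ, Sᵀ = S → ∀ A : GG g, IsL ((m : ℤ) • S) A → A ∈ P
  hD : ∀ T : SLn g, Cong m T → ∀ A : GG g, IsD T A → A ∈ P

/-- SP-1 SQ: the square relation -/
def StSQ : Prop := ∀ (g : ℕ) (P : Subgroup (GG g)) (m : ℕ), Good P m → ∀ i k : Fin g, i ≠ k →
  ∀ q a b c d : ℤ, q ≠ 0 → (m : ℤ) ∣ a - 1 → (m : ℤ) ∣ b → (m : ℤ) ∣ c → (m : ℤ) ∣ d - 1 →
  a * d - q ^ 2 * b * c = 1 → ∀ A B : GG g, IsLam i a (q ^ 2 * b) c d A →
    IsLam k a (-b) (-(q ^ 2 * c)) d B → A * B ∈ P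

/-- SP-2 SYM: the planes -/
def StSYM : Prop := ∀ (g : ℕ) (P : Subgroup (GG g)) (m : ℕ), 2 ≤ g → Good P m → ∀ i : Fin g,
  ∀ a b c d : ℤ, (m : ℤ) ^ 2 ∣ a - 1 → (m : ℤ) ^ 2 ∣ b → (m : ℤ) ^ 2 ∣ c → (m : ℤ) ^ 2 ∣ d - 1 →
  a * d - b * c = 1 → ∀ A : GG g, IsLam i a b c d A → A ∈ P

/-- SP-3 COL: the first column, number theory. `x`, `y` are the coordinates of a unimodular vector
in the planes `0, …, k` with `(x; y) ≡ e_k` modulo `m`. -/
def StCOL : Prop := ∀ (g : ℕ) (k : Fin g) (m : ℤ), 2 ≤ m → ∀ x y : Fin g → ℤ,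
  (∀ j, k < j → x j = 0 ∧ y j = 0) → (m ∣ x k - 1) → (∀ j, j ≠ k → m ∣ x j) → (∀ j, m ∣ y j) →
  (∃ u v : Fin g → ℤ, ∑ j, (u j * x j + v j * y j) = 1) →
  ∃ B ∈ ELm g m, BlkG ((k : ℕ) + 1) B ∧ ∀ j,
    (B : MG g).mulVec (Sum.elim x y) j = if j = Sum.inl k then 1 else 0

/-- SP-4 RED: one plane less. -/
def StRED : Prop := ∀ (g : ℕ) (k : Fin g) (m : ℤ), 2 ≤ m → ∀ A : GG g, Symp A → CongG m A →
  BlkG ((k : ℕ) + 1) A → ∃ B ∈ ELm g m, Symp (B * A) ∧ CongG m (B * A) ∧ BlkG (k : ℕ) (B * A)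

/-- SP-5 EXP: powers and `SL_g(ℤ)`. -/
def StEXP : Prop := ∀ (g : ℕ), 3 ≤ g → ∀ P : Subgroup (GG g), (P.subgroupOf (EL g)).FiniteIndex →
  (∀ A ∈ EL g, ∀ B ∈ P, A * B * A⁻¹ ∈ P) → ∃ m : ℕ, Good P m

/-- SP-6: the congruence subgroup property of `Sp_{2g}(ℤ)`, `g ≥ 3`. -/
def StSp : Prop := ∀ (g : ℕ), 3 ≤ g → ∀ P : Subgroup (GG g), (P.subgroupOf (EL g)).FiniteIndex →
  (∀ A ∈ EL g, ∀ B ∈ P, A * B * A⁻¹ ∈ P) → ∃ m : ℕ, 0 < m ∧ ∀ A : GG g, Symp A → CongG m A → A ∈ P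

/-- SP-7 GEN: generation of `EL g`. -/
def StGENM : Prop := ∀ (g : ℕ), 3 ≤ g → ∀ R : Subgroup (GG g),
  (∀ (i : Fin g) (A : GG g), IsU (Matrix.single i i 1) A → A ∈ R) →
  (∀ (i : Fin g) (A : GG g), IsL (Matrix.single i i 1) A → A ∈ R) →
  (∀ (i j : Fin g) (A : GG g), (i : ℕ) + 1 = j → IsL (Matrix.single i j 1 + Matrix.single j i 1 -
    Matrix.single i i 1 - Matrix.single j j 1) A → A ∈ R) →
  (∀ (i j : Fin g) (A : GG g), (i : ℕ) + 1 = j → (A : MG g) =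
    fromBlocks ((Equiv.swap i j).permMatrix ℤ) 0 0 ((Equiv.swap i j).permMatrix ℤ) → A ∈ R) →
  EL g ≤ R

/-! ## Surface groups -/

/-- the relator -/
def rel (g : ℕ) : FreeGroup (Fin g ⊕ Fin g) :=
  (List.ofFn (fun i : Fin g =>
            FreeGroup.of (Sum.inl i : Fin g ⊕ Fin g) *
            FreeGroup.of (Sum.inr i : Fin g ⊕ Fin g) *
            (FreeGroup.of (Sum.inl i : Fin g ⊕ Fin g))⁻¹ *
            (FreeGroup.of (Sum.inr i : Fin g ⊕ Fin g))⁻¹)).prod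

/-- the fundamental group of the closed surface of genus `g` -/
abbrev SS (g : ℕ) : Type := PresentedGroup ({rel g} : Set (FreeGroup (Fin g ⊕ Fin g)))

theorem rel_comm {g : ℕ} {C : Type*} [CommGroup C] (f : Fin g ⊕ Fin g → C) :
    FreeGroup.lift f (rel g) = 1 := by
  unfold rel
  rw [map_list_prod]
  apply List.prod_eq_one
  intro x hx
  rw [List.mem_map] at hx
  obtain ⟨y, hy, rfl⟩ := hx
  rw [List.mem_ofFn] at hy
  obtain ⟨i, rfl⟩ := hy
  simp only [map_mul, map_inv, FreeGroup.lift_apply_of]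
  rw [mul_comm (f (Sum.inl i)) (f (Sum.inr i))]
  group

/-- the abelianization, `ab x` is the vector of exponent sums -/
def ab (g : ℕ) : SS g →* Multiplicative (Fin g ⊕ Fin g → ℤ) :=
  PresentedGroup.toGroup (f := fun j => Multiplicative.ofAdd (Pi.single j (1 : ℤ))) (by
    intro r hr
    rw [Set.mem_singleton_iff] at hr
    rw [hr]
    exact rel_comm _)

/-- the matrix of an endomorphism on the abelianization -/
def mx {g : ℕ} (ψ : MulAut (SS g)) : MG g :=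
  fun i j => Multiplicative.toAdd (ab g (ψ (PresentedGroup.of j))) i

theorem ab_mx {g : ℕ} (ψ : MulAut (SS g)) (x : SS g) :
    Multiplicative.toAdd (ab g (ψ x)) = (mx ψ).mulVec (Multiplicative.toAdd (ab g x)) := by
  -- both sides are homomorphisms in `x`
  let F1 : SS g →* Multiplicative (Fin g ⊕ Fin g → ℤ) := (ab g).comp ψ.toMonoidHom
  let F2 : SS g →* Multiplicative (Fin g ⊕ Fin g → ℤ) :=
    (AddMonoidHom.toMultiplicative (Matrix.mulVecLin (mx ψ)).toAddMonoidHom).comp (ab g)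
  have h : F1 = F2 := by
    apply PresentedGroup.ext
    intro j
    apply Multiplicative.toAdd.injective
    funext i
    show Multiplicative.toAdd (ab g (ψ (PresentedGroup.of j))) i =
      ((mx ψ).mulVec (Multiplicative.toAdd (ab g (PresentedGroup.of j)))) i
    have h1 : Multiplicative.toAdd (ab g (PresentedGroup.of j)) = Pi.single j (1 : ℤ) := by
      unfold ab
      rw [PresentedGroup.toGroup.of]
      rfl
    rw [h1, Matrix.mulVec_single_one]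
    rfl
  exact congrArg Multiplicative.toAdd (DFunLike.congr_fun h x)

theorem mx_one {g : ℕ} : mx (1 : MulAut (SS g)) = 1 := by
  ext i j
  unfold mx
  have h1 : Multiplicative.toAdd (ab g (PresentedGroup.of j)) = Pi.single j (1 : ℤ) := by
    unfold ab
    rw [PresentedGroup.toGroup.of]
    rfl
  rw [MulAut.one_apply, h1, Matrix.one_apply, Pi.single_apply]

theorem mx_mul {g : ℕ} (ψ φ : MulAut (SS g)) : mx (ψ * φ) = mx ψ * mx φ := by
  ext i j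
  show Multiplicative.toAdd (ab g ((ψ * φ) (PresentedGroup.of j))) i = _
  rw [MulAut.mul_apply, ab_mx]
  rfl

/-- the action of automorphisms on the abelianization -/
def act (g : ℕ) : MulAut (SS g) →* GG g :=
  MonoidHom.toHomUnits { toFun := mx, map_one' := mx_one, map_mul' := mx_mul }

theorem act_val {g : ℕ} (ψ : MulAut (SS g)) : (act g ψ : MG g) = mx ψ := rfl

/-- MC-1 FORM: automorphisms preserve the intersection form up to sign. -/
def StFORM : Prop := ∀ (g : ℕ) (ψ : MulAut (SS g)), CongG 3 (act g ψ) → Symp (act g ψ)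

/-- MC-2 TW: Dehn twists. -/
def StTW : Prop := ∀ (g : ℕ),
  (∀ i : Fin g, ∃ ψ : MulAut (SS g), IsU (Matrix.single i i 1) (act g ψ)) ∧
  (∀ i : Fin g, ∃ ψ : MulAut (SS g), IsL (Matrix.single i i 1) (act g ψ)) ∧
  (∀ i j : Fin g, (i : ℕ) + 1 = j → ∃ ψ : MulAut (SS g),
    IsL (Matrix.single i j 1 + Matrix.single j i 1 - Matrix.single i i 1 - Matrix.single j j 1)
      (act g ψ)) ∧
  (∀ i j : Fin g, (i : ℕ) + 1 = j → ∃ ψ : MulAut (SS g), (act g ψ : MG g) =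
    fromBlocks ((Equiv.swap i j).permMatrix ℤ) 0 0 ((Equiv.swap i j).permMatrix ℤ))

end Pool.Agent.TH933.SPC
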