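import Pool.Agent.TH933.SPC.Stm

/-! # MC-2 TW: Dehn twists and handle swaps (helper408) -/

set_option autoImplicit false

open Matrix

namespace Pool.Agent.TH933.SPC

namespace TWaux

variable {g : ℕ}

/-- the free group -/
abbrev FG (g : ℕ) : Type := FreeGroup (Fin g ⊕ Fin g)

/-- the projection -/
def mk (g : ℕ) : FG g →* SS g := PresentedGroup.mk _

theorem mk_rel : mk g (rel g) = 1 := PresentedGroup.one_of_mem rfl

theorem mk_of (j : Fin g ⊕ Fin g) : mk g (FreeGroup.of j) = PresentedGroup.of j := rfl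

theorem lift_mk (f : Fin g ⊕ Fin g → FG g) (w : FG g) :
    FreeGroup.lift (fun j => mk g (f j)) w = mk g (FreeGroup.lift f w) := by
  have h : FreeGroup.lift (fun j => mk g (f j)) = (mk g).comp (FreeGroup.lift f) := by
    apply FreeGroup.ext_hom
    intro a
    simp
  rw [h]; rfl

/-- the endomorphism -/
def en (f : Fin g ⊕ Fin g → FG g) (h : FreeGroup.lift f (rel g) = rel g) : SS g →* SS g :=
  PresentedGroup.toGroup (f := fun j => mk g (f j)) (by
    intro r hr
    rw [Set.mem_singleton_iff] at hr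
    rw [hr, lift_mk, h, mk_rel])

theorem en_mk (f : Fin g ⊕ Fin g → FG g) (h : FreeGroup.lift f (rel g) = rel g) (w : FG g) :
    en f h (mk g w) = mk g (FreeGroup.lift f w) := by
  have h1 : (en f h).comp (mk g) = (mk g).comp (FreeGroup.lift f) := by
    apply FreeGroup.ext_hom
    intro a
    show en f h (PresentedGroup.of a) = _
    rw [en, PresentedGroup.toGroup.of]
    simp
  exact DFunLike.congr_fun h1 w

theorem mkAut (f f' : Fin g ⊕ Fin g → FG g) (h1 : FreeGroup.lift f (rel g) = rel g)
    (h2 : FreeGroup.lift f' (rel g) = rel g) (h3 : ∀ j, FreeGroup.lift f (f' j) = FreeGroup.of j)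
    (h4 : ∀ j, FreeGroup.lift f' (f j) = FreeGroup.of j) :
    ∃ ψ : MulAut (SS g), ∀ j, ψ (PresentedGroup.of j) = mk g (f j) := by
  refine ⟨MonoidHom.toMulEquiv (en f h1) (en f' h2) ?_ ?_, ?_⟩
  · apply PresentedGroup.ext
    intro j
    show en f' h2 (en f h1 (PresentedGroup.of j)) = PresentedGroup.of j
    rw [← mk_of, en_mk, en_mk, FreeGroup.lift_apply_of, h4]
  · apply PresentedGroup.ext
    intro j
    show en f h1 (en f' h2 (PresentedGroup.of j)) = PresentedGroup.of j
    rw [← mk_of, en_mk, en_mk, FreeGroup.lift_apply_of, h3]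
  · intro j
    show en f h1 (PresentedGroup.of j) = _
    rw [← mk_of, en_mk, FreeGroup.lift_apply_of]

/-- exponent sums -/
def eh (w : FG g) : Fin g ⊕ Fin g → ℤ :=
  Multiplicative.toAdd (FreeGroup.lift
    (fun j => Multiplicative.ofAdd (Pi.single j (1 : ℤ) : Fin g ⊕ Fin g → ℤ)) w)

theorem eh_mul (x y : FG g) : eh (x * y) = eh x + eh y := by
  unfold eh; rw [map_mul, toAdd_mul]

theorem eh_inv (x : FG g) : eh x⁻¹ = -eh x := by
  unfold eh; rw [map_inv, toAdd_inv]

theorem eh_of (j : Fin g ⊕ Fin g) : eh (FreeGroup.of j) = Pi.single j 1 := by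
  unfold eh; rw [FreeGroup.lift_apply_of]; rfl

theorem ab_mk (w : FG g) : Multiplicative.toAdd (ab g (mk g w)) = eh w := by
  have h : (ab g).comp (mk g) = FreeGroup.lift
      (fun j => Multiplicative.ofAdd (Pi.single j (1 : ℤ) : Fin g ⊕ Fin g → ℤ)) := by
    apply FreeGroup.ext_hom
    intro a
    show ab g (PresentedGroup.of a) = _
    rw [ab, PresentedGroup.toGroup.of, FreeGroup.lift_apply_of]
  unfold eh
  rw [← h]
  rfl

theorem mx_eq (ψ : MulAut (SS g)) (f : Fin g ⊕ Fin g → FG g)
    (h : ∀ j, ψ (PresentedGroup.of j) = mk g (f j)) (s t : Fin g ⊕ Fin g) :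
    (act g ψ : MG g) s t = eh (f t) s := by
  rw [act_val, mx, h, ab_mk]

/-- the commutators of the relator -/
def km (f : Fin g ⊕ Fin g → FG g) (i : Fin g) : FG g :=
  f (Sum.inl i) * f (Sum.inr i) * (f (Sum.inl i))⁻¹ * (f (Sum.inr i))⁻¹

theorem lift_rel (f : Fin g ⊕ Fin g → FG g) :
    FreeGroup.lift f (rel g) = (List.ofFn (km f)).prod := by
  unfold rel
  rw [map_list_prod, List.map_ofFn]
  congr 2
  funext i
  simp [km]

theorem rel_eq : rel g = (List.ofFn (km (FreeGroup.of : Fin g ⊕ Fin g → FG g))).prod := rfl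

theorem prod_two {M : Type*} [Monoid M] : ∀ (n : ℕ) (u v : Fin n → M) (i j : Fin n),
    (i : ℕ) + 1 = j → (∀ k, k ≠ i → k ≠ j → u k = v k) → u i * u j = v i * v j →
    (List.ofFn u).prod = (List.ofFn v).prod := by
  intro n
  induction n with
  | zero => intro u v i; exact i.elim0
  | succ n ih =>
    intro u v i j hij hk h
    rw [List.ofFn_succ, List.ofFn_succ, List.prod_cons, List.prod_cons]
    refine Fin.cases (motive := fun i => (i : ℕ) + 1 = j → (∀ k, k ≠ i → k ≠ j → u k = v k) →
      u i * u j = v i * v j → _) ?_ ?_ i hij hk h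
    · intro hij hk h
      obtain ⟨m, rfl⟩ : ∃ m, n = m + 1 := ⟨n - 1, by have := j.2; simp at hij; omega⟩
      have hj : j = Fin.succ 0 := by
        apply Fin.ext; simp at hij ⊢; omega
      subst hj
      rw [List.ofFn_succ, List.ofFn_succ, List.prod_cons, List.prod_cons, ← mul_assoc,
        ← mul_assoc, h]
      congr 2
      congr 1
      funext k
      apply hk
      · exact Fin.succ_ne_zero _
      · intro h1
        exact Fin.succ_ne_zero _ (Fin.succ_injective _ h1)
    · intro i' hij hk h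
      have hj0 : j ≠ 0 := by
        intro h0; rw [h0] at hij; simp at hij
      obtain ⟨j', rfl⟩ := Fin.exists_succ_eq.2 hj0
      rw [hk 0 (Fin.succ_ne_zero _).symm (Fin.succ_ne_zero _).symm]
      congr 1
      refine ih (fun k => u k.succ) (fun k => v k.succ) i' j' ?_ ?_ h
      · simpa using hij
      · intro k h1 h2
        exact hk _ (fun h3 => h1 (Fin.succ_injective _ h3)) (fun h3 => h2 (Fin.succ_injective _ h3))

theorem rel_two (f : Fin g ⊕ Fin g → FG g) (i j : Fin g) (hij : (i : ℕ) + 1 = j)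
    (hk : ∀ k, k ≠ i → k ≠ j → km f k = km FreeGroup.of k)
    (h : km f i * km f j = km FreeGroup.of i * km FreeGroup.of j) :
    FreeGroup.lift f (rel g) = rel g := by
  rw [lift_rel, rel_eq]
  exact prod_two g _ _ i j hij hk h

theorem rel_one (f : Fin g ⊕ Fin g → FG g) (hk : ∀ k, km f k = km FreeGroup.of k) :
    FreeGroup.lift f (rel g) = rel g := by
  rw [lift_rel, rel_eq]
  congr 2
  funext k
  exact hk k

open FreeGroup in
theorem part1 (i : Fin g) : ∃ ψ : MulAut (SS g), IsU (Matrix.single i i 1) (act g ψ) := by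
  let f : Fin g ⊕ Fin g → FG g := Function.update of (Sum.inr i) (of (Sum.inr i) * of (Sum.inl i))
  let f' : Fin g ⊕ Fin g → FG g :=
    Function.update of (Sum.inr i) (of (Sum.inr i) * (of (Sum.inl i))⁻¹)
  obtain ⟨ψ, hψ⟩ := mkAut f f' (rel_one f (by
      intro k
      by_cases hk : k = i
      · subst hk
        simp [km, f]
        group
      · simp [km, f, hk])) (rel_one f' (by
      intro k
      by_cases hk : k = i
      · subst hk
        simp [km, f', mul_assoc]
      · simp [km, f', hk])) (by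
      rintro (k | k)
      · simp [f, f']
      · by_cases hk : k = i
        · subst hk; simp [f, f']
        · simp [f, f', hk]) (by
      rintro (k | k)
      · simp [f, f']
      · by_cases hk : k = i
        · subst hk; simp [f, f']
        · simp [f, f', hk])
  refine ⟨ψ, ?_⟩
  unfold IsU
  ext s t
  rw [mx_eq ψ f hψ]
  rcases t with k | k
  · rcases s with l | l <;> simp [f, eh_of, Pi.single_apply, Matrix.one_apply]
  · by_cases hk : k = i
    · subst hk
      rcases s with l | l
      · simp [f, eh_of, eh_mul, Pi.single_apply, Matrix.one_apply, Matrix.single_apply, eq_comm]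
      · simp [f, eh_of, eh_mul, Pi.single_apply, Matrix.one_apply]
    · rcases s with l | l
      · simp [f, hk, eh_of, Pi.single_apply, Matrix.single_apply, Ne.symm hk]
      · simp [f, hk, eh_of, Pi.single_apply, Matrix.one_apply]

open FreeGroup in
theorem part2 (i : Fin g) : ∃ ψ : MulAut (SS g), IsL (Matrix.single i i 1) (act g ψ) := by
  let f : Fin g ⊕ Fin g → FG g := Function.update of (Sum.inl i) (of (Sum.inl i) * of (Sum.inr i))
  let f' : Fin g ⊕ Fin g → FG g :=
    Function.update of (Sum.inl i) (of (Sum.inl i) * (of (Sum.inr i))⁻¹)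
  obtain ⟨ψ, hψ⟩ := mkAut f f' (rel_one f (by
      intro k
      by_cases hk : k = i
      · subst hk
        simp [km, f]
      · simp [km, f, hk])) (rel_one f' (by
      intro k
      by_cases hk : k = i
      · subst hk
        simp [km, f']
        group
      · simp [km, f', hk])) (by
      rintro (k | k)
      · by_cases hk : k = i
        · subst hk; simp [f, f']
        · simp [f, f', hk]
      · simp [f, f']) (by
      rintro (k | k)
      · by_cases hk : k = i
        · subst hk; simp [f, f']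
        · simp [f, f', hk]
      · simp [f, f'])
  refine ⟨ψ, ?_⟩
  unfold IsL
  ext s t
  rw [mx_eq ψ f hψ]
  rcases t with k | k
  · by_cases hk : k = i
    · subst hk
      rcases s with l | l
      · simp [f, eh_of, eh_mul, Pi.single_apply, Matrix.one_apply]
      · simp [f, eh_of, eh_mul, Pi.single_apply, Matrix.one_apply, Matrix.single_apply, eq_comm]
    · rcases s with l | l
      · simp [f, hk, eh_of, Pi.single_apply, Matrix.one_apply]
      · simp [f, hk, eh_of, Pi.single_apply, Matrix.single_apply, Ne.symm hk]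
  · rcases s with l | l <;> simp [f, eh_of, Pi.single_apply, Matrix.one_apply]

/-- the twist along the curve of `c` -/
def ft (i j : Fin g) (p : FG g) : Fin g ⊕ Fin g → FG g :=
  Function.update (Function.update (Function.update FreeGroup.of (Sum.inl i)
    (FreeGroup.of (Sum.inl i) * p)) (Sum.inr i) (p⁻¹ * FreeGroup.of (Sum.inr i) * p))
    (Sum.inl j) (p⁻¹ * FreeGroup.of (Sum.inl j))

/-- the word `c` -/
def cw (i j : Fin g) : FG g :=
  (FreeGroup.of (Sum.inr i))⁻¹ * FreeGroup.of (Sum.inl j) * FreeGroup.of (Sum.inr j) *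
    (FreeGroup.of (Sum.inl j))⁻¹

section
variable (i j : Fin g) (hij : i ≠ j) (p : FG g)
include hij

theorem ft_li : ft i j p (Sum.inl i) = FreeGroup.of (Sum.inl i) * p := by
  simp [ft, hij]

theorem ft_ri : ft i j p (Sum.inr i) = p⁻¹ * FreeGroup.of (Sum.inr i) * p := by
  simp [ft]

theorem ft_lj : ft i j p (Sum.inl j) = p⁻¹ * FreeGroup.of (Sum.inl j) := by
  simp [ft]

theorem ft_rj : ft i j p (Sum.inr j) = FreeGroup.of (Sum.inr j) := by
  simp [ft, hij.symm]

omit hij in
theorem ft_l (k : Fin g) (h1 : k ≠ i) (h2 : k ≠ j) :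
    ft i j p (Sum.inl k) = FreeGroup.of (Sum.inl k) := by
  simp [ft, h1, h2]

omit hij in
theorem ft_r (k : Fin g) (h1 : k ≠ i) : ft i j p (Sum.inr k) = FreeGroup.of (Sum.inr k) := by
  simp [ft, h1]

theorem ft_c : FreeGroup.lift (ft i j (cw i j)) (cw i j) = cw i j := by
  rw [cw]
  simp only [map_mul, map_inv, FreeGroup.lift_apply_of]
  rw [ft_ri i j hij, ft_lj i j hij, ft_rj i j hij]
  group

theorem ft_c' : FreeGroup.lift (ft i j (cw i j)⁻¹) (cw i j)⁻¹ = (cw i j)⁻¹ := by
  rw [cw]
  simp only [map_mul, map_inv, FreeGroup.lift_apply_of]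
  rw [ft_ri i j hij, ft_lj i j hij, ft_rj i j hij]
  group

theorem ft_ft (hp : FreeGroup.lift (ft i j p) p = p) (s : Fin g ⊕ Fin g) :
    FreeGroup.lift (ft i j p) (ft i j p⁻¹ s) = FreeGroup.of s := by
  rcases s with k | k
  · by_cases h1 : k = i
    · subst h1
      rw [ft_li k j hij, map_mul, map_inv, hp, FreeGroup.lift_apply_of, ft_li k j hij]
      group
    · by_cases h2 : k = j
      · subst h2
        rw [ft_lj i k hij, map_mul, map_inv, map_inv, hp, FreeGroup.lift_apply_of, ft_lj i k hij]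
        group
      · rw [ft_l i j _ k h1 h2, FreeGroup.lift_apply_of, ft_l i j _ k h1 h2]
  · by_cases h1 : k = i
    · subst h1
      rw [ft_ri k j hij, map_mul, map_mul, map_inv, map_inv, hp, FreeGroup.lift_apply_of,
        ft_ri k j hij]
      group
    · rw [ft_r i j _ k h1, FreeGroup.lift_apply_of, ft_r i j _ k h1]

theorem ft_rel (h : (i : ℕ) + 1 = j) (hp : p = cw i j ∨ p = (cw i j)⁻¹) :
    FreeGroup.lift (ft i j p) (rel g) = rel g := by
  apply rel_two _ i j h
  · intro k h1 h2
    rw [km, km, ft_l i j _ k h1 h2, ft_r i j _ k h1]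
  · rw [km, km, km, km, ft_li i j hij, ft_ri i j hij, ft_lj i j hij, ft_rj i j hij]
    rcases hp with rfl | rfl
    · rw [cw]; group
    · rw [cw]; group

end

theorem eh_cw (i j : Fin g) : eh (cw i j) = Pi.single (Sum.inr j) 1 - Pi.single (Sum.inr i) 1 := by
  rw [cw]
  simp only [eh_mul, eh_inv, eh_of]
  abel

theorem part3 (i j : Fin g) (h : (i : ℕ) + 1 = j) : ∃ ψ : MulAut (SS g),
    IsL (Matrix.single i j 1 + Matrix.single j i 1 - Matrix.single i i 1 - Matrix.single j j 1)
      (act g ψ) := by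
  have hij : i ≠ j := by
    rintro rfl; omega
  have hinv : ((cw i j)⁻¹)⁻¹ = cw i j := inv_inv _
  obtain ⟨ψ, hψ⟩ := mkAut (ft i j (cw i j)) (ft i j (cw i j)⁻¹)
    (ft_rel i j hij _ h (Or.inl rfl)) (ft_rel i j hij _ h (Or.inr rfl))
    (ft_ft i j hij _ (ft_c i j hij)) (by
      intro s
      have := ft_ft i j hij _ (ft_c' i j hij) s
      rwa [hinv] at this)
  refine ⟨ψ, ?_⟩
  unfold IsL
  ext s t
  rw [mx_eq ψ _ hψ]
  rcases t with k | k
  · by_cases h1 : k = i
    · subst h1
      rw [ft_li k j hij, eh_mul, eh_of, eh_cw]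
      rcases s with l | l
      · simp [Pi.single_apply, Matrix.one_apply]
      · simp [Pi.single_apply, Matrix.single_apply, hij, hij.symm, eq_comm]
    · by_cases h2 : k = j
      · subst h2
        rw [ft_lj i k hij, eh_mul, eh_inv, eh_of, eh_cw]
        rcases s with l | l
        · simp [Pi.single_apply, Matrix.one_apply]
        · simp [Pi.single_apply, Matrix.single_apply, hij, hij.symm, eq_comm]
      · rw [ft_l i j _ k h1 h2, eh_of]
        rcases s with l | l
        · simp [Pi.single_apply, Matrix.one_apply]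
        · simp [Matrix.single_apply, Ne.symm h1, Ne.symm h2]
  · by_cases h1 : k = i
    · subst h1
      rw [ft_ri k j hij, eh_mul, eh_mul, eh_inv, eh_of]
      rcases s with l | l
      · simp
      · simp [Pi.single_apply, Matrix.one_apply]
    · rw [ft_r i j _ k h1, eh_of]
      rcases s with l | l
      · simp
      · simp [Pi.single_apply, Matrix.one_apply]

/-- the handle swap -/
def fs (i j : Fin g) : Fin g ⊕ Fin g → FG g :=
  Function.update (Function.update (Function.update (Function.update FreeGroup.of (Sum.inl i)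
    (km FreeGroup.of i * FreeGroup.of (Sum.inl j) * (km FreeGroup.of i)⁻¹)) (Sum.inr i)
    (km FreeGroup.of i * FreeGroup.of (Sum.inr j) * (km FreeGroup.of i)⁻¹))
    (Sum.inl j) (FreeGroup.of (Sum.inl i))) (Sum.inr j) (FreeGroup.of (Sum.inr i))

/-- the inverse of the handle swap -/
def fs' (i j : Fin g) : Fin g ⊕ Fin g → FG g :=
  Function.update (Function.update (Function.update (Function.update FreeGroup.of (Sum.inl i)
    (FreeGroup.of (Sum.inl j))) (Sum.inr i) (FreeGroup.of (Sum.inr j)))
    (Sum.inl j) ((km FreeGroup.of j)⁻¹ * FreeGroup.of (Sum.inl i) * km FreeGroup.of j)) (Sum.inr j)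
    ((km FreeGroup.of j)⁻¹ * FreeGroup.of (Sum.inr i) * km FreeGroup.of j)

section
variable (i j : Fin g) (hij : i ≠ j)
include hij

theorem fs_li : fs i j (Sum.inl i) =
    km FreeGroup.of i * FreeGroup.of (Sum.inl j) * (km FreeGroup.of i)⁻¹ := by
  simp [fs, hij]

theorem fs_ri : fs i j (Sum.inr i) =
    km FreeGroup.of i * FreeGroup.of (Sum.inr j) * (km FreeGroup.of i)⁻¹ := by
  simp [fs, hij]

omit hij in
theorem fs_lj : fs i j (Sum.inl j) = FreeGroup.of (Sum.inl i) := by simp [fs]

omit hij in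
theorem fs_rj : fs i j (Sum.inr j) = FreeGroup.of (Sum.inr i) := by simp [fs]

omit hij in
theorem fs_l (k : Fin g) (h1 : k ≠ i) (h2 : k ≠ j) : fs i j (Sum.inl k) = FreeGroup.of (Sum.inl k) := by
  simp [fs, h1, h2]

omit hij in
theorem fs_r (k : Fin g) (h1 : k ≠ i) (h2 : k ≠ j) : fs i j (Sum.inr k) = FreeGroup.of (Sum.inr k) := by
  simp [fs, h1, h2]

theorem fs'_li : fs' i j (Sum.inl i) = FreeGroup.of (Sum.inl j) := by simp [fs', hij]

theorem fs'_ri : fs' i j (Sum.inr i) = FreeGroup.of (Sum.inr j) := by simp [fs', hij]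

omit hij in
theorem fs'_lj : fs' i j (Sum.inl j) =
    (km FreeGroup.of j)⁻¹ * FreeGroup.of (Sum.inl i) * km FreeGroup.of j := by simp [fs']

omit hij in
theorem fs'_rj : fs' i j (Sum.inr j) =
    (km FreeGroup.of j)⁻¹ * FreeGroup.of (Sum.inr i) * km FreeGroup.of j := by simp [fs']

omit hij in
theorem fs'_l (k : Fin g) (h1 : k ≠ i) (h2 : k ≠ j) :
    fs' i j (Sum.inl k) = FreeGroup.of (Sum.inl k) := by
  simp [fs', h1, h2]

omit hij in
theorem fs'_r (k : Fin g) (h1 : k ≠ i) (h2 : k ≠ j) :
    fs' i j (Sum.inr k) = FreeGroup.of (Sum.inr k) := by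
  simp [fs', h1, h2]

omit hij in
theorem lift_km (f : Fin g ⊕ Fin g → FG g) (k : Fin g) :
    FreeGroup.lift f (km FreeGroup.of k) = km f k := by
  simp [km]

omit hij in
theorem fs_kj : km (fs i j) j = km FreeGroup.of i := by
  rw [km, fs_lj, fs_rj]; rfl

theorem fs'_ki : km (fs' i j) i = km FreeGroup.of j := by
  rw [km, fs'_li i j hij, fs'_ri i j hij]; rfl

theorem fs_rel (h : (i : ℕ) + 1 = j) : FreeGroup.lift (fs i j) (rel g) = rel g := by
  apply rel_two _ i j h
  · intro k h1 h2
    rw [km, km, fs_l i j k h1 h2, fs_r i j k h1 h2]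
  · rw [fs_kj, km, fs_li i j hij, fs_ri i j hij]
    simp only [km]
    group

theorem fs'_rel (h : (i : ℕ) + 1 = j) : FreeGroup.lift (fs' i j) (rel g) = rel g := by
  apply rel_two _ i j h
  · intro k h1 h2
    rw [km, km, fs'_l i j k h1 h2, fs'_r i j k h1 h2]
  · rw [fs'_ki i j hij]
    rw [km, km, km, fs'_lj, fs'_rj]
    simp only [km]
    group

theorem fs_fs' (s : Fin g ⊕ Fin g) :
    FreeGroup.lift (fs i j) (fs' i j s) = FreeGroup.of s := by
  rcases s with k | k
  · by_cases h1 : k = i
    · subst h1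
      rw [fs'_li k j hij, FreeGroup.lift_apply_of, fs_lj]
    · by_cases h2 : k = j
      · subst h2
        rw [fs'_lj, map_mul, map_mul, map_inv, lift_km, fs_kj, FreeGroup.lift_apply_of,
          fs_li i k hij]
        group
      · rw [fs'_l i j k h1 h2, FreeGroup.lift_apply_of, fs_l i j k h1 h2]
  · by_cases h1 : k = i
    · subst h1
      rw [fs'_ri k j hij, FreeGroup.lift_apply_of, fs_rj]
    · by_cases h2 : k = j
      · subst h2
        rw [fs'_rj, map_mul, map_mul, map_inv, lift_km, fs_kj, FreeGroup.lift_apply_of,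
          fs_ri i k hij]
        group
      · rw [fs'_r i j k h1 h2, FreeGroup.lift_apply_of, fs_r i j k h1 h2]

theorem fs'_fs (s : Fin g ⊕ Fin g) :
    FreeGroup.lift (fs' i j) (fs i j s) = FreeGroup.of s := by
  rcases s with k | k
  · by_cases h1 : k = i
    · subst h1
      rw [fs_li k j hij, map_mul, map_mul, map_inv, lift_km, fs'_ki k j hij,
        FreeGroup.lift_apply_of, fs'_lj]
      group
    · by_cases h2 : k = j
      · subst h2
        rw [fs_lj, FreeGroup.lift_apply_of, fs'_li i k hij]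
      · rw [fs_l i j k h1 h2, FreeGroup.lift_apply_of, fs'_l i j k h1 h2]
  · by_cases h1 : k = i
    · subst h1
      rw [fs_ri k j hij, map_mul, map_mul, map_inv, lift_km, fs'_ki k j hij,
        FreeGroup.lift_apply_of, fs'_rj]
      group
    · by_cases h2 : k = j
      · subst h2
        rw [fs_rj, FreeGroup.lift_apply_of, fs'_ri i k hij]
      · rw [fs_r i j k h1 h2, FreeGroup.lift_apply_of, fs'_r i j k h1 h2]

end

theorem eh_km (i : Fin g) : eh (km (FreeGroup.of : _ → FG g) i) = 0 := by
  rw [km]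
  simp only [eh_mul, eh_inv, eh_of]
  abel

theorem part4 (i j : Fin g) (h : (i : ℕ) + 1 = j) : ∃ ψ : MulAut (SS g), (act g ψ : MG g) =
    fromBlocks ((Equiv.swap i j).permMatrix ℤ) 0 0 ((Equiv.swap i j).permMatrix ℤ) := by
  have hij : i ≠ j := by
    rintro rfl; omega
  obtain ⟨ψ, hψ⟩ := mkAut (fs i j) (fs' i j)
    (fs_rel i j hij h) (fs'_rel i j hij h) (fs_fs' i j hij) (fs'_fs i j hij)
  refine ⟨ψ, ?_⟩
  have hpm : ∀ a b : Fin g, (Equiv.swap i j).permMatrix ℤ a b =
      if Equiv.swap i j b = a then 1 else 0 := by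
    intro a b
    rw [Equiv.Perm.permMatrix, PEquiv.toMatrix_apply, Equiv.toPEquiv_apply]
    have : (b ∈ some (Equiv.swap i j a)) ↔ Equiv.swap i j b = a := by
      rw [Option.mem_some_iff]
      constructor
      · rintro rfl; simp
      · rintro rfl; simp
    simp only [this]
  ext s t
  rw [mx_eq ψ _ hψ]
  have key : ∀ t : Fin g ⊕ Fin g, eh (fs i j t) = Pi.single (Sum.map (Equiv.swap i j)
      (Equiv.swap i j) t) 1 := by
    rintro (k | k)
    · by_cases h1 : k = i
      · subst h1
        rw [fs_li k j hij, eh_mul, eh_mul, eh_inv, eh_of, eh_km]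
        simp
      · by_cases h2 : k = j
        · subst h2
          rw [fs_lj, eh_of]
          simp
        · rw [fs_l i j k h1 h2, eh_of]
          simp [Equiv.swap_apply_of_ne_of_ne h1 h2]
    · by_cases h1 : k = i
      · subst h1
        rw [fs_ri k j hij, eh_mul, eh_mul, eh_inv, eh_of, eh_km]
        simp
      · by_cases h2 : k = j
        · subst h2
          rw [fs_rj, eh_of]
          simp
        · rw [fs_r i j k h1 h2, eh_of]
          simp [Equiv.swap_apply_of_ne_of_ne h1 h2]
  rw [key]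
  rcases t with k | k <;> rcases s with l | l
  · rw [fromBlocks_apply₁₁, hpm]; simp [Pi.single_apply, eq_comm]
  · simp
  · simp
  · rw [fromBlocks_apply₂₂, hpm]; simp [Pi.single_apply, eq_comm]

end TWaux

theorem t_tw : StTW := fun _ =>
  ⟨TWaux.part1, TWaux.part2, TWaux.part3, TWaux.part4⟩

end Pool.Agent.TH933.SPC
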