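import Pool.Agent.TH933.SPC.Stm

/-! # Dehn twists and handle swaps as automorphisms of the surface group -/

set_option autoImplicit false

open Matrix

namespace Pool.Agent.TH933.SPC

open Pool.Agent.TH610.CSP

namespace TWb

variable {g : ℕ}

/-- the free group -/
abbrev FG (g : ℕ) : Type := FreeGroup (Fin g ⊕ Fin g)

/-- generator -/
abbrev ga (i : Fin g) : FG g := FreeGroup.of (Sum.inl i : Fin g ⊕ Fin g)

/-- generator -/
abbrev gb (i : Fin g) : FG g := FreeGroup.of (Sum.inr i : Fin g ⊕ Fin g)

/-- commutator -/
def cm (i : Fin g) : FG g := ga i * gb i * (ga i)⁻¹ * (gb i)⁻¹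

theorem rel_eq : rel g = (List.ofFn (fun i : Fin g => cm i)).prod := rfl

/-- the projection -/
abbrev mkS (g : ℕ) : FG g →* SS g := PresentedGroup.mk ({rel g} : Set (FG g))

theorem mk_rel : mkS g (rel g) = 1 :=
  (QuotientGroup.eq_one_iff _).mpr (Subgroup.subset_normalClosure rfl)

theorem lift_mk (f : Fin g ⊕ Fin g → FG g) (w : FG g) :
    FreeGroup.lift (fun j => mkS g (f j)) w = mkS g (FreeGroup.lift f w) := by
  have h : FreeGroup.lift (fun j => mkS g (f j)) = (mkS g).comp (FreeGroup.lift f) := by
    apply FreeGroup.ext_hom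
    intro j
    simp
  rw [h]
  rfl

/-- the endomorphism -/
def hom (f : Fin g ⊕ Fin g → FG g) (h : FreeGroup.lift f (rel g) = rel g) : SS g →* SS g :=
  PresentedGroup.toGroup (f := fun j => mkS g (f j)) (by
    intro r hr
    rw [Set.mem_singleton_iff] at hr
    rw [hr, lift_mk, h, mk_rel])

theorem hom_mk (f : Fin g ⊕ Fin g → FG g) (h : FreeGroup.lift f (rel g) = rel g) (w : FG g) :
    hom f h (mkS g w) = mkS g (FreeGroup.lift f w) := by
  rw [← lift_mk]
  rfl

theorem hom_comp (f f' : Fin g ⊕ Fin g → FG g) (h : FreeGroup.lift f (rel g) = rel g)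
    (h' : FreeGroup.lift f' (rel g) = rel g)
    (h1 : ∀ j, FreeGroup.lift f' (f j) = FreeGroup.of j) :
    (hom f' h').comp (hom f h) = MonoidHom.id _ := by
  apply PresentedGroup.ext
  intro j
  show hom f' h' (hom f h (mkS g (FreeGroup.of j))) = mkS g (FreeGroup.of j)
  rw [hom_mk, FreeGroup.lift_apply_of, hom_mk, h1]

/-- the automorphism -/
def aut (f f' : Fin g ⊕ Fin g → FG g) (h : FreeGroup.lift f (rel g) = rel g)
    (h' : FreeGroup.lift f' (rel g) = rel g)
    (h1 : ∀ j, FreeGroup.lift f' (f j) = FreeGroup.of j)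
    (h2 : ∀ j, FreeGroup.lift f (f' j) = FreeGroup.of j) : MulAut (SS g) :=
  MonoidHom.toMulEquiv (hom f h) (hom f' h') (hom_comp f f' h h' h1) (hom_comp f' f h' h h2)

/-- exponent sums -/
def ev (w : FG g) : Fin g ⊕ Fin g → ℤ :=
  Multiplicative.toAdd (FreeGroup.lift
    (fun j : Fin g ⊕ Fin g => Multiplicative.ofAdd (Pi.single j (1 : ℤ))) w)

theorem ev_mul (v w : FG g) : ev (v * w) = ev v + ev w := by
  unfold ev; rw [map_mul]; rfl

theorem ev_inv (v : FG g) : ev v⁻¹ = - ev v := by
  unfold ev; rw [map_inv]; rfl

theorem ev_of (j : Fin g ⊕ Fin g) : ev (FreeGroup.of j) = Pi.single j 1 := by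
  unfold ev; rw [FreeGroup.lift_apply_of]; rfl

theorem exists_aut (f f' : Fin g ⊕ Fin g → FG g) (h : FreeGroup.lift f (rel g) = rel g)
    (h' : FreeGroup.lift f' (rel g) = rel g)
    (h1 : ∀ j, FreeGroup.lift f' (f j) = FreeGroup.of j)
    (h2 : ∀ j, FreeGroup.lift f (f' j) = FreeGroup.of j) (M : MG g)
    (hM : ∀ s r, ev (f s) r = M r s) :
    ∃ ψ : MulAut (SS g), (act g ψ : MG g) = M := by
  refine ⟨aut f f' h h' h1 h2, ?_⟩
  rw [act_val]
  ext r s
  rw [← hM]
  show Multiplicative.toAdd (ab g (hom f h (mkS g (FreeGroup.of s)))) r = _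
  rw [hom_mk, FreeGroup.lift_apply_of]
  rfl

theorem prod_congr_two {G : Type*} [Monoid G] : ∀ (g : ℕ) (f h : Fin g → G) (i j : Fin g),
    (i : ℕ) + 1 = j → (∀ k, k ≠ i → k ≠ j → h k = f k) → h i * h j = f i * f j →
    (List.ofFn h).prod = (List.ofFn f).prod := by
  intro g
  induction g with
  | zero => intro f h i; exact i.elim0
  | succ g ih =>
    intro f h i j hij hk hp
    rw [List.ofFn_succ, List.ofFn_succ, List.prod_cons, List.prod_cons]
    rcases Fin.eq_zero_or_eq_succ i with hi | ⟨i', hi⟩
    · subst hi
      cases g with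
      | zero => exact absurd j.2 (by rw [← hij]; simp)
      | succ g =>
        have hj : j = 1 := by
          apply Fin.ext
          rw [← hij]
          simp
        subst hj
        rw [List.ofFn_succ, List.ofFn_succ, List.prod_cons, List.prod_cons, ← mul_assoc,
          ← mul_assoc]
        have e1 : (Fin.succ 0 : Fin (g + 1 + 1)) = 1 := rfl
        rw [e1, hp]
        congr 2
        congr 1
        funext k
        refine hk _ (Fin.succ_ne_zero _) ?_
        intro hcon
        have := congrArg Fin.val hcon
        simp at this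
    · rcases Fin.eq_zero_or_eq_succ j with hj | ⟨j', hj⟩
      · rw [hj] at hij
        simp at hij
      · subst hi hj
        rw [hk 0 (Fin.succ_ne_zero _).symm (Fin.succ_ne_zero _).symm]
        congr 1
        refine ih _ _ i' j' (by simpa using hij) (fun k h1 h2 => ?_) hp
        exact hk _ (fun h => h1 (Fin.succ_injective _ h)) (fun h => h2 (Fin.succ_injective _ h))

theorem lift_rel_one (f : Fin g ⊕ Fin g → FG g) (h : ∀ i, FreeGroup.lift f (cm i) = cm i) :
    FreeGroup.lift f (rel g) = rel g := by
  rw [rel_eq, map_list_prod, List.map_ofFn]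
  congr 1
  congr 1
  funext i
  exact h i

theorem lift_rel_two (f : Fin g ⊕ Fin g → FG g) (i j : Fin g) (hij : (i : ℕ) + 1 = j)
    (h : ∀ k, k ≠ i → k ≠ j → FreeGroup.lift f (cm k) = cm k)
    (h2 : FreeGroup.lift f (cm i) * FreeGroup.lift f (cm j) = cm i * cm j) :
    FreeGroup.lift f (rel g) = rel g := by
  rw [rel_eq, map_list_prod, List.map_ofFn]
  exact prod_congr_two g _ _ i j hij (fun k h1 h2 => h k h1 h2) h2

/-! ### the first two families -/

theorem part1 (i : Fin g) : ∃ ψ : MulAut (SS g), IsU (Matrix.single i i 1) (act g ψ) := by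
  refine exists_aut (Function.update FreeGroup.of (Sum.inr i) (gb i * ga i))
    (Function.update FreeGroup.of (Sum.inr i) (gb i * (ga i)⁻¹)) ?_ ?_ ?_ ?_ _ ?_
  · refine lift_rel_one _ fun k => ?_
    by_cases hk : k = i
    · subst hk
      simp [cm, mul_assoc]
    · simp [cm, hk]
  · refine lift_rel_one _ fun k => ?_
    by_cases hk : k = i
    · subst hk
      simp [cm, mul_assoc]
    · simp [cm, hk]
  · intro k
    by_cases hk : k = Sum.inr i
    · subst hk; simp
    · simp [hk]
  · intro k
    by_cases hk : k = Sum.inr i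
    · subst hk; simp
    · simp [hk]
  · intro s r
    by_cases hs : s = Sum.inr i
    · subst hs
      rw [Function.update_self, ev_mul, ev_of, ev_of]
      rcases r with r | r <;>
        simp [Pi.single_apply, Matrix.single_apply, Matrix.one_apply, eq_comm]
    · rw [Function.update_of_ne hs, ev_of]
      rcases s with s | s <;> rcases r with r | r <;>
        simp_all [Pi.single_apply, Matrix.single_apply, Matrix.one_apply, eq_comm]

theorem part2 (i : Fin g) : ∃ ψ : MulAut (SS g), IsL (Matrix.single i i 1) (act g ψ) := by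
  refine exists_aut (Function.update FreeGroup.of (Sum.inl i) (ga i * gb i))
    (Function.update FreeGroup.of (Sum.inl i) (ga i * (gb i)⁻¹)) ?_ ?_ ?_ ?_ _ ?_
  · refine lift_rel_one _ fun k => ?_
    by_cases hk : k = i
    · subst hk
      simp [cm, mul_assoc]
    · simp [cm, hk]
  · refine lift_rel_one _ fun k => ?_
    by_cases hk : k = i
    · subst hk
      simp [cm, mul_assoc]
    · simp [cm, hk]
  · intro k
    by_cases hk : k = Sum.inl i
    · subst hk; simp
    · simp [hk]
  · intro k
    by_cases hk : k = Sum.inl i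
    · subst hk; simp
    · simp [hk]
  · intro s r
    by_cases hs : s = Sum.inl i
    · subst hs
      rw [Function.update_self, ev_mul, ev_of, ev_of]
      rcases r with r | r <;>
        simp [Pi.single_apply, Matrix.single_apply, Matrix.one_apply, eq_comm]
    · rw [Function.update_of_ne hs, ev_of]
      rcases s with s | s <;> rcases r with r | r <;>
        simp_all [Pi.single_apply, Matrix.single_apply, Matrix.one_apply, eq_comm]

/-! ### the third family -/

theorem key3 {G : Type*} [Group G] (F : G →* G) (a b a' b' c : G)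
    (hc : c = b⁻¹ * a' * b' * a'⁻¹) (h1 : F a = a * c) (h2 : F b = c⁻¹ * b * c)
    (h3 : F a' = c⁻¹ * a') (h4 : F b' = b') :
    F c = c ∧ F (a * b * a⁻¹ * b⁻¹) * F (a' * b' * a'⁻¹ * b'⁻¹) =
      a * b * a⁻¹ * b⁻¹ * (a' * b' * a'⁻¹ * b'⁻¹) := by
  constructor
  · have h : F c = F (b⁻¹ * a' * b' * a'⁻¹) := by rw [← hc]
    rw [h]
    simp only [map_mul, map_inv, h2, h3, h4]
    subst hc
    group
  · simp only [map_mul, map_inv, h1, h2, h3, h4]
    subst hc
    group

theorem key3' {G : Type*} [Group G] (F : G →* G) (a b a' b' c : G)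
    (hc : c = b⁻¹ * a' * b' * a'⁻¹) (h1 : F a = a * c⁻¹) (h2 : F b = c * b * c⁻¹)
    (h3 : F a' = c * a') (h4 : F b' = b') :
    F c = c ∧ F (a * b * a⁻¹ * b⁻¹) * F (a' * b' * a'⁻¹ * b'⁻¹) =
      a * b * a⁻¹ * b⁻¹ * (a' * b' * a'⁻¹ * b'⁻¹) := by
  constructor
  · have h : F c = F (b⁻¹ * a' * b' * a'⁻¹) := by rw [← hc]
    rw [h]
    simp only [map_mul, map_inv, h2, h3, h4]
    subst hc
    group
  · simp only [map_mul, map_inv, h1, h2, h3, h4]
    subst hc
    group

/-- the twist between two handles -/
def f3 (i j : Fin g) (c : FG g) : Fin g ⊕ Fin g → FG g :=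
  Sum.elim (fun k => if k = i then ga i * c else if k = j then c⁻¹ * ga j else ga k)
    (fun k => if k = i then c⁻¹ * gb i * c else gb k)

/-- the inverse twist -/
def f3' (i j : Fin g) (c : FG g) : Fin g ⊕ Fin g → FG g :=
  Sum.elim (fun k => if k = i then ga i * c⁻¹ else if k = j then c * ga j else ga k)
    (fun k => if k = i then c * gb i * c⁻¹ else gb k)

theorem part3 (i j : Fin g) (hij : (i : ℕ) + 1 = j) : ∃ ψ : MulAut (SS g),
    IsL (Matrix.single i j 1 + Matrix.single j i 1 - Matrix.single i i 1 - Matrix.single j j 1)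
      (act g ψ) := by
  have hne : i ≠ j := by
    rintro rfl
    omega
  obtain ⟨c, hc⟩ : ∃ c : FG g, c = (gb i)⁻¹ * ga j * gb j * (ga j)⁻¹ := ⟨_, rfl⟩
  have a1 : FreeGroup.lift (f3 i j c) (ga i) = ga i * c := by simp [f3]
  have a2 : FreeGroup.lift (f3 i j c) (gb i) = c⁻¹ * gb i * c := by simp [f3]
  have a3 : FreeGroup.lift (f3 i j c) (ga j) = c⁻¹ * ga j := by simp [f3, hne.symm]
  have a4 : FreeGroup.lift (f3 i j c) (gb j) = gb j := by simp [f3, hne.symm]
  have b1 : FreeGroup.lift (f3' i j c) (ga i) = ga i * c⁻¹ := by simp [f3']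
  have b2 : FreeGroup.lift (f3' i j c) (gb i) = c * gb i * c⁻¹ := by simp [f3']
  have b3 : FreeGroup.lift (f3' i j c) (ga j) = c * ga j := by simp [f3', hne.symm]
  have b4 : FreeGroup.lift (f3' i j c) (gb j) = gb j := by simp [f3', hne.symm]
  obtain ⟨a5, a6⟩ := key3 _ _ _ _ _ c hc a1 a2 a3 a4
  obtain ⟨b5, b6⟩ := key3' _ _ _ _ _ c hc b1 b2 b3 b4
  have ec : ev c = Pi.single (Sum.inr j) 1 - Pi.single (Sum.inr i) 1 := by
    rw [hc]
    simp only [ev_mul, ev_inv, ev_of]
    abel
  refine exists_aut (f3 i j c) (f3' i j c)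
    (lift_rel_two _ i j hij (fun k h1 h2 => ?_) a6)
    (lift_rel_two _ i j hij (fun k h1 h2 => ?_) b6) ?_ ?_ _ ?_
  · simp [cm, f3, h1, h2]
  · simp [cm, f3', h1, h2]
  · rintro (k | k)
    · by_cases h1 : k = i
      · subst h1
        simp only [f3, Sum.elim_inl, if_true]
        rw [map_mul, b1, b5]
        group
      · by_cases h2 : k = j
        · subst h2
          simp only [f3, Sum.elim_inl, if_true, if_neg h1]
          rw [map_mul, map_inv, b3, b5]
          group
        · simp [f3, f3', h1, h2]
    · by_cases h1 : k = i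
      · subst h1
        simp only [f3, Sum.elim_inr, if_true]
        rw [map_mul, map_mul, map_inv, b2, b5]
        group
      · simp [f3, f3', h1]
  · rintro (k | k)
    · by_cases h1 : k = i
      · subst h1
        simp only [f3', Sum.elim_inl, if_true]
        rw [map_mul, map_inv, a1, a5]
        group
      · by_cases h2 : k = j
        · subst h2
          simp only [f3', Sum.elim_inl, if_true, if_neg h1]
          rw [map_mul, a3, a5]
          group
        · simp [f3, f3', h1, h2]
    · by_cases h1 : k = i
      · subst h1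
        simp only [f3', Sum.elim_inr, if_true]
        rw [map_mul, map_mul, map_inv, a2, a5]
        group
      · simp [f3, f3', h1]
  · rintro (k | k) r
    · by_cases h1 : k = i
      · subst h1
        simp only [f3, Sum.elim_inl, if_true]
        rw [ev_mul, ev_of, ec]
        rcases r with r | r
        · simp [Pi.single_apply, Matrix.one_apply]
        · rw [fromBlocks_apply₂₁]
          simp only [Matrix.sub_apply, Matrix.add_apply, Matrix.single_apply, Pi.add_apply,
            Pi.sub_apply, Pi.single_apply, Sum.inr.injEq, reduceCtorEq, if_false]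
          by_cases e1 : r = k
          · subst e1
            simp [hne, hne.symm]
          · by_cases e2 : r = j
            · subst e2
              simp [hne, hne.symm]
            · simp [e1, e2, Ne.symm e1, Ne.symm e2]
      · by_cases h2 : k = j
        · subst h2
          simp only [f3, Sum.elim_inl, if_true, if_neg h1]
          rw [ev_mul, ev_inv, ev_of, ec]
          rcases r with r | r
          · simp [Pi.single_apply, Matrix.one_apply]
          · rw [fromBlocks_apply₂₁]
            simp only [Matrix.sub_apply, Matrix.add_apply, Matrix.single_apply, Pi.add_apply,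
              Pi.sub_apply, Pi.neg_apply, Pi.single_apply, Sum.inr.injEq, reduceCtorEq, if_false]
            by_cases e1 : r = k
            · subst e1
              simp [hne, hne.symm]
            · by_cases e2 : r = i
              · subst e2
                simp [hne, hne.symm]
              · simp [e1, e2, Ne.symm e1, Ne.symm e2]
        · simp only [f3, Sum.elim_inl, if_neg h1, if_neg h2]
          rw [ev_of]
          rcases r with r | r
          · simp [Pi.single_apply, Matrix.one_apply]
          · have h1' := Ne.symm h1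
            have h2' := Ne.symm h2
            simp [Matrix.single_apply, h1', h2']
    · by_cases h1 : k = i
      · subst h1
        simp only [f3, Sum.elim_inr, if_true]
        rw [ev_mul, ev_mul, ev_inv, ev_of, ec]
        rcases r with r | r
        · simp [Pi.single_apply]
        · simp [Pi.single_apply, Matrix.one_apply]
      · simp only [f3, Sum.elim_inr, if_neg h1]
        rw [ev_of]
        rcases r with r | r
        · simp [Pi.single_apply]
        · simp [Pi.single_apply, Matrix.one_apply]

/-! ### the fourth family -/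

/-- the swap of two handles -/
def f4 (i j : Fin g) : Fin g ⊕ Fin g → FG g :=
  Sum.elim (fun k => if k = i then cm i * ga j * (cm i)⁻¹ else if k = j then ga i else ga k)
    (fun k => if k = i then cm i * gb j * (cm i)⁻¹ else if k = j then gb i else gb k)

/-- the inverse swap -/
def f4' (i j : Fin g) : Fin g ⊕ Fin g → FG g :=
  Sum.elim (fun k => if k = i then ga j else if k = j then (cm j)⁻¹ * ga i * cm j else ga k)
    (fun k => if k = i then gb j else if k = j then (cm j)⁻¹ * gb i * cm j else gb k)

theorem ev_cm (i : Fin g) : ev (cm i) = 0 := by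
  unfold cm
  simp only [ev_mul, ev_inv]
  abel

theorem part4 (i j : Fin g) (hij : (i : ℕ) + 1 = j) : ∃ ψ : MulAut (SS g), (act g ψ : MG g) =
    fromBlocks ((Equiv.swap i j).permMatrix ℤ) 0 0 ((Equiv.swap i j).permMatrix ℤ) := by
  have hne : i ≠ j := by
    rintro rfl
    omega
  have a1 : FreeGroup.lift (f4 i j) (ga i) = cm i * ga j * (cm i)⁻¹ := by simp [f4]
  have a2 : FreeGroup.lift (f4 i j) (gb i) = cm i * gb j * (cm i)⁻¹ := by simp [f4]
  have a3 : FreeGroup.lift (f4 i j) (ga j) = ga i := by simp [f4, hne.symm]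
  have a4 : FreeGroup.lift (f4 i j) (gb j) = gb i := by simp [f4, hne.symm]
  have b1 : FreeGroup.lift (f4' i j) (ga i) = ga j := by simp [f4']
  have b2 : FreeGroup.lift (f4' i j) (gb i) = gb j := by simp [f4']
  have b3 : FreeGroup.lift (f4' i j) (ga j) = (cm j)⁻¹ * ga i * cm j := by simp [f4', hne.symm]
  have b4 : FreeGroup.lift (f4' i j) (gb j) = (cm j)⁻¹ * gb i * cm j := by simp [f4', hne.symm]
  have a5 : FreeGroup.lift (f4 i j) (cm i) = cm i * cm j * (cm i)⁻¹ := by
    have : FreeGroup.lift (f4 i j) (cm i) = FreeGroup.lift (f4 i j)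
      (ga i * gb i * (ga i)⁻¹ * (gb i)⁻¹) := rfl
    rw [this]
    simp only [map_mul, map_inv, a1, a2]
    unfold cm
    group
  have a6 : FreeGroup.lift (f4 i j) (cm j) = cm i := by
    have : FreeGroup.lift (f4 i j) (cm j) = FreeGroup.lift (f4 i j)
      (ga j * gb j * (ga j)⁻¹ * (gb j)⁻¹) := rfl
    rw [this]
    simp only [map_mul, map_inv, a3, a4]
    rfl
  have b5 : FreeGroup.lift (f4' i j) (cm i) = cm j := by
    have : FreeGroup.lift (f4' i j) (cm i) = FreeGroup.lift (f4' i j)
      (ga i * gb i * (ga i)⁻¹ * (gb i)⁻¹) := rfl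
    rw [this]
    simp only [map_mul, map_inv, b1, b2]
    rfl
  have b6 : FreeGroup.lift (f4' i j) (cm j) = (cm j)⁻¹ * cm i * cm j := by
    have : FreeGroup.lift (f4' i j) (cm j) = FreeGroup.lift (f4' i j)
      (ga j * gb j * (ga j)⁻¹ * (gb j)⁻¹) := rfl
    rw [this]
    simp only [map_mul, map_inv, b3, b4]
    unfold cm
    group
  refine exists_aut (f4 i j) (f4' i j)
    (lift_rel_two _ i j hij (fun k h1 h2 => ?_) ?_)
    (lift_rel_two _ i j hij (fun k h1 h2 => ?_) ?_) ?_ ?_ _ ?_
  · simp [cm, f4, h1, h2]
  · rw [a5, a6]; group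
  · simp [cm, f4', h1, h2]
  · rw [b5, b6]; group
  · rintro (k | k)
    · by_cases h1 : k = i
      · subst h1
        simp only [f4, Sum.elim_inl, if_true]
        rw [map_mul, map_mul, map_inv, b3, b5]
        group
      · by_cases h2 : k = j
        · subst h2
          simp only [f4, Sum.elim_inl, if_true, if_neg h1]
          rw [b1]
        · simp [f4, f4', h1, h2]
    · by_cases h1 : k = i
      · subst h1
        simp only [f4, Sum.elim_inr, if_true]
        rw [map_mul, map_mul, map_inv, b4, b5]
        group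
      · by_cases h2 : k = j
        · subst h2
          simp only [f4, Sum.elim_inr, if_true, if_neg h1]
          rw [b2]
        · simp [f4, f4', h1, h2]
  · rintro (k | k)
    · by_cases h1 : k = i
      · subst h1
        simp only [f4', Sum.elim_inl, if_true]
        rw [a3]
      · by_cases h2 : k = j
        · subst h2
          simp only [f4', Sum.elim_inl, if_true, if_neg h1]
          rw [map_mul, map_mul, map_inv, a1, a6]
          group
        · simp [f4, f4', h1, h2]
    · by_cases h1 : k = i
      · subst h1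
        simp only [f4', Sum.elim_inr, if_true]
        rw [a4]
      · by_cases h2 : k = j
        · subst h2
          simp only [f4', Sum.elim_inr, if_true, if_neg h1]
          rw [map_mul, map_mul, map_inv, a2, a6]
          group
        · simp [f4, f4', h1, h2]
  · have hev : ∀ k : Fin g, ev (f4 i j (Sum.inl k)) = Pi.single (Sum.inl (Equiv.swap i j k)) 1 := by
      intro k
      by_cases h1 : k = i
      · subst h1
        simp only [f4, Sum.elim_inl, if_true]
        rw [ev_mul, ev_mul, ev_inv, ev_of, ev_cm, Equiv.swap_apply_left]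
        simp
      · by_cases h2 : k = j
        · subst h2
          simp only [f4, Sum.elim_inl, if_true, if_neg h1]
          rw [ev_of, Equiv.swap_apply_right]
        · simp only [f4, Sum.elim_inl, if_neg h1, if_neg h2]
          rw [ev_of, Equiv.swap_apply_of_ne_of_ne h1 h2]
    have hev2 : ∀ k : Fin g, ev (f4 i j (Sum.inr k)) = Pi.single (Sum.inr (Equiv.swap i j k)) 1 := by
      intro k
      by_cases h1 : k = i
      · subst h1
        simp only [f4, Sum.elim_inr, if_true]
        rw [ev_mul, ev_mul, ev_inv, ev_of, ev_cm, Equiv.swap_apply_left]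
        simp
      · by_cases h2 : k = j
        · subst h2
          simp only [f4, Sum.elim_inr, if_true, if_neg h1]
          rw [ev_of, Equiv.swap_apply_right]
        · simp only [f4, Sum.elim_inr, if_neg h1, if_neg h2]
          rw [ev_of, Equiv.swap_apply_of_ne_of_ne h1 h2]
    have hsw : ∀ r k : Fin g, (Equiv.swap i j).permMatrix ℤ r k =
        if r = Equiv.swap i j k then 1 else 0 := by
      intro r k
      rw [Equiv.Perm.permMatrix, PEquiv.toMatrix_apply]
      have : (k ∈ (Equiv.swap i j).toPEquiv r) ↔ r = Equiv.swap i j k := by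
        rw [Equiv.toPEquiv_apply, Option.mem_some_iff]
        constructor
        · intro h
          rw [← h, Equiv.swap_apply_self]
        · intro h
          rw [h, Equiv.swap_apply_self]
      simp only [this]
    rintro (k | k) r
    · rw [hev]
      rcases r with r | r
      · rw [fromBlocks_apply₁₁, hsw]
        simp [Pi.single_apply]
      · simp
    · rw [hev2]
      rcases r with r | r
      · simp
      · rw [fromBlocks_apply₂₂, hsw]
        simp [Pi.single_apply]

end TWb

theorem t_tw : StTW := fun _ => ⟨TWb.part1, TWb.part2, TWb.part3, TWb.part4⟩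

end Pool.Agent.TH933.SPC
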