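import Pool.Agent.TH933.SPC.Stm
import Pool.Agent.TH933.JT.Gen

/-! # From the Torelli group to the mapping class group -/

set_option autoImplicit false

open Matrix

namespace Pool.Agent.TH933.SPC

open Pool.Agent.TH933.JT (Tr TT PC ga mem_TT char_core inf_char Tr_mono steps)

namespace TopS

section
variable {G : Type} [Group G]

theorem TT_normal (K : Subgroup G) (hc : K.Characteristic) : (TT K).Normal := by
  refine ⟨fun ψ hψ φ x => ?_⟩
  have h1 := hψ (φ⁻¹ x)
  have h2 := (Subgroup.characteristic_iff_map_le.1 hc) φ (Subgroup.mem_map_of_mem _ h1)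
  have h3 : (MulEquiv.toMonoidHom φ) (ψ (φ⁻¹ x) * (φ⁻¹ x)⁻¹) = (φ * ψ * φ⁻¹) x * x⁻¹ := by
    change φ (ψ (φ⁻¹ x) * (φ⁻¹ x)⁻¹) = _
    rw [map_mul, map_inv, MulAut.apply_inv_self, MulAut.mul_apply, MulAut.mul_apply]
  rw [← h3]
  exact h2

theorem TT_fin [hG : Group.FG G] (K : Subgroup G) (hc : K.Characteristic) (hf : K.FiniteIndex) :
    (TT K).FiniteIndex := by
  have := hc
  have := hf
  obtain ⟨S, hS⟩ := hG.out
  have : Finite (G ⧸ K) := Subgroup.finite_quotient_of_finiteIndex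
  have hinj : Function.Injective (fun (q : MulAut G ⧸ TT K) (i : S) =>
      (QuotientGroup.mk' K (q.out i))) := by
    intro q q' hqq
    have h1 : ((QuotientGroup.mk' K).comp (q.out : G ≃* G).toMonoidHom) =
        ((QuotientGroup.mk' K).comp (q'.out : G ≃* G).toMonoidHom) := by
      apply MonoidHom.eq_of_eqOn_dense hS
      intro x hx
      exact congrFun hqq ⟨x, hx⟩
    have h2 : (q.out)⁻¹ * q'.out ∈ TT K := by
      intro x
      have h3 := DFunLike.congr_fun h1 x
      have h4 : (q'.out x) * (q.out x)⁻¹ ∈ K := by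
        have h5 : QuotientGroup.mk' K (q.out x) = QuotientGroup.mk' K (q'.out x) := h3
        have h6 : QuotientGroup.mk' K (q'.out x * (q.out x)⁻¹) = 1 := by
          rw [map_mul, map_inv, h5, mul_inv_cancel]
        rwa [← MonoidHom.mem_ker, QuotientGroup.ker_mk'] at h6
      have h7 := (Subgroup.characteristic_iff_le_comap.1 hc) (q.out⁻¹ : MulAut G) h4
      rw [Subgroup.mem_comap] at h7
      have h8 : (MulEquiv.toMonoidHom (q.out⁻¹ : MulAut G)) (q'.out x * (q.out x)⁻¹) =
          (q.out⁻¹ * q'.out) x * x⁻¹ := by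
        change (q.out⁻¹ : MulAut G) (q'.out x * (q.out x)⁻¹) = _
        rw [map_mul, map_inv, MulAut.inv_apply_self, MulAut.mul_apply]
      rw [h8] at h7
      exact h7
    rw [← Quotient.out_eq q, ← Quotient.out_eq q']
    exact Quotient.sound (QuotientGroup.leftRel_apply.2 h2)
  have : Finite (MulAut G ⧸ TT K) := Finite.of_injective _ hinj
  exact Subgroup.finiteIndex_of_finite_quotient

end

variable {g : ℕ}

theorem ab_of (j : Fin g ⊕ Fin g) :
    ab g (PresentedGroup.of j) = Multiplicative.ofAdd (Pi.single j (1 : ℤ)) := by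
  unfold ab
  rw [PresentedGroup.toGroup.of]

/-- the kernel of `ab` is the commutator subgroup -/
theorem ker_ab (x : SS g) (h : ab g x = 1) : x ∈ commutator (SS g) := by
  rw [← Abelianization.ker_of, MonoidHom.mem_ker]
  let θ : Multiplicative (Fin g ⊕ Fin g → ℤ) →* Abelianization (SS g) :=
    { toFun := fun v => ∏ j, (Abelianization.of (PresentedGroup.of j) : Abelianization (SS g)) ^
        (Multiplicative.toAdd v j)
      map_one' := by simp
      map_mul' := by
        intro v w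
        rw [← Finset.prod_mul_distrib]
        refine Finset.prod_congr rfl fun j _ => ?_
        rw [toAdd_mul, Pi.add_apply, _root_.zpow_add] }
  have h1 : θ.comp (ab g) = Abelianization.of := by
    apply PresentedGroup.ext
    intro i
    show θ (ab g (PresentedGroup.of i)) = Abelianization.of (PresentedGroup.of i)
    rw [ab_of]
    show ∏ j, (Abelianization.of (PresentedGroup.of j) : Abelianization (SS g)) ^
        ((Pi.single i (1 : ℤ) : Fin g ⊕ Fin g → ℤ) j) = _
    rw [Finset.prod_eq_single i]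
    · simp
    · intro j _ hj
      simp [Pi.single_eq_of_ne hj]
    · simp
  have h2 := DFunLike.congr_fun h1 x
  rw [← h2, MonoidHom.comp_apply, h, map_one]

theorem ab_eq {ψ : MulAut (SS g)} (h : act g ψ = 1) (x : SS g) : ab g (ψ x) = ab g x := by
  apply Multiplicative.toAdd.injective
  have h1 : mx ψ = 1 := by
    have := congrArg Units.val h
    rwa [act_val] at this
  rw [ab_mx, h1, Matrix.one_mulVec]

theorem tor_of_act {ψ : MulAut (SS g)} (h : act g ψ = 1) : Tr (commutator (SS g)) ψ := by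
  intro x
  apply ker_ab
  rw [map_mul, map_inv, ab_eq h, mul_inv_cancel]

/-- the exponent sums modulo `m` -/
noncomputable def abm (g m : ℕ) : SS g →* Multiplicative (Fin g ⊕ Fin g → ZMod m) :=
  (AddMonoidHom.toMultiplicative
    (AddMonoidHom.compLeft (Int.castAddHom (ZMod m)) (Fin g ⊕ Fin g))).comp (ab g)

theorem cong_of_tr {m : ℕ} {ψ : MulAut (SS g)} (h : Tr (abm g m).ker ψ) : CongG (m : ℤ) (act g ψ) := by
  intro i j
  have h1 := h (PresentedGroup.of j)
  rw [MonoidHom.mem_ker, map_mul, map_inv, mul_inv_eq_one] at h1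
  have h2 := congrFun (congrArg Multiplicative.toAdd h1) i
  have h3 : (((Multiplicative.toAdd (ab g (ψ (PresentedGroup.of j))) i : ℤ)) : ZMod m) =
      (((Multiplicative.toAdd (ab g (PresentedGroup.of j)) i : ℤ)) : ZMod m) := h2
  rw [ab_of, toAdd_ofAdd] at h3
  rw [ZMod.intCast_eq_intCast_iff_dvd_sub] at h3
  have h4 : (act g ψ : MG g) i j - ((1 : GG g) : MG g) i j =
      -((Pi.single j (1 : ℤ) : Fin g ⊕ Fin g → ℤ) i -
        Multiplicative.toAdd (ab g (ψ (PresentedGroup.of j))) i) := by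
    rw [act_val, Units.val_one, Matrix.one_apply, Pi.single_apply]
    unfold mx
    ring
  rw [← Units.val_one, h4]
  exact (dvd_neg).2 h3

instance fgS : Group.FG (SS g) := by
  unfold SS PresentedGroup
  exact QuotientGroup.fg _

theorem range_ge (hG : StGENM) (hT : StTW) (hg : 3 ≤ g) : EL g ≤ (act g).range := by
  obtain ⟨h1, h2, h3, h4⟩ := hT g
  refine hG g hg _ ?_ ?_ ?_ ?_
  · intro i A hA
    obtain ⟨ψ, hψ⟩ := h1 i
    exact ⟨ψ, Units.ext (hψ.trans hA.symm)⟩
  · intro i A hA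
    obtain ⟨ψ, hψ⟩ := h2 i
    exact ⟨ψ, Units.ext (hψ.trans hA.symm)⟩
  · intro i j A hij hA
    obtain ⟨ψ, hψ⟩ := h3 i j hij
    exact ⟨ψ, Units.ext (hψ.trans hA.symm)⟩
  · intro i j A hij hA
    obtain ⟨ψ, hψ⟩ := h4 i j hij
    exact ⟨ψ, Units.ext (hψ.trans hA.symm)⟩

/-- from the Torelli group to the whole group -/
theorem top (hS : StSp) (hG : StGENM) (hF : StFORM) (hT : StTW) (hg : 3 ≤ g)
    (N : Subgroup (MulAut (SS g))) (hN : N.Normal) (hNf : N.FiniteIndex) (h : PC N 1) :
    ∃ K : Subgroup (SS g), K.Characteristic ∧ K.FiniteIndex ∧ ∀ ψ, Tr K ψ → ψ ∈ N := by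
  obtain ⟨K1, hK1c, hK1f, hK1⟩ := h
  have hT1 := TT_fin K1 hK1c hK1f
  have hT2 := TT_normal K1 hK1c
  have hN1f : (N ⊓ TT K1).FiniteIndex := inferInstance
  have hN1n : (N ⊓ TT K1).Normal := inferInstance
  have hle := range_ge hG hT hg
  obtain ⟨m, hm, hP⟩ := hS g hg ((N ⊓ TT K1).map (act g)) (by
    have h1 : ((N ⊓ TT K1).map (act g)).relIndex (act g).range ≠ 0 := by
      rw [MonoidHom.range_eq_map, Subgroup.relIndex_map_map, top_sup_eq, Subgroup.relIndex_top_right]
      have h2 : ((N ⊓ TT K1) ⊔ (act g).ker).index ∣ (N ⊓ TT K1).index :=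
        Subgroup.index_dvd_of_le le_sup_left
      intro h3
      rw [h3, zero_dvd_iff] at h2
      exact hN1f.index_ne_zero h2
    refine ⟨fun h2 => h1 ?_⟩
    exact Subgroup.relIndex_eq_zero_of_le_right hle h2) (by
    intro A hA B hB
    obtain ⟨ψ, rfl⟩ := hle hA
    obtain ⟨φ, hφ, rfl⟩ := hB
    refine ⟨ψ * φ * ψ⁻¹, hN1n.conj_mem φ hφ ψ, ?_⟩
    rw [map_mul, map_mul, map_inv])
  have hm3 : 0 < 3 * m := by omega
  have : NeZero (3 * m) := ⟨by omega⟩
  have hker : (abm g (3 * m)).ker.FiniteIndex := by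
    have : Finite (Multiplicative (Fin g ⊕ Fin g → ZMod (3 * m))) :=
      inferInstanceAs (Finite (Fin g ⊕ Fin g → ZMod (3 * m)))
    infer_instance
  obtain ⟨K2, hK2c, hK2f, hK2⟩ := char_core (abm g (3 * m)).ker
  refine ⟨K1 ⊓ K2, inf_char hK1c hK2c, inferInstance, fun ψ hψ => ?_⟩
  have h1 : Tr K1 ψ := fun x => (hψ x).1
  have h2 : CongG ((3 * m : ℕ) : ℤ) (act g ψ) := cong_of_tr (fun x => hK2 (hψ x).2)
  have h3 : Symp (act g ψ) := by
    apply hF g ψ
    intro i j
    refine (Dvd.intro (m : ℤ) ?_).trans (h2 i j)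
    push_cast
    ring
  have h4 : act g ψ ∈ (N ⊓ TT K1).map (act g) := by
    apply hP _ h3
    intro i j
    refine (Dvd.intro_left (3 : ℤ) ?_).trans (h2 i j)
    push_cast
    ring
  obtain ⟨φ, hφ, hφ'⟩ := h4
  have h5 : act g (φ⁻¹ * ψ) = 1 := by rw [map_mul, map_inv, hφ', inv_mul_cancel]
  have h6 : φ⁻¹ * ψ ∈ N := by
    apply hK1
    · exact (TT K1).mul_mem ((TT K1).inv_mem hφ.2) h1
    · have h7 := tor_of_act h5
      have h8 : commutator (SS g) = ga (SS g) 1 := Subgroup.top_lowerCentralSeries_one.symm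
      rw [h8] at h7
      exact h7
  have h9 : ψ = φ * (φ⁻¹ * ψ) := by group
  rw [h9]
  exact N.mul_mem hφ.1 h6

end TopS

end Pool.Agent.TH933.SPC
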